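import Pool.Agent.Lib.MP_af7143_lc.OneHit

/-!
# Moves of an adversary that differs from Harmonic in at most one server
-/

set_option autoImplicit false

open Finset

namespace Pool.Agent.Lib.MP_af7143_lc.One

variable {k : ℕ} {M : Type*}

/-- A bijection between two configurations can be changed, at no extra cost, so that it fixes
every common point. -/
theorem exists_reduced [MetricSpace M] (y : Fin k → M) :
    ∀ (m : ℕ) (y' : Fin k → M), Function.Injective y' →
      (open Classical in (Finset.univ.filter fun v => y' v ≠ y v).card) ≤ m →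
      ∃ z : Fin k → M, Function.Injective z ∧ Set.range z = Set.range y' ∧
        (∀ v, z v = y v ∨ z v ∉ Set.range y) ∧
        ∑ v, dist (y v) (z v) ≤ ∑ v, dist (y v) (y' v) := by
  classical
  intro m
  induction m with
  | zero =>
    intro y' hy' hm
    refine ⟨y', hy', rfl, fun v => Or.inl ?_, le_rfl⟩
    by_contra hv
    have h1 : v ∈ Finset.univ.filter fun v => y' v ≠ y v := by simp [hv]
    have h2 := Finset.card_pos.2 ⟨v, h1⟩
    omega
  | succ m ih =>
    intro y' hy' hm
    by_cases hall : ∀ v, y' v = y v ∨ y' v ∉ Set.range y
    · exact ⟨y', hy', rfl, hall, le_rfl⟩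
    · push Not at hall
      obtain ⟨v, hv, w, hw⟩ := hall
      have hvw : w ≠ v := by
        rintro rfl
        exact hv hw.symm
      have hww : y' w ≠ y w := by
        intro e
        rw [hw] at e
        exact hvw (hy' e)
      set σ := Equiv.swap v w with hσ
      have hinj : Function.Injective (y' ∘ σ) := hy'.comp σ.injective
      have hrange : Set.range (y' ∘ σ) = Set.range y' := σ.surjective.range_comp y'
      have e1 : (y' ∘ σ) w = y w := by
        simp [hσ, hw]
      have e2 : (y' ∘ σ) v = y' w := by
        simp [hσ]
      have e3 : ∀ u, u ≠ v → u ≠ w → (y' ∘ σ) u = y' u := by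
        intro u h1 h2
        simp [hσ, Equiv.swap_apply_of_ne_of_ne h1 h2]
      have hcard : (Finset.univ.filter fun u => (y' ∘ σ) u ≠ y u).card ≤ m := by
        have hsub : (Finset.univ.filter fun u => (y' ∘ σ) u ≠ y u)
            ⊆ (Finset.univ.filter fun u => y' u ≠ y u).erase w := by
          intro u hu
          rw [Finset.mem_filter] at hu
          rw [Finset.mem_erase, Finset.mem_filter]
          have h1 : u ≠ w := by
            rintro rfl
            exact hu.2 e1
          refine ⟨h1, Finset.mem_univ _, ?_⟩
          rcases eq_or_ne u v with h2 | h2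
          · rw [h2]
            exact hv
          · rw [← e3 u h2 h1]
            exact hu.2
        have h1 := Finset.card_le_card hsub
        rw [Finset.card_erase_of_mem (by simp [hww])] at h1
        omega
      obtain ⟨z, hz1, hz2, hz3, hz4⟩ := ih (y' ∘ σ) hinj hcard
      refine ⟨z, hz1, hz2.trans hrange, hz3, hz4.trans ?_⟩
      have hmem : w ∈ Finset.univ.erase v := Finset.mem_erase.2 ⟨hvw, Finset.mem_univ _⟩
      rw [← Finset.add_sum_erase _ _ (Finset.mem_univ v), ← Finset.add_sum_erase _ _ hmem,
        ← Finset.add_sum_erase _ (fun u => dist (y u) (y' u)) (Finset.mem_univ v),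
        ← Finset.add_sum_erase _ (fun u => dist (y u) (y' u)) hmem]
      have hrest : ∑ u ∈ (Finset.univ.erase v).erase w, dist (y u) ((y' ∘ σ) u)
          = ∑ u ∈ (Finset.univ.erase v).erase w, dist (y u) (y' u) := by
        refine Finset.sum_congr rfl fun u hu => ?_
        have h1 := Finset.mem_erase.1 hu
        rw [e3 u (Finset.ne_of_mem_erase h1.2) h1.1]
      rw [hrest, e1, e2, dist_self]
      have htri := dist_triangle (y v) (y' v) (y' w)
      rw [hw] at *
      linarith

/-- at most one server of `x` stands outside of `y`, and the servers of `y` are at different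
points -/
def OneOff (x y : Fin k → M) : Prop :=
  Function.Injective y ∧ ∃ i, ∀ j, j ≠ i → ∃ v, y v = x j

/-- the two cases of `OneOff` -/
theorem OneOff.cases {x y : Fin k → M} (hx : Function.Injective x) (h : OneOff x y) :
    Set.range y = Set.range x ∨
      ∃ p i, p ∉ Set.range x ∧ Set.range y = insert p (x '' {i}ᶜ) := by
  classical
  obtain ⟨hy, i, hi⟩ := h
  set S : Finset M := (Finset.univ.erase i).image x with hS
  set Y : Finset M := Finset.univ.image y with hY
  have hSY : S ⊆ Y := by
    intro a ha
    rw [hS, Finset.mem_image] at ha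
    obtain ⟨j, hj, rfl⟩ := ha
    obtain ⟨v, hv⟩ := hi j (Finset.ne_of_mem_erase hj)
    rw [hY, Finset.mem_image]
    exact ⟨v, Finset.mem_univ _, hv⟩
  have hk : 0 < k := i.pos
  have hScard : S.card = k - 1 := by
    rw [hS, Finset.card_image_of_injective _ hx, Finset.card_erase_of_mem (Finset.mem_univ _),
      Finset.card_univ, Fintype.card_fin]
  have hYcard : Y.card = k := by
    rw [hY, Finset.card_image_of_injective _ hy, Finset.card_univ, Fintype.card_fin]
  have hdiff : (Y \ S).card = 1 := by
    rw [Finset.card_sdiff_of_subset hSY, hYcard, hScard]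
    omega
  obtain ⟨p, hp⟩ := Finset.card_eq_one.1 hdiff
  have hYp : Y = insert p S := by
    rw [← Finset.sdiff_union_of_subset hSY, hp]
    rfl
  have hrange : Set.range y = insert p (x '' {i}ᶜ) := by
    have h1 : Set.range y = (Y : Set M) := by simp [hY]
    have h2 : x '' {i}ᶜ = (S : Set M) := by
      rw [hS, Finset.coe_image]
      congr 1
      ext j
      simp
    rw [h1, h2, hYp, Finset.coe_insert]
  have hpS : p ∉ S := by
    have : p ∈ Y \ S := by rw [hp]; exact Finset.mem_singleton_self p
    exact (Finset.mem_sdiff.1 this).2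
  by_cases hpx : p = x i
  · left
    rw [hrange, hpx]
    ext a
    constructor
    · rintro (ha | ⟨j, -, rfl⟩)
      · exact ⟨i, ha.symm⟩
      · exact ⟨j, rfl⟩
    · rintro ⟨j, rfl⟩
      rcases eq_or_ne j i with hj | hj
      · rw [hj]
        exact Or.inl rfl
      · exact Or.inr ⟨j, hj, rfl⟩
  · right
    refine ⟨p, i, ?_, hrange⟩
    rintro ⟨j, hj⟩
    rcases eq_or_ne j i with hji | hji
    · rw [hji] at hj
      exact hpx hj.symm
    · apply hpS
      rw [hS, Finset.mem_image]
      exact ⟨j, Finset.mem_erase.2 ⟨hji, Finset.mem_univ _⟩, hj⟩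

/-- the sites of the network: the servers of Harmonic and one more point -/
def ext (x : Fin k → M) (p : M) : Option (Fin k) → M := fun o => o.elim p x

@[simp] theorem ext_none (x : Fin k → M) (p : M) : ext x p none = p := rfl

@[simp] theorem ext_some (x : Fin k → M) (p : M) (i : Fin k) : ext x p (some i) = x i := rfl

theorem ext_injective {x : Fin k → M} {p : M} (hx : Function.Injective x)
    (hp : p ∉ Set.range x) : Function.Injective (ext x p) := by
  intro u v huv
  cases u with
  | none =>
    cases v with
    | none => rfl
    | some j => exact absurd ⟨j, huv.symm⟩ hp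
  | some i =>
    cases v with
    | none => exact absurd ⟨i, huv⟩ hp
    | some j => exact congrArg some (hx huv)

/-- `t` is the value of the potential at the configurations `x` (Harmonic) and `y` (adversary) -/
def Val [MetricSpace M] (x y : Fin k → M) (t : ℝ) : Prop :=
  (Set.range y = Set.range x ∧ t = 0) ∨
    ∃ p i f, p ∉ Set.range x ∧ Set.range y = insert p (x '' {i}ᶜ) ∧
      IsHit (ext x p) (some i) f ∧ t = f none

theorem Val.nonneg [MetricSpace M] {x y : Fin k → M} {t : ℝ} (hx : Function.Injective x)
    (h : Val x y t) : 0 ≤ t := by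
  rcases h with ⟨-, h⟩ | ⟨p, i, f, hp, -, hf, h⟩
  · exact h.ge
  · rw [h]
    exact hf.nonneg (ext_injective hx hp) none

theorem card_option : (Fintype.card (Option (Fin k)) : ℝ) / 2 = ((k : ℝ) + 1) / 2 := by
  rw [Fintype.card_option, Fintype.card_fin]
  push_cast
  ring

/-- two different terms of a nonnegative sum -/
theorem two_le_sum {g : Fin k → ℝ} (hg : ∀ v, 0 ≤ g v) {v w : Fin k} (hvw : v ≠ w) :
    g v + g w ≤ ∑ u, g u := by
  classical
  rw [← Finset.sum_pair hvw]
  exact Finset.sum_le_sum_of_subset_of_nonneg (Finset.subset_univ _) fun u _ _ => hg u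

theorem one_le_sum {g : Fin k → ℝ} (hg : ∀ v, 0 ≤ g v) (v : Fin k) :
    g v ≤ ∑ u, g u :=
  Finset.single_le_sum (fun u _ => hg u) (Finset.mem_univ v)

/-- the effect of a reduced move of the adversary -/
theorem Val.move_reduced [MetricSpace M] {x y y' : Fin k → M} {t : ℝ}
    (hx : Function.Injective x) (hy : Function.Injective y)
    (h : Val x y t) (h' : OneOff x y') (hred : ∀ v, y' v = y v ∨ y' v ∉ Set.range y) :
    ∃ t', Val x y' t' ∧ t' ≤ t + ((k : ℝ) + 1) / 2 * ∑ v, dist (y v) (y' v) := by
  have hlam : 0 ≤ ((k : ℝ) + 1) / 2 := by positivity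
  have hd : ∀ v, 0 ≤ dist (y v) (y' v) := fun v => dist_nonneg
  have ht := h.nonneg hx
  have hy' := h'.1
  rcases h'.cases hx with hr' | ⟨p', i', hp', hr'⟩
  · refine ⟨0, Or.inl ⟨hr', rfl⟩, ?_⟩
    exact add_nonneg ht (mul_nonneg hlam (Finset.sum_nonneg fun v _ => hd v))
  have hz' := ext_injective hx hp'
  obtain ⟨f', hf'⟩ := exists_isHit hz' (some i')
  refine ⟨f' none, Or.inr ⟨p', i', f', hp', hr', hf', rfl⟩, ?_⟩
  obtain ⟨v, hv⟩ : ∃ v, y' v = p' := by
    have : p' ∈ Set.range y' := by rw [hr']; exact Or.inl rfl
    exact this
  -- a point of `x` which is in `y` but was not left by the label `v`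
  have hsrc : ∀ w j, y w = x j → y' w ≠ y w → j = i' := by
    intro w j hj hw
    by_contra hji
    have h1 : x j ∈ Set.range y' := by
      rw [hr']
      exact Or.inr ⟨j, hji, rfl⟩
    obtain ⟨u, hu⟩ := h1
    rcases hred u with h2 | h2
    · have h3 : u = w := hy (by rw [← h2, hu, hj])
      rw [h3] at h2
      exact hw h2
    · exact h2 ⟨w, by rw [hu, hj]⟩
  have hfar : dist (x i') p' ≤ ∑ v, dist (y v) (y' v) →
      f' none ≤ t + ((k : ℝ) + 1) / 2 * ∑ v, dist (y v) (y' v) := by
    intro h1
    have h2 := hf'.lip hz' none (some i')
    rw [hf'.1, sub_zero, card_option, ext_none, ext_some, dist_comm] at h2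
    have h3 := mul_le_mul_of_nonneg_left h1 hlam
    linarith
  rcases h with ⟨hr, h0⟩ | ⟨p, i, f, hp, hr, hf, htf⟩
  · -- the two configurations agree
    have hv' : y v ∈ Set.range x := by
      rw [← hr]
      exact ⟨v, rfl⟩
    obtain ⟨j, hj⟩ := hv'
    have hne : y' v ≠ y v := by
      intro e
      exact hp' ⟨j, by rw [hj, ← e, hv]⟩
    have hji := hsrc v j hj.symm hne
    apply hfar
    have h1 := one_le_sum hd v
    rwa [hv, ← hj, hji] at h1
  · -- they differ
    have hz := ext_injective hx hp
    have hv' : y v ∈ insert p (x '' {i}ᶜ) := by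
      rw [← hr]
      exact ⟨v, rfl⟩
    have hxi : x i ∉ Set.range y := by
      rw [hr]
      rintro (h1 | ⟨j, hj, h1⟩)
      · exact hp ⟨i, h1⟩
      · exact hj (hx h1)
    rcases hv' with hvp | ⟨j, hj, hvj⟩
    · -- the label `v` moves from `p` to `p'`
      have hstep : ∀ g, IsHit (ext x p') (some i) g →
          g none ≤ f none + ((k : ℝ) + 1) / 2 * dist p p' := by
        intro g hg
        have h1 := hf.change hz hz' (o := none) (by simp) (fun u hu => ?_) hg
        · rwa [card_option, ext_none, ext_none] at h1
        · cases u with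
          | none => exact absurd rfl hu
          | some j => rfl
      rcases eq_or_ne i' i with hii | hii
      · rw [hii] at hf'
        have h1 := hstep f' hf'
        have h2 := one_le_sum hd v
        rw [hvp, hv] at h2
        have h3 := mul_le_mul_of_nonneg_left h2 hlam
        rw [htf]
        linarith
      · -- another label moves from `x i'` to `x i`
        obtain ⟨w, hw⟩ : ∃ w, y' w = x i := by
          have : x i ∈ Set.range y' := by
            rw [hr']
            exact Or.inr ⟨i, hii.symm, rfl⟩
          exact this
        have hwne : y' w ≠ y w := by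
          intro e
          exact hxi ⟨w, by rw [← e, hw]⟩
        have hvw : v ≠ w := by
          rintro rfl
          exact hp' ⟨i, by rw [← hw, hv]⟩
        have hw' : y w ∈ insert p (x '' {i}ᶜ) := by
          rw [← hr]
          exact ⟨w, rfl⟩
        rcases hw' with hwp | ⟨j, hj, hwj⟩
        · exact absurd (hy (hvp.trans hwp.symm)) hvw
        · have hji := hsrc w j hwj.symm hwne
          obtain ⟨g, hg⟩ := exists_isHit hz' (some i)
          have h1 := hf'.triangle hz' hg none
          have h2 := hstep g hg
          have h3 := hf'.lip hz' (some i) (some i')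
          rw [hf'.1, sub_zero, card_option, ext_some, ext_some, dist_comm] at h3
          have h4 := two_le_sum hd hvw
          rw [hvp, hv, hw, ← hwj, hji] at h4
          have h5 := mul_le_mul_of_nonneg_left h4 hlam
          rw [htf]
          linarith
    · -- the label `v` moves from `x i'` to `p'`
      have hne : y' v ≠ y v := by
        intro e
        exact hp' ⟨j, by rw [hvj, ← e, hv]⟩
      have hji := hsrc v j hvj.symm hne
      apply hfar
      have h1 := one_le_sum hd v
      rwa [hv, ← hvj, hji] at h1

/-- the effect of a move of the adversary -/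
theorem Val.move [MetricSpace M] {x y y' : Fin k → M} {t : ℝ}
    (hx : Function.Injective x) (hy : Function.Injective y)
    (h : Val x y t) (h' : OneOff x y') :
    ∃ t', Val x y' t' ∧ t' ≤ t + ((k : ℝ) + 1) / 2 * ∑ v, dist (y v) (y' v) := by
  classical
  obtain ⟨z, hz1, hz2, hz3, hz4⟩ := exists_reduced y _ y' h'.1 le_rfl
  have hz5 : OneOff x z := by
    refine ⟨hz1, ?_⟩
    obtain ⟨i, hi⟩ := h'.2
    refine ⟨i, fun j hj => ?_⟩
    have h1 : x j ∈ Set.range z := by
      rw [hz2]
      exact hi j hj
    exact h1
  obtain ⟨t', h1, h2⟩ := h.move_reduced hx hy hz5 hz3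
  refine ⟨t', ?_, h2.trans ?_⟩
  · rw [Val, hz2] at h1
    exact h1
  · have hlam : 0 ≤ ((k : ℝ) + 1) / 2 := by positivity
    have := mul_le_mul_of_nonneg_left hz4 hlam
    linarith

/-- relabelling of the sites -/
theorem Lap_comp {V : Type*} [Fintype V] {N : Type*} [MetricSpace N] (e : V ≃ V) (z : V → N)
    (f : V → ℝ) (u : V) : Lap (z ∘ e) (f ∘ e) u = Lap z f (e u) := by
  rw [Lap, Lap, ← Equiv.sum_comp e fun v => cond z (e u) v * (f (e u) - f v)]
  rfl

/-- a step of Harmonic -/
theorem Val.drift [MetricSpace M] {x y : Fin k → M} {t : ℝ} (hx : Function.Injective x)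
    (h : Val x y t) {r : M} (hr : r ∈ Set.range y) (hrx : r ∉ Set.range x) :
    ∃ s : Fin k → ℝ, (∀ i, Val (Function.update x i r) y (s i)) ∧
      ∑ i, (dist (x i) r)⁻¹ * (s i - t) = -1 := by
  classical
  rcases h with ⟨hxy, -⟩ | ⟨p, i₀, f, hp, hxy, hf, htf⟩
  · rw [hxy] at hr
    exact absurd hr hrx
  · have hrp : p = r := by
      rw [hxy] at hr
      rcases hr with h1 | ⟨j, -, h1⟩
      · exact h1.symm
      · exact absurd ⟨j, h1⟩ hrx
    subst hrp
    refine ⟨fun i => f (some i), fun i => ?_, ?_⟩
    · rcases eq_or_ne i i₀ with hi | hi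
      · left
        rw [hi]
        refine ⟨?_, hf.1⟩
        rw [hxy]
        ext a
        constructor
        · rintro (ha | ⟨j, hj, rfl⟩)
          · exact ⟨i₀, by rw [Function.update_self, ha]⟩
          · exact ⟨j, Function.update_of_ne hj _ _⟩
        · rintro ⟨j, rfl⟩
          rcases eq_or_ne j i₀ with hj | hj
          · rw [hj, Function.update_self]
            exact Or.inl rfl
          · rw [Function.update_of_ne hj]
            exact Or.inr ⟨j, hj, rfl⟩
      · right
        refine ⟨x i, i₀, f ∘ Equiv.swap none (some i), ?_, ?_, ?_, ?_⟩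
        · rintro ⟨j, hj⟩
          rcases eq_or_ne j i with hji | hji
          · rw [hji, Function.update_self] at hj
            exact hp ⟨i, hj.symm⟩
          · rw [Function.update_of_ne hji] at hj
            exact hji (hx hj)
        · rw [hxy]
          ext a
          constructor
          · rintro (ha | ⟨j, hj, rfl⟩)
            · exact Or.inr ⟨i, hi, by rw [Function.update_self, ha]⟩
            · rcases eq_or_ne j i with hji | hji
              · rw [hji]
                exact Or.inl rfl
              · exact Or.inr ⟨j, hj, Function.update_of_ne hji _ _⟩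
          · rintro (ha | ⟨j, hj, rfl⟩)
            · rw [ha]
              exact Or.inr ⟨i, hi, rfl⟩
            · rcases eq_or_ne j i with hji | hji
              · rw [hji, Function.update_self]
                exact Or.inl rfl
              · rw [Function.update_of_ne hji]
                exact Or.inr ⟨j, hj, rfl⟩
        · have hsw : ∀ j, j ≠ i → Equiv.swap (none : Option (Fin k)) (some i) (some j) = some j :=
            fun j hj => Equiv.swap_apply_of_ne_of_ne (by simp) (by simpa using hj)
          have hext : ext (Function.update x i p) (x i)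
              = ext x p ∘ Equiv.swap (none : Option (Fin k)) (some i) := by
            funext u
            cases u with
            | none => simp
            | some j =>
              rcases eq_or_ne j i with hji | hji
              · rw [hji]
                simp
              · rw [Function.comp_apply, hsw j hji, ext_some, ext_some,
                  Function.update_of_ne hji]
          rw [hext]
          constructor
          · rw [Function.comp_apply, hsw i₀ hi.symm]
            exact hf.1
          · intro u hu
            rw [Lap_comp]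
            apply hf.2
            intro e
            apply hu
            have h1 := congrArg (Equiv.swap (none : Option (Fin k)) (some i)) e
            rwa [Equiv.swap_apply_self, hsw i₀ hi.symm] at h1
        · simp
    · have h1 := hf.2 none (by simp)
      rw [Lap, Fintype.sum_option, sub_self, mul_zero, zero_add] at h1
      rw [htf, ← h1, ← Finset.sum_neg_distrib]
      refine Finset.sum_congr rfl fun i _ => ?_
      rw [cond, ext_none, ext_some, dist_comm p]
      ring

end Pool.Agent.Lib.MP_af7143_lc.One
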