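import Pool.Agent.Lib.MP_af7143_lc.HstModel
import Pool.Agent.Lib.MP_af7143_lc.OneMove

/-!
# Harmonic against adversaries which differ from it in at most one server

On every metric space the Harmonic `k`-server algorithm is `k (k + 1) / 2`-competitive (with
additive constant `0`) against every adaptive online adversary which requests a point without a
server of Harmonic only when its own configuration differs from the configuration of Harmonic in
one server.
-/

set_option autoImplicit false

open Finset Pool.Agent.Lib.MP_af7143_lc.Hst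

universe u

namespace Pool.Agent.Lib.MP_af7143_lc.One

variable {k : ℕ} {M : Type u} [MetricSpace M]

/-- The histories that can occur when the adversary `A` plays and everybody starts in `x₀`: a
covered request moves no server of Harmonic, and an uncovered request moves one of them (any one
may be chosen) to the request. -/
inductive Reach (A : Adversary k M) (x₀ : Config k M) : History k M → Prop
  | start : Reach A x₀ [(x₀, x₀)]
  | covered {x y : Config k M} {p : History k M} (h : Reach A x₀ ((x, y) :: p))
      (hc : ∃ i, x i = A.req ((x, y) :: p)) :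
      Reach A x₀ ((x, A.next ((x, y) :: p)) :: (x, y) :: p)
  | moved {x y : Config k M} {p : History k M} (h : Reach A x₀ ((x, y) :: p))
      (hc : ¬ ∃ i, x i = A.req ((x, y) :: p)) (i : Fin k) :
      Reach A x₀ ((Function.update x i (A.req ((x, y) :: p)), A.next ((x, y) :: p))
        :: (x, y) :: p)

/-- one random step of Harmonic, in expectation -/
theorem step (hk : 0 < k) (x : Config k M) (r : M) (hx : ∀ j, x j ≠ r) (s : Fin k → ℝ) (t : ℝ)
    (h : ∑ i, (dist (x i) r)⁻¹ * (s i - t) = -1) :
    ∑ i, prob x r i * (dist (x i) r + k * s i) = k * t := by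
  have hpos : ∀ i, 0 < (dist (x i) r)⁻¹ := fun i => inv_pos.2 (dist_pos.2 (hx i))
  set Cs := ∑ j, (dist (x j) r)⁻¹ with hCs
  have hCpos : 0 < Cs := Finset.sum_pos (fun i _ => hpos i) ⟨⟨0, hk⟩, Finset.mem_univ _⟩
  have e1 : ∀ i, prob x r i * (dist (x i) r + k * s i)
      = 1 / Cs + k / Cs * ((dist (x i) r)⁻¹ * (s i - t)) + k * t / Cs * (dist (x i) r)⁻¹ := by
    intro i
    have h1 : dist (x i) r ≠ 0 := (dist_pos.2 (hx i)).ne'
    simp only [prob, ← hCs]
    field_simp
    ring
  rw [Finset.sum_congr rfl fun i _ => e1 i, Finset.sum_add_distrib, Finset.sum_add_distrib,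
    ← Finset.mul_sum, ← Finset.mul_sum, h, ← hCs, Finset.sum_const, Finset.card_univ,
    Fintype.card_fin, nsmul_eq_mul, div_mul_cancel₀ _ hCpos.ne']
  ring

omit [MetricSpace M] in
/-- `k` servers at `k` points are at different points -/
theorem injective_of_cover {x y : Config k M} (hx : Function.Injective x) {r : M}
    (hr : ∃ v, y v = r) (hxr : ∀ j, x j ≠ r) {i : Fin k}
    (hi : ∀ j, j ≠ i → ∃ v, y v = x j) : Function.Injective y := by
  classical
  have h1 : insert r ((Finset.univ.erase i).image x) ⊆ Finset.univ.image y := by
    intro a ha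
    rw [Finset.mem_insert, Finset.mem_image] at ha
    rw [Finset.mem_image]
    rcases ha with ha | ⟨j, hj, ha⟩
    · obtain ⟨v, hv⟩ := hr
      exact ⟨v, Finset.mem_univ _, hv.trans ha.symm⟩
    · obtain ⟨v, hv⟩ := hi j (Finset.ne_of_mem_erase hj)
      exact ⟨v, Finset.mem_univ _, hv.trans ha⟩
  have hnot : r ∉ (Finset.univ.erase i).image x := by
    rw [Finset.mem_image]
    rintro ⟨j, -, hj⟩
    exact hxr j hj
  have h2 := Finset.card_le_card h1
  rw [Finset.card_insert_of_notMem hnot, Finset.card_image_of_injective _ hx,
    Finset.card_erase_of_mem (Finset.mem_univ _), Finset.card_univ, Fintype.card_fin] at h2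
  have hk : 0 < k := i.pos
  have h3 : (Finset.univ.image y).card = (Finset.univ : Finset (Fin k)).card := by
    refine le_antisymm Finset.card_image_le ?_
    rw [Finset.card_univ, Fintype.card_fin]
    omega
  have h4 := Finset.card_image_iff.1 h3
  intro a b hab
  exact h4 (Finset.mem_coe.2 (Finset.mem_univ a)) (Finset.mem_coe.2 (Finset.mem_univ b)) hab

/-- the induction -/
theorem main_ineq (A : Adversary k M) (x₀ : Config k M)
    (hA : ∀ x y p, Reach A x₀ ((x, y) :: p) → (∀ i, x i ≠ A.req ((x, y) :: p)) →
      ∃ i, ∀ j, j ≠ i → ∃ v, A.next ((x, y) :: p) v = x j) (n : ℕ) :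
    ∀ (x y : Config k M) (p : History k M) (z : Config k M) (t : ℝ), Reach A x₀ ((x, y) :: p) →
      Function.Injective x → Function.Injective z → Val x z t →
      costH A n ((x, y) :: p)
        ≤ (k : ℝ) * (k + 1) / 2 * costA A n ((x, y) :: p)
          + k * (t + ((k : ℝ) + 1) / 2 * ∑ v, dist (z v) (y v)) := by
  classical
  have hlam : 0 ≤ ((k : ℝ) + 1) / 2 := by positivity
  have hk0 : (0 : ℝ) ≤ k := Nat.cast_nonneg k
  induction n with
  | zero =>
    intro x y p z t _ hx _ ht
    simp only [costH, costA, mul_zero, zero_add]
    exact mul_nonneg hk0 (add_nonneg (ht.nonneg hx)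
      (mul_nonneg hlam (Finset.sum_nonneg fun v _ => dist_nonneg)))
  | succ n ih =>
    intro x y p z t hreach hx hz ht
    set h := (x, y) :: p with hh
    set r := A.req h with hr
    set y' := A.next h with hy'
    have htri : ∑ v, dist (z v) (y' v) ≤ ∑ v, dist (z v) (y v) + ∑ v, dist (y v) (y' v) := by
      rw [← Finset.sum_add_distrib]
      exact Finset.sum_le_sum fun v _ => dist_triangle _ _ _
    have htri2 := mul_le_mul_of_nonneg_left (mul_le_mul_of_nonneg_left htri hlam) hk0
    by_cases hcov : ∃ i, x i = r
    · have e1 : costH A (n + 1) h = costH A n ((x, y') :: h) := by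
        rw [hh, costH, if_pos hcov]
      have e2 : costA A (n + 1) h = ∑ v, dist (y v) (y' v) + costA A n ((x, y') :: h) := by
        rw [hh, costA, if_pos hcov]
      rw [e1, e2]
      have h1 := ih x y' h z t (Reach.covered hreach hcov) hx hz ht
      linarith
    · have hxr : ∀ j, x j ≠ r := fun j hj => hcov ⟨j, hj⟩
      obtain ⟨i₀, hi₀⟩ := hA x y p hreach hxr
      have hone : OneOff x y' := ⟨injective_of_cover hx (A.serves h) hxr hi₀, i₀, hi₀⟩
      obtain ⟨t', ht', htt⟩ := ht.move hx hz hone
      have hl := mul_le_mul_of_nonneg_left htt hk0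
      have e1 : costH A (n + 1) h = ∑ i, prob x r i *
          (dist (x i) r + costH A n ((Function.update x i r, y') :: h)) := by
        rw [hh, costH, if_neg hcov]
      have e2 : costA A (n + 1) h = ∑ v, dist (y v) (y' v)
          + ∑ i, prob x r i * costA A n ((Function.update x i r, y') :: h) := by
        rw [hh, costA, if_neg hcov]
      have hprob : ∀ i, 0 ≤ prob x r i := fun i =>
        div_nonneg (inv_nonneg.2 dist_nonneg)
          (Finset.sum_nonneg fun j _ => inv_nonneg.2 dist_nonneg)
      obtain ⟨s, hs, hdrift⟩ := ht'.drift hx (r := r) (A.serves h) hcov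
      have hk : 0 < k := (A.serves h).choose.pos
      have hstep := step hk x r hxr s t' hdrift
      have hinj : ∀ i, Function.Injective (Function.update x i r) := by
        intro i a b hab
        rcases eq_or_ne a i with ha | ha
        · rcases eq_or_ne b i with hb | hb
          · rw [ha, hb]
          · rw [ha, Function.update_self, Function.update_of_ne hb] at hab
            exact absurd hab.symm (hxr b)
        · rcases eq_or_ne b i with hb | hb
          · rw [hb, Function.update_self, Function.update_of_ne ha] at hab
            exact absurd hab (hxr a)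
          · rw [Function.update_of_ne ha, Function.update_of_ne hb] at hab
            exact hx hab
      have h1 : ∑ i, prob x r i *
          (dist (x i) r + costH A n ((Function.update x i r, y') :: h))
          ≤ ∑ i, (prob x r i * (dist (x i) r + k * s i)
            + (k : ℝ) * (k + 1) / 2
              * (prob x r i * costA A n ((Function.update x i r, y') :: h))) := by
        refine Finset.sum_le_sum fun i _ => ?_
        have h2 := ih (Function.update x i r) y' h y' (s i) (Reach.moved hreach hcov i) (hinj i)
          hone.1 (hs i)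
        have h3 : ∑ v, dist (y' v) (y' v) = 0 := by simp
        rw [h3, mul_zero, add_zero] at h2
        have h4 := mul_le_mul_of_nonneg_left h2 (hprob i)
        nlinarith
      rw [Finset.sum_add_distrib, ← Finset.mul_sum, hstep] at h1
      rw [e1, e2]
      linarith

/-- **Harmonic is `k (k + 1) / 2`-competitive against adversaries which make a request without a
server of Harmonic only when they differ from Harmonic in one server.** -/
theorem one_result (k : ℕ) (M : Type u) [MetricSpace M] (x₀ : Fin k → M)
    (hx₀ : Function.Injective x₀) (A : Adversary k M)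
    (hA : ∀ x y p, Reach A x₀ ((x, y) :: p) → (∀ i, x i ≠ A.req ((x, y) :: p)) →
      ∃ i, ∀ j, j ≠ i → ∃ v, A.next ((x, y) :: p) v = x j)
    (n : ℕ) :
    costH A n [(x₀, x₀)] ≤ (k : ℝ) * (k + 1) / 2 * costA A n [(x₀, x₀)] := by
  have h1 := main_ineq A x₀ hA n x₀ x₀ [] x₀ 0 Reach.start hx₀ hx₀ (Or.inl ⟨rfl, rfl⟩)
  have h2 : ∑ v, dist (x₀ v) (x₀ v) = 0 := by simp
  rwa [h2, mul_zero, add_zero, mul_zero, add_zero] at h1

end Pool.Agent.Lib.MP_af7143_lc.One
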