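import Pool.Agent.Lib.MP_af7143_lc.BdMove
import Pool.Agent.Lib.MP_af7143_lc.OneMain

/-!
# Harmonic against adversaries which differ from it in at most `m` servers
-/

set_option autoImplicit false

open Finset Pool.Agent.Lib.MP_af7143_lc.Hst

universe u

namespace Pool.Agent.Lib.MP_af7143_lc.Bd

open Pool.Agent.Lib.MP_af7143_lc.One

variable {k : ℕ} {M : Type u} [MetricSpace M]

/-- the plane of height `0` -/
def up (u : M) : M × ℝ := (u, 0)

theorem dist_up (u v : M) : dist (up u) (up v) = dist u v := by
  simp [up, Prod.dist_eq]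

omit [MetricSpace M] in
theorem up_injective : Function.Injective (up : M → M × ℝ) := fun _ _ h => (Prod.mk.inj h).1

/-- Sites of a virtual adversary: close to the servers of the adversary, at different points, and
at most `m` of them are not covered. -/
theorem exists_sites {x y : Config k M} (hx : Function.Injective x) {m : ℕ}
    {s : Finset (Fin k)} (hs : s.card ≤ m) (hcov : ∀ j, j ∉ s → ∃ v, y v = x j) {ε : ℝ}
    (hε : 0 < ε) :
    ∃ z : Fin k → M × ℝ, Function.Injective z ∧ (∀ r, (∃ v, y v = r) → ∃ a, z a = up r) ∧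
      (∀ v, dist (up (y v)) (z v) ≤ ε) ∧ (unc (fun j => up (x j)) z).card ≤ m := by
  classical
  set h : Fin k → ℝ := fun v => if ∀ w, w < v → y w ≠ y v then 0
    else ε * (((v : ℕ) + 1) / ((k : ℝ) + 1)) with hh
  have hk1 : (0 : ℝ) < (k : ℝ) + 1 := by positivity
  have hpos : ∀ v : Fin k, 0 < ε * ((((v : ℕ) : ℝ) + 1) / ((k : ℝ) + 1)) := fun v => by positivity
  have hz : Function.Injective fun v => ((y v, h v) : M × ℝ) := by
    intro u v huv
    have h1 : y u = y v := (Prod.mk.inj huv).1
    have h2 : h u = h v := (Prod.mk.inj huv).2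
    by_cases hu : ∀ w, w < u → y w ≠ y u
    · by_cases hv : ∀ w, w < v → y w ≠ y v
      · rcases lt_trichotomy u v with h3 | h3 | h3
        · exact absurd h1 (hv u h3)
        · exact h3
        · exact absurd h1.symm (hu v h3)
      · exfalso
        simp only [hh] at h2
        rw [if_pos hu, if_neg hv] at h2
        have := hpos v
        linarith
    · by_cases hv : ∀ w, w < v → y w ≠ y v
      · exfalso
        simp only [hh] at h2
        rw [if_neg hu, if_pos hv] at h2
        have := hpos u
        linarith
      · simp only [hh] at h2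
        rw [if_neg hu, if_neg hv] at h2
        have h3 := mul_left_cancel₀ hε.ne' h2
        rw [div_left_inj' hk1.ne'] at h3
        have h4 : ((u : ℕ) : ℝ) = ((v : ℕ) : ℝ) := by linarith
        exact Fin.ext (by exact_mod_cast h4)
  have hrep : ∀ r, (∃ v, y v = r) → ∃ a, ((y a, h a) : M × ℝ) = up r := by
    rintro r ⟨v, hv⟩
    have hne : (Finset.univ.filter fun w => y w = r).Nonempty :=
      ⟨v, by rw [Finset.mem_filter]; exact ⟨Finset.mem_univ _, hv⟩⟩
    set a := (Finset.univ.filter fun w => y w = r).min' hne with ha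
    have ha1 : y a = r := (Finset.mem_filter.1 (Finset.min'_mem _ hne)).2
    refine ⟨a, ?_⟩
    have h1 : ∀ w, w < a → y w ≠ y a := by
      intro w hw hyw
      have h2 : w ∈ Finset.univ.filter fun w => y w = r :=
        Finset.mem_filter.2 ⟨Finset.mem_univ _, hyw.trans ha1⟩
      have h3 := Finset.min'_le _ _ h2
      exact absurd hw (not_lt.2 h3)
    have h2 : h a = 0 := by
      simp only [hh]
      exact if_pos h1
    rw [h2, ha1]
    rfl
  refine ⟨fun v => (y v, h v), hz, hrep, fun v => ?_, ?_⟩
  · rw [up, Prod.dist_eq]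
    simp only [dist_self]
    rw [Real.dist_eq, zero_sub, abs_neg]
    refine max_le hε.le ?_
    by_cases hv : ∀ w, w < v → y w ≠ y v
    · simp only [hh]
      rw [if_pos hv, abs_zero]
      exact hε.le
    · simp only [hh]
      rw [if_neg hv, abs_of_pos (hpos v)]
      have h1 : (((v : ℕ) : ℝ) + 1) / ((k : ℝ) + 1) ≤ 1 := by
        rw [div_le_one hk1]
        have : ((v : ℕ) : ℝ) ≤ (k : ℝ) := by exact_mod_cast v.isLt.le
        linarith
      calc ε * ((((v : ℕ) : ℝ) + 1) / ((k : ℝ) + 1)) ≤ ε * 1 :=
            mul_le_mul_of_nonneg_left h1 hε.le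
        _ = ε := mul_one ε
  · set z : Fin k → M × ℝ := fun v => (y v, h v) with hzdef
    have h1 : ∀ j, j ∉ s → ∃ a, z a = up (x j) := fun j hj => hrep (x j) (hcov j hj)
    set g : Fin k → Fin k := fun j => if hj : ∃ a, z a = up (x j) then hj.choose else j with hg
    have h2 : ∀ j, j ∉ s → z (g j) = up (x j) := by
      intro j hj
      have h3 := h1 j hj
      have h4 : g j = h3.choose := by
        rw [hg]
        exact dif_pos h3
      rw [h4]
      exact h3.choose_spec
    have h3 : (sᶜ).card ≤ ((unc (fun j => up (x j)) z)ᶜ).card := by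
      refine Finset.card_le_card_of_injOn g ?_ ?_
      · intro j hj
        have hj' : j ∉ s := by simpa using hj
        have h4 : g j ∉ unc (fun j => up (x j)) z := by
          rw [mem_unc]
          push Not
          exact ⟨j, (h2 j hj').symm⟩
        simpa using h4
      · intro i hi j hj hij
        have hi' : i ∉ s := by simpa using hi
        have hj' : j ∉ s := by simpa using hj
        have h4 := (h2 i hi').symm.trans ((congrArg z hij).trans (h2 j hj'))
        exact hx (up_injective h4)
    rw [Finset.card_compl, Finset.card_compl, Fintype.card_fin] at h3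
    have h4 : s.card ≤ k := by
      have := Finset.card_le_univ s
      rwa [Fintype.card_fin] at this
    have h5 : (unc (fun j => up (x j)) z).card ≤ k := by
      have := Finset.card_le_univ (unc (fun j => up (x j)) z)
      rwa [Fintype.card_fin] at this
    omega

/-- scaling factor of the potential -/
noncomputable def aB (k : ℕ) : ℝ := (k : ℝ) ^ 3 / (2 * k + 1)

theorem aB_nonneg (k : ℕ) : 0 ≤ aB k := by rw [aB]; positivity

/-- the ratio -/
noncomputable def rB (k m : ℕ) : ℝ := aB k * (3 * (m : ℝ) ^ 2 + 7 * m + 1)

theorem rB_nonneg (k m : ℕ) : 0 ≤ rB k m := by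
  rw [rB]
  exact mul_nonneg (aB_nonneg k) (by positivity)

/-- one random step of Harmonic, in expectation -/
theorem stepB (hk : 0 < k) (x : Config k M) (r : M) (hx : ∀ j, x j ≠ r) (s : Fin k → ℝ) (t : ℝ)
    (h : ∑ i, (dist (x i) r)⁻¹ * (s i - t) ≤ -(2 * (k : ℝ) + 1) / (k : ℝ) ^ 2) :
    ∑ i, prob x r i * (dist (x i) r + aB k * s i) ≤ aB k * t := by
  have hk0 : (0 : ℝ) < k := by exact_mod_cast hk
  have hpos : ∀ i, 0 < (dist (x i) r)⁻¹ := fun i => inv_pos.2 (dist_pos.2 (hx i))
  set Cs := ∑ j, (dist (x j) r)⁻¹ with hCs
  have hCpos : 0 < Cs := Finset.sum_pos (fun i _ => hpos i) ⟨⟨0, hk⟩, Finset.mem_univ _⟩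
  have e1 : ∀ i, prob x r i * (dist (x i) r + aB k * s i)
      = 1 / Cs + aB k / Cs * ((dist (x i) r)⁻¹ * (s i - t))
        + aB k * t / Cs * (dist (x i) r)⁻¹ := by
    intro i
    have h1 : dist (x i) r ≠ 0 := (dist_pos.2 (hx i)).ne'
    simp only [prob, ← hCs]
    field_simp
    ring
  rw [Finset.sum_congr rfl fun i _ => e1 i, Finset.sum_add_distrib, Finset.sum_add_distrib,
    ← Finset.mul_sum, ← Finset.mul_sum, ← hCs, Finset.sum_const, Finset.card_univ,
    Fintype.card_fin, nsmul_eq_mul, div_mul_cancel₀ _ hCpos.ne']
  have h2 : aB k / Cs * ∑ i, (dist (x i) r)⁻¹ * (s i - t)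
      ≤ aB k / Cs * (-(2 * (k : ℝ) + 1) / (k : ℝ) ^ 2) :=
    mul_le_mul_of_nonneg_left h (div_nonneg (aB_nonneg k) hCpos.le)
  have h3 : aB k / Cs * (-(2 * (k : ℝ) + 1) / (k : ℝ) ^ 2) = -(k / Cs) := by
    rw [aB]
    field_simp
  rw [h3] at h2
  have h4 : (k : ℝ) * (1 / Cs) = k / Cs := by ring
  rw [h4]
  linarith

/-- the induction -/
theorem main_ineqB (A : Adversary k M) (x₀ : Config k M) {m : ℕ}
    (hA : ∀ x y p, Reach A x₀ ((x, y) :: p) → (∀ i, x i ≠ A.req ((x, y) :: p)) →
      ∃ s : Finset (Fin k), s.card ≤ m ∧ ∀ j, j ∉ s → ∃ v, A.next ((x, y) :: p) v = x j)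
    {η : ℝ} (hη : 0 < η) (n : ℕ) :
    ∀ (x y : Config k M) (p : History k M) (z : Fin k → M × ℝ) (π : Fin k → Fin k),
      Reach A x₀ ((x, y) :: p) → Function.Injective x → Function.Injective z →
      Forced z (fun j => up (x j)) π → (unc (fun j => up (x j)) z).card ≤ m →
      costH A n ((x, y) :: p) ≤ rB k m * costA A n ((x, y) :: p)
        + aB k * PsK (2 * m + 1) z (fun j => up (x j)) π
        + rB k m * ∑ v, dist (z v) (up (y v)) + n * η := by
  classical
  have hR := rB_nonneg k m
  have ha := aB_nonneg k
  have hJ : Fintype.card (Fin k) = Fintype.card (Fin k) := rfl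
  have hK : (0 : ℝ) ≤ 2 * (m : ℝ) + 1 := by positivity
  induction n with
  | zero =>
    intro x y p z π _ _ hz _ _
    simp only [costH, costA, mul_zero, zero_add, Nat.cast_zero, zero_mul, add_zero]
    exact add_nonneg (mul_nonneg ha (PsK_nonneg hK hz hJ _ π))
      (mul_nonneg hR (Finset.sum_nonneg fun v _ => dist_nonneg))
  | succ n ih =>
    intro x y p z π hreach hx hz hF hU
    set h := (x, y) :: p with hh
    set r := A.req h with hr
    set y' := A.next h with hy'
    have htri : ∑ v, dist (z v) (up (y' v))
        ≤ ∑ v, dist (z v) (up (y v)) + ∑ v, dist (y v) (y' v) := by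
      rw [← Finset.sum_add_distrib]
      refine Finset.sum_le_sum fun v _ => ?_
      have := dist_triangle (z v) (up (y v)) (up (y' v))
      rwa [dist_up] at this
    have htri2 := mul_le_mul_of_nonneg_left htri hR
    push_cast
    by_cases hcov : ∃ i, x i = r
    · have e1 : costH A (n + 1) h = costH A n ((x, y') :: h) := by
        rw [hh, costH, if_pos hcov]
      have e2 : costA A (n + 1) h = ∑ v, dist (y v) (y' v) + costA A n ((x, y') :: h) := by
        rw [hh, costA, if_pos hcov]
      rw [e1, e2]
      have h1 := ih x y' h z π (Reach.covered hreach hcov) hx hz hF hU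
      linarith
    · have hxr : ∀ j, x j ≠ r := fun j hj => hcov ⟨j, hj⟩
      obtain ⟨s, hs, hcs⟩ := hA x y p hreach hxr
      have hk : 0 < k := (A.serves h).choose.pos
      have hk0 : (0 : ℝ) < k := by exact_mod_cast hk
      set ε : ℝ := η / (2 * rB k m * k + 1) with hε
      have hden : 0 < 2 * rB k m * k + 1 := by positivity
      have hεpos : 0 < ε := div_pos hη hden
      obtain ⟨z', hz', hsite, hclose, hU'⟩ := exists_sites hx hs hcs hεpos
      obtain ⟨a, ha'⟩ := hsite r (A.serves h)
      obtain ⟨π', hF', hmove⟩ := moveK hz hz' hJ hF hU hU'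
      have hclose2 : 2 * rB k m * ∑ v, dist (z' v) (up (y' v)) ≤ η := by
        have h1 : ∑ v, dist (z' v) (up (y' v)) ≤ ∑ _v : Fin k, ε :=
          Finset.sum_le_sum fun v _ => by rw [dist_comm]; exact hclose v
        rw [Finset.sum_const, Finset.card_univ, Fintype.card_fin, nsmul_eq_mul] at h1
        have h2 := mul_le_mul_of_nonneg_left h1 (show 0 ≤ 2 * rB k m by positivity)
        have h3 : 2 * rB k m * (k * ε) ≤ η := by
          rw [hε]
          have h4 : 2 * rB k m * (k * (η / (2 * rB k m * k + 1)))
              = η * (2 * rB k m * k / (2 * rB k m * k + 1)) := by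
            field_simp
          rw [h4]
          have h5 : 2 * rB k m * k / (2 * rB k m * k + 1) ≤ 1 := by
            rw [div_le_one hden]
            linarith
          have := mul_le_mul_of_nonneg_left h5 hη.le
          linarith
        linarith
      have hzz : ∑ v, dist (z v) (z' v)
          ≤ ∑ v, dist (z v) (up (y' v)) + ∑ v, dist (z' v) (up (y' v)) := by
        rw [← Finset.sum_add_distrib]
        refine Finset.sum_le_sum fun v _ => ?_
        have := dist_triangle (z v) (up (y' v)) (z' v)
        rwa [dist_comm (up (y' v)) (z' v)] at this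
      have hmove2 : aB k * PsK (2 * m + 1) z' (fun j => up (x j)) π'
          ≤ aB k * PsK (2 * m + 1) z (fun j => up (x j)) π
            + rB k m * (∑ v, dist (z v) (up (y' v)) + ∑ v, dist (z' v) (up (y' v))) := by
        have h1 := mul_le_mul_of_nonneg_left hmove ha
        have h2 := mul_le_mul_of_nonneg_left hzz hR
        rw [mul_add, ← mul_assoc] at h1
        rw [rB] at h2 ⊢
        linarith
      have e1 : costH A (n + 1) h = ∑ i, prob x r i *
          (dist (x i) r + costH A n ((Function.update x i r, y') :: h)) := by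
        rw [hh, costH, if_neg hcov]
      have e2 : costA A (n + 1) h = ∑ v, dist (y v) (y' v)
          + ∑ i, prob x r i * costA A n ((Function.update x i r, y') :: h) := by
        rw [hh, costA, if_neg hcov]
      have hprob : ∀ i, 0 ≤ prob x r i := fun i =>
        div_nonneg (inv_nonneg.2 dist_nonneg)
          (Finset.sum_nonneg fun j _ => inv_nonneg.2 dist_nonneg)
      have hprob1 : ∑ i, prob x r i = 1 := by
        simp only [prob]
        rw [← Finset.sum_div]
        refine div_self (ne_of_gt (Finset.sum_pos
          (fun i _ => inv_pos.2 (dist_pos.2 (hxr i))) ⟨⟨0, hk⟩, Finset.mem_univ _⟩))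
      have hinj : ∀ i, Function.Injective (Function.update x i r) := by
        intro i a b hab
        rcases eq_or_ne a i with ha | ha
        · rcases eq_or_ne b i with hb | hb
          · rw [ha, hb]
          · rw [ha, Function.update_self, Function.update_of_ne hb] at hab
            exact absurd hab.symm (hxr b)
        · rcases eq_or_ne b i with hb | hb
          · rw [hb, Function.update_self, Function.update_of_ne ha] at hab
            exact absurd hab (hxr a)
          · rw [Function.update_of_ne ha, Function.update_of_ne hb] at hab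
            exact hx hab
      have hxa : ∀ j, up (x j) ≠ z' a := by
        intro j hj
        rw [ha'] at hj
        exact hxr j (up_injective hj)
      have hupd : ∀ i, (fun j => up (Function.update x i r j))
          = Function.update (fun j => up (x j)) i (z' a) := by
        intro i
        funext j
        rcases eq_or_ne j i with hji | hji
        · rw [hji, Function.update_self, Function.update_self, ha']
        · rw [Function.update_of_ne hji, Function.update_of_ne hji]
      -- the drift
      have hdr := driftK hz' hJ hF' hU' hxa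
      have hdist : ∀ i, dist (up (x i)) (z' a) = dist (x i) r := by
        intro i
        rw [ha', dist_up]
      simp only [hdist, Fintype.card_fin] at hdr
      have hstep := stepB hk x r hxr _ _ hdr
      -- the induction hypothesis
      have h1 : ∑ i, prob x r i *
          (dist (x i) r + costH A n ((Function.update x i r, y') :: h))
          ≤ ∑ i, (prob x r i * (dist (x i) r + aB k * PsK (2 * m + 1) z'
                (Function.update (fun j => up (x j)) i (z' a)) (Function.update π' i a))
            + rB k m * (prob x r i * costA A n ((Function.update x i r, y') :: h))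
            + prob x r i * (rB k m * ∑ v, dist (z' v) (up (y' v)) + n * η)) := by
        refine Finset.sum_le_sum fun i _ => ?_
        have hFi : Forced z' (fun j => up (Function.update x i r j)) (Function.update π' i a) := by
          rw [hupd]
          exact hF'.update hz' a i
        have hUi : (unc (fun j => up (Function.update x i r j)) z').card ≤ m := by
          rw [hupd]
          exact (unc_update_le hz' (fun j => up (x j)) hxa i).trans hU'
        have h2 := ih (Function.update x i r) y' h z' (Function.update π' i a)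
          (Reach.moved hreach hcov i) (hinj i) hz' hFi hUi
        rw [hupd] at h2
        have h3 := mul_le_mul_of_nonneg_left h2 (hprob i)
        nlinarith
      rw [Finset.sum_add_distrib, Finset.sum_add_distrib, ← Finset.mul_sum, ← Finset.sum_mul,
        hprob1, one_mul] at h1
      rw [e1, e2]
      linarith

theorem bd_result {m : ℕ} (x₀ : Config k M) (hx₀ : Function.Injective x₀) (A : Adversary k M)
    (hA : ∀ x y p, Reach A x₀ ((x, y) :: p) → (∀ i, x i ≠ A.req ((x, y) :: p)) →
      ∃ s : Finset (Fin k), s.card ≤ m ∧ ∀ j, j ∉ s → ∃ v, A.next ((x, y) :: p) v = x j)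
    (n : ℕ) :
    costH A n [(x₀, x₀)]
      ≤ (k : ℝ) ^ 3 * (3 * (m : ℝ) ^ 2 + 7 * m + 1) / (2 * k + 1) * costA A n [(x₀, x₀)] := by
  have hR : (k : ℝ) ^ 3 * (3 * (m : ℝ) ^ 2 + 7 * m + 1) / (2 * k + 1) = rB k m := by
    rw [rB, aB]
    ring
  rw [hR]
  refine le_of_forall_pos_le_add fun ε hε => ?_
  have hn : (0 : ℝ) < (n : ℝ) + 1 := by positivity
  have hz : Function.Injective fun j => up (x₀ j) := up_injective.comp hx₀
  have hF : Forced (fun j => up (x₀ j)) (fun j => up (x₀ j)) id := fun j v hjv => hz hjv
  have hU : (unc (fun j => up (x₀ j)) fun j => up (x₀ j)).card ≤ m := by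
    have h1 : unc (fun j => up (x₀ j)) (fun j => up (x₀ j)) = ∅ := by
      rw [Finset.eq_empty_iff_forall_notMem]
      intro v hv
      rw [mem_unc] at hv
      exact hv v rfl
    rw [h1]
    simp
  have h1 := main_ineqB A x₀ hA (div_pos hε hn) n x₀ x₀ [] (fun j => up (x₀ j)) id
    Reach.start hx₀ hz hF hU
  have h2 : PsK (2 * m + 1) (fun j => up (x₀ j)) (fun j => up (x₀ j)) (id : Fin k → Fin k)
      = 0 := by
    have h3 : ∀ v, cnt (id : Fin k → Fin k) v = 1 := by
      intro v
      simp [cnt]
    rcases Nat.eq_zero_or_pos k with hk | hk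
    · subst hk
      simp [PsK, FF]
    · have : Nonempty (Fin k) := ⟨⟨0, hk⟩⟩
      rw [PsK, FF_one _ _ h3]
      simp
  have h3 : ∑ v, dist (up (x₀ v)) (up (x₀ v)) = 0 := by simp
  rw [h2, h3, mul_zero, mul_zero, add_zero, add_zero] at h1
  have h4 : (n : ℝ) * (ε / ((n : ℝ) + 1)) ≤ ε := by
    rw [← mul_div_assoc, div_le_iff₀ hn]
    nlinarith
  linarith

end Pool.Agent.Lib.MP_af7143_lc.Bd
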