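import Pool.Agent.Lib.MP_af7143_lc.BdSites

/-! The potential with forced assignments: drift, and the effect of a move of the sites. -/

set_option autoImplicit false

open Finset

namespace Pool.Agent.Lib.MP_af7143_lc

variable {V : Type*} [Fintype V] [DecidableEq V] {J : Type*} [Fintype J] [DecidableEq J]
  {N : Type*} [MetricSpace N]

open Classical in
/-- the sites at which no token stands -/
noncomputable def unc (x : J → N) (z : V → N) : Finset V :=
  Finset.univ.filter fun v => ∀ j, x j ≠ z v

omit [DecidableEq V] [DecidableEq J] [MetricSpace N] in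
theorem mem_unc (x : J → N) (z : V → N) (v : V) : v ∈ unc x z ↔ ∀ j, x j ≠ z v := by
  classical
  simp [unc]

/-- tokens that stand at a site are assigned to it -/
def Forced (z : V → N) (x : J → N) (π : J → V) : Prop := ∀ j v, x j = z v → π j = v

omit [DecidableEq J] [MetricSpace N] in
theorem cnt_ge_one {z : V → N} {x : J → N} {π : J → V} (h : Forced z x π) {v : V}
    (hv : v ∉ unc x z) : 1 ≤ cnt π v := by
  have h1 : ∃ j, x j = z v := by
    by_contra hno
    push Not at hno
    exact hv ((mem_unc x z v).2 hno)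
  obtain ⟨j, hj⟩ := h1
  have h2 := h j v hj
  rw [cnt]
  have h3 := Finset.single_le_sum (f := fun i => if π i = v then (1:ℝ) else 0)
    (fun i _ => by split_ifs <;> norm_num) (Finset.mem_univ j)
  simpa [h2] using h3

omit [DecidableEq J] [MetricSpace N] in
/-- the total surplus is at most the number of uncovered sites -/
theorem surplus_le (hJ : Fintype.card J = Fintype.card V) {z : V → N} {x : J → N} {π : J → V}
    (h : Forced z x π) : ∑ v, max (cnt π v - 1) 0 ≤ ((unc x z).card : ℝ) := by
  have h0 : ∑ v, (cnt π v - 1) = 0 := by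
    rw [Finset.sum_sub_distrib, sum_cnt, hJ]; simp
  have h1 : ∑ v, max (cnt π v - 1) 0 = ∑ v, (cnt π v - 1) + ∑ v, max (1 - cnt π v) 0 := by
    rw [← Finset.sum_add_distrib]
    refine Finset.sum_congr rfl fun v _ => ?_
    rcases le_total (cnt π v) 1 with h2 | h2
    · rw [max_eq_right (by linarith), max_eq_left (by linarith)]
      ring
    · rw [max_eq_left (by linarith), max_eq_right (by linarith)]
      ring
  rw [h1, h0, zero_add]
  have h2 : ∑ v, max (1 - cnt π v) 0 ≤ ∑ v, (if v ∈ unc x z then (1:ℝ) else 0) := by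
    refine Finset.sum_le_sum fun v _ => ?_
    by_cases hv : v ∈ unc x z
    · rw [if_pos hv]
      exact max_le (by linarith [cnt_nonneg π v]) zero_le_one
    · rw [if_neg hv]
      exact max_le (by linarith [cnt_ge_one h hv]) le_rfl
  refine h2.trans (le_of_eq ?_)
  simp

omit [DecidableEq J] [MetricSpace N] in
/-- at an uncovered site there are at most as many tokens as there are uncovered sites -/
theorem cnt_le_unc (hJ : Fintype.card J = Fintype.card V) {z : V → N} {x : J → N} {π : J → V}
    (h : Forced z x π) {a : V} (ha : a ∈ unc x z) : cnt π a ≤ ((unc x z).card : ℝ) := by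
  have h0 : ∑ v, cnt π v = Fintype.card V := by rw [sum_cnt, hJ]
  have h1 : ∑ v, (if v ∈ unc x z then (if v = a then cnt π a else 0) else 1) ≤ ∑ v, cnt π v := by
    refine Finset.sum_le_sum fun v _ => ?_
    by_cases hv : v ∈ unc x z
    · rw [if_pos hv]
      by_cases hva : v = a
      · rw [if_pos hva, hva]
      · rw [if_neg hva]
        exact cnt_nonneg π v
    · rw [if_neg hv]
      exact cnt_ge_one h hv
  have h2 : ∑ v, (if v ∈ unc x z then (if v = a then cnt π a else 0) else 1)
      = cnt π a + ((Fintype.card V : ℝ) - (unc x z).card) := by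
    rw [Finset.sum_ite]
    have h3 : Finset.univ.filter (fun v => v ∈ unc x z) = unc x z := by ext v; simp
    have h4 : (Finset.univ.filter fun v => v ∉ unc x z) = (unc x z)ᶜ := by ext v; simp
    rw [h3, h4, Finset.sum_ite_eq' (unc x z) a, if_pos ha, Finset.sum_const,
      Finset.card_compl, nsmul_eq_mul, mul_one, Nat.cast_sub (Finset.card_le_univ _)]
  rw [h2, h0] at h1
  linarith

omit [DecidableEq J] [MetricSpace N] in
/-- the positive sources when one more unit arrives at an uncovered site -/
theorem source_le (hJ : Fintype.card J = Fintype.card V) {z : V → N} {x : J → N} {π : J → V}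
    (h : Forced z x π) {a : V} (ha : a ∈ unc x z) :
    ∑ w, max (cnt π w - 1 + Pi.single (M := fun _ => ℝ) a 1 w) 0 ≤ ((unc x z).card : ℝ) := by
  have h0 : ∑ v, (cnt π v - 1 + Pi.single (M := fun _ => ℝ) a 1 v) = 1 := by
    rw [Finset.sum_add_distrib, Finset.sum_sub_distrib, sum_cnt, hJ]; simp
  have h1 : ∑ w, max (cnt π w - 1 + Pi.single (M := fun _ => ℝ) a 1 w) 0
      = ∑ w, (cnt π w - 1 + Pi.single (M := fun _ => ℝ) a 1 w)
        + ∑ w, max (1 - Pi.single (M := fun _ => ℝ) a 1 w - cnt π w) 0 := by
    rw [← Finset.sum_add_distrib]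
    refine Finset.sum_congr rfl fun v _ => ?_
    rcases le_total (cnt π v - 1 + Pi.single (M := fun _ => ℝ) a 1 v) 0 with h2 | h2
    · rw [max_eq_right h2, max_eq_left (by linarith)]
      ring
    · rw [max_eq_left h2, max_eq_right (by linarith)]
      ring
  rw [h1, h0]
  have h2 : ∑ w, max (1 - Pi.single (M := fun _ => ℝ) a 1 w - cnt π w) 0
      ≤ ∑ w, (if w ∈ (unc x z).erase a then (1:ℝ) else 0) := by
    refine Finset.sum_le_sum fun w _ => ?_
    by_cases hwa : w = a
    · rw [hwa, Pi.single_eq_same, sub_self, zero_sub]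
      rw [if_neg (Finset.notMem_erase a _)]
      exact max_le (by linarith [cnt_nonneg π a]) le_rfl
    · rw [Pi.single_eq_of_ne hwa, sub_zero]
      by_cases hw : w ∈ unc x z
      · rw [if_pos (Finset.mem_erase.2 ⟨hwa, hw⟩)]
        exact max_le (by linarith [cnt_nonneg π w]) zero_le_one
      · rw [if_neg fun h3 => hw (Finset.mem_of_mem_erase h3)]
        exact max_le (by linarith [cnt_ge_one h hw]) le_rfl
  have h3 : ∑ w, (if w ∈ (unc x z).erase a then (1:ℝ) else 0)
      = ((unc x z).card : ℝ) - 1 := by
    have h4 : 1 ≤ (unc x z).card := Finset.card_pos.2 ⟨a, ha⟩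
    have h5 : ∑ w, (if w ∈ (unc x z).erase a then (1:ℝ) else 0)
        = (((unc x z).erase a).card : ℝ) := by
      rw [Finset.sum_ite_mem, Finset.univ_inter, Finset.sum_const, nsmul_eq_mul, mul_one]
    rw [h5, Finset.card_erase_of_mem ha, Nat.cast_sub h4, Nat.cast_one]
  linarith

/-- the potential of an assignment, with weight `K` of the distances -/
noncomputable def PsK (K : ℝ) (z : V → N) (x : J → N) (π : J → V) : ℝ :=
  FF z (cnt π) + K * ∑ j, dist (x j) (z (π j))

theorem PsK_nonneg {K : ℝ} (hK : 0 ≤ K) {z : V → N} (hz : Function.Injective z)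
    (hJ : Fintype.card J = Fintype.card V) (x : J → N) (π : J → V) : 0 ≤ PsK K z x π := by
  have h1 := FF_nonneg hz hJ π
  have h2 : 0 ≤ ∑ j, dist (x j) (z (π j)) := Finset.sum_nonneg fun j _ => dist_nonneg
  rw [PsK]
  exact add_nonneg h1 (mul_nonneg hK h2)

omit [Fintype V] [DecidableEq V] [Fintype J] [MetricSpace N] in
theorem Forced.update {z : V → N} (hz : Function.Injective z) {x : J → N} {π : J → V}
    (h : Forced z x π) (a : V) (j : J) :
    Forced z (Function.update x j (z a)) (Function.update π j a) := by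
  intro i v hi
  rcases eq_or_ne i j with hij | hij
  · rw [hij, Function.update_self] at hi ⊢
    exact hz hi
  · rw [Function.update_of_ne hij] at hi ⊢
    exact h i v hi

/-- **drift** -/
theorem driftK {z : V → N} (hz : Function.Injective z)
    (hJ : Fintype.card J = Fintype.card V) {x : J → N} {π : J → V} (h : Forced z x π) {m : ℕ}
    (hm : (unc x z).card ≤ m) {a : V} (hx : ∀ j, x j ≠ z a) :
    ∑ j, (dist (x j) (z a))⁻¹ * (PsK (2 * m + 1) z (Function.update x j (z a))
          (Function.update π j a) - PsK (2 * m + 1) z x π)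
      ≤ - (2 * (Fintype.card V : ℝ) + 1) / (Fintype.card V : ℝ) ^ 2 := by
  have hne : Nonempty V := ⟨a⟩
  have hc : (0:ℝ) < (Fintype.card V : ℝ) := by exact_mod_cast Fintype.card_pos
  have ha : a ∈ unc x z := (mem_unc x z a).2 hx
  have hmR : ((unc x z).card : ℝ) ≤ m := by exact_mod_cast hm
  have hS := (source_le hJ h ha).trans hmR
  have hm1 : (1:ℝ) ≤ m := by
    have h1 : 1 ≤ (unc x z).card := Finset.card_pos.2 ⟨a, ha⟩
    exact_mod_cast h1.trans hm
  have hna : cnt π a ≤ (m : ℝ) := (cnt_le_unc hJ h ha).trans hmR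
  have hna0 := cnt_nonneg π a
  have hn : ∑ v, cnt π v = Fintype.card V := by rw [sum_cnt, hJ]
  set K : ℝ := 2 * (m : ℝ) + 1 with hK
  have hK0 : 0 < K := by positivity
  -- the sum of the increments of `FF`
  have hcore : ∑ j, cond z (π j) a *
        (FF z (cnt (Function.update π j a)) - FF z (cnt π)) - K * cnt π a
      ≤ - (2 * (Fintype.card V : ℝ) + 1) / (Fintype.card V : ℝ) ^ 2 := by
    have h1 := core hz (cnt π) hn a
    rw [sum_FF_incr hz]
    set k : ℝ := (Fintype.card V : ℝ) with hk
    set c := cnt π a with hcdef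
    have h2 : (1 + 1 / k) * (1 / k - c) - 1 / 2 * (1 / k - c) ^ 2
        = (2 * k + 1) / (2 * k ^ 2) - c - c ^ 2 / 2 := by
      field_simp; ring
    rw [h2] at h1
    have h3 : - (2 * k + 1) / k ^ 2 = -2 * ((2 * k + 1) / (2 * k ^ 2)) := by
      field_simp
    rw [h3]
    nlinarith [mul_nonneg hna0 (sub_nonneg.2 hna)]
  refine le_trans ?_ hcore
  have hcnt : K * cnt π a = ∑ j, if π j = a then K else 0 := by
    rw [cnt, Finset.mul_sum]
    exact Finset.sum_congr rfl fun j _ => by split_ifs <;> simp
  rw [hcnt, ← Finset.sum_sub_distrib]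
  refine Finset.sum_le_sum fun j _ => ?_
  have hdj : 0 < dist (x j) (z a) := dist_pos.2 (hx j)
  have hsum : ∑ i, dist (Function.update x j (z a) i) (z (Function.update π j a i))
      = ∑ i, dist (x i) (z (π i)) - dist (x j) (z (π j)) := by
    rw [← Finset.add_sum_erase _ _ (Finset.mem_univ j),
      ← Finset.add_sum_erase _ (fun i => dist (x i) (z (π i))) (Finset.mem_univ j)]
    have : ∑ i ∈ Finset.univ.erase j,
        dist (Function.update x j (z a) i) (z (Function.update π j a i))
        = ∑ i ∈ Finset.univ.erase j, dist (x i) (z (π i)) := by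
      refine Finset.sum_congr rfl fun i hi => ?_
      rw [Function.update_of_ne (Finset.ne_of_mem_erase hi),
        Function.update_of_ne (Finset.ne_of_mem_erase hi)]
    rw [this, Function.update_self, Function.update_self, dist_self]
    ring
  set D := FF z (cnt (Function.update π j a)) - FF z (cnt π) with hD
  set e := dist (x j) (z (π j)) with he
  have hT : PsK K z (Function.update x j (z a)) (Function.update π j a) - PsK K z x π
      = D - K * e := by
    rw [PsK, PsK, hsum, hD]
    ring
  rw [hT]
  by_cases hja : π j = a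
  · have hD0 : D = 0 := by
      rw [hD, ← hja, Function.update_eq_self]; ring
    rw [if_pos hja]
    have he' : e = dist (x j) (z a) := by rw [he, hja]
    rw [hD0, mul_zero, zero_sub, zero_sub, he']
    refine le_of_eq ?_
    field_simp
  · rw [if_neg hja, sub_zero]
    have hdv : 0 < dist (z (π j)) (z a) := dist_pos.2 fun h => hja (hz h)
    set d := dist (x j) (z a) with hd
    set dv := dist (z (π j)) (z a) with hdvdef
    have t1 : d ≤ e + dv := dist_triangle _ _ _
    have t2 : dv ≤ e + d := by
      have := dist_triangle (z (π j)) (x j) (z a)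
      rwa [dist_comm (z (π j)) (x j)] at this
    have he0 : 0 ≤ e := dist_nonneg
    -- the increment of `FF` is bounded
    have hDeq : D = 2 * (psi z (cnt π) a a - psi z (cnt π) a (π j)) := by
      have h1 : cnt (Function.update π j a) = fun u => cnt π u
          + Pi.single (M := fun _ => ℝ) a 1 u - Pi.single (M := fun _ => ℝ) (π j) 1 u := by
        funext u; exact cnt_update π j a u
      rw [hD, h1, FF_move hz]
    have hSK : 2 * ((∑ w, max (cnt π w - 1 + Pi.single (M := fun _ => ℝ) a 1 w) 0) * dv)
        ≤ K * dv := by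
      have := mul_le_mul_of_nonneg_right hS hdv.le
      rw [hK]
      nlinarith
    have hD1 : D ≤ K * dv := by
      have h1 := psi_sub_le hz (cnt π) hn a a (π j)
      rw [dist_comm, ← hdvdef] at h1
      rw [hDeq]
      linarith
    have hD2 : -(K * dv) ≤ D := by
      have h1 := psi_sub_le hz (cnt π) hn a (π j) a
      rw [← hdvdef] at h1
      rw [hDeq]
      linarith
    have h2 : D * (dv - d) ≤ K * dv * e := by
      have ha : |D| ≤ K * dv := abs_le.2 ⟨hD2, hD1⟩
      have hb : |dv - d| ≤ e := abs_le.2 ⟨by linarith, by linarith⟩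
      calc D * (dv - d) ≤ |D * (dv - d)| := le_abs_self _
        _ = |D| * |dv - d| := abs_mul _ _
        _ ≤ K * dv * e := mul_le_mul ha hb (abs_nonneg _) (by positivity)
    have goal : (D - K * e) * dv ≤ D * d := by nlinarith
    rw [cond, ← hdvdef, inv_mul_eq_div, inv_mul_eq_div, div_le_div_iff₀ hdj hdv]
    exact goal

omit [Fintype V] [DecidableEq J] in
theorem cnt_nat (π : J → V) (p : V) : ∃ c : ℕ, cnt π p = c := by
  refine ⟨∑ j, if π j = p then 1 else 0, ?_⟩
  rw [cnt]; push_cast; rfl

omit [DecidableEq J] in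
/-- **move of the sites** -/
theorem moveK {z z' : V → N} (hz : Function.Injective z) (hz' : Function.Injective z')
    (hJ : Fintype.card J = Fintype.card V) {x : J → N} {π : J → V}
    (h : Forced z x π) {m : ℕ} (hm : (unc x z).card ≤ m) (hm' : (unc x z').card ≤ m) :
    ∃ π' : J → V, Forced z' x π' ∧ PsK (2 * m + 1) z' x π' ≤ PsK (2 * m + 1) z x π
      + (3 * (m : ℝ) ^ 2 + 7 * m + 1) * ∑ p, dist (z p) (z' p) := by
  classical
  have hmR : ((unc x z).card : ℝ) ≤ m := by exact_mod_cast hm
  have hmR' : ((unc x z').card : ℝ) ≤ m := by exact_mod_cast hm'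
  have hm0 : (0:ℝ) ≤ m := Nat.cast_nonneg m
  set K : ℝ := 2 * (m : ℝ) + 1 with hK
  have hK0 : 0 < K := by positivity
  -- first the sites move
  have hstep1 : PsK K z' x π ≤ PsK K z x π
      + (3 * (m : ℝ) ^ 2 + 7 * m + 1) * ∑ p, dist (z p) (z' p) := by
    have hn : ∑ v, cnt π v = Fintype.card V := by rw [sum_cnt, hJ]
    have h1 := FF_move_le hz hz' (cnt π) hn
    set S := ∑ v, max (cnt π v - 1) 0 with hS
    have hS0 : 0 ≤ S := Finset.sum_nonneg fun v _ => le_max_right _ _
    have hSm : S ≤ m := (surplus_le hJ h).trans hmR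
    have h2 : ∑ j, dist (x j) (z' (π j))
        ≤ ∑ j, dist (x j) (z (π j)) + ∑ p, cnt π p * dist (z p) (z' p) := by
      rw [sum_cnt_mul π fun p => dist (z p) (z' p), ← Finset.sum_add_distrib]
      exact Finset.sum_le_sum fun j _ => dist_triangle _ _ _
    have h3 : ∑ p, dist (z p) (z' p) * (S ^ 2 + (S - max (cnt π p - 1) 0) ^ 2 + 4 * S)
        + K * ∑ p, cnt π p * dist (z p) (z' p)
        ≤ (3 * (m : ℝ) ^ 2 + 7 * m + 1) * ∑ p, dist (z p) (z' p) := by
      have q1 : K * ∑ p, cnt π p * dist (z p) (z' p)
          = ∑ p, K * (cnt π p * dist (z p) (z' p)) := Finset.mul_sum _ _ _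
      have q2 : (3 * (m : ℝ) ^ 2 + 7 * m + 1) * ∑ p, dist (z p) (z' p)
          = ∑ p, (3 * (m : ℝ) ^ 2 + 7 * m + 1) * dist (z p) (z' p) := Finset.mul_sum _ _ _
      rw [q1, q2, ← Finset.sum_add_distrib]
      refine Finset.sum_le_sum fun p _ => ?_
      have hSp : max (cnt π p - 1) 0 ≤ S :=
        Finset.single_le_sum (f := fun v => max (cnt π v - 1) 0) (fun v _ => le_max_right _ _)
          (Finset.mem_univ p)
      have hnum : S ^ 2 + (S - max (cnt π p - 1) 0) ^ 2 + 4 * S + K * cnt π p
          ≤ 3 * (m : ℝ) ^ 2 + 7 * m + 1 := by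
        have a1 : S ^ 2 ≤ (m : ℝ) ^ 2 := pow_le_pow_left₀ hS0 hSm 2
        rcases le_total 1 (cnt π p) with hc | hc
        · rw [max_eq_left (by linarith)] at hSp ⊢
          set c := cnt π p with hcdef
          have a2 : (S - (c - 1)) ^ 2 ≤ ((m : ℝ) - (c - 1)) ^ 2 :=
            pow_le_pow_left₀ (by linarith) (by linarith) 2
          have a3 : c - 1 ≤ m := by linarith
          rw [hK]
          nlinarith [mul_nonneg (show (0:ℝ) ≤ c - 1 by linarith)
            (show (0:ℝ) ≤ m - (c - 1) by linarith), mul_nonneg hm0 hm0]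
        · rw [max_eq_right (by linarith), sub_zero]
          have a2 : K * cnt π p ≤ K * 1 := mul_le_mul_of_nonneg_left hc hK0.le
          rw [hK] at a2 ⊢
          nlinarith [mul_nonneg hm0 hm0]
      have := mul_le_mul_of_nonneg_left hnum (dist_nonneg (x := z p) (y := z' p))
      linarith
    have h4 := mul_le_mul_of_nonneg_left h2 hK0.le
    rw [PsK, PsK]
    linarith
  -- then the tokens at a site are assigned to it
  set π' : J → V := fun j => if hj : ∃ v, x j = z' v then hj.choose else π j with hπ'
  have hF : Forced z' x π' := by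
    intro j v hj
    have hex : ∃ v, x j = z' v := ⟨v, hj⟩
    have h1 : π' j = hex.choose := by
      rw [hπ']
      exact dif_pos hex
    rw [h1]
    exact hz' (by rw [← hex.choose_spec, hj])
  refine ⟨π', hF, le_trans ?_ hstep1⟩
  have h1 := FF_reassign_le hz' hJ π π'
  have hS' : ∑ v, max (cnt π' v - 1) 0 ≤ (m : ℝ) := (surplus_le hJ hF).trans hmR'
  have h2 : ∀ j, dist (x j) (z' (π' j)) + dist (z' (π' j)) (z' (π j))
      = dist (x j) (z' (π j)) := by
    intro j
    by_cases hex : ∃ v, x j = z' v
    · obtain ⟨v, hv⟩ := hex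
      have h3 := hF j v hv
      rw [h3, ← hv, dist_self, zero_add]
    · have h3 : π' j = π j := by
        rw [hπ']
        exact dif_neg hex
      rw [h3, dist_self, add_zero]
  have h3 : ∑ j, dist (x j) (z' (π' j)) + ∑ j, dist (z' (π' j)) (z' (π j))
      = ∑ j, dist (x j) (z' (π j)) := by
    rw [← Finset.sum_add_distrib]
    exact Finset.sum_congr rfl fun j _ => h2 j
  have h4 : 0 ≤ ∑ j, dist (z' (π' j)) (z' (π j)) := Finset.sum_nonneg fun j _ => dist_nonneg
  have h5 : (2 * ∑ v, max (cnt π' v - 1) 0 + 1) * ∑ j, dist (z' (π' j)) (z' (π j))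
      ≤ K * ∑ j, dist (z' (π' j)) (z' (π j)) :=
    mul_le_mul_of_nonneg_right (by rw [hK]; linarith) h4
  rw [PsK, PsK, ← h3]
  linarith

omit [MetricSpace N] in
/-- the number of uncovered sites does not increase when a token moves to an uncovered site -/
theorem unc_update_le {z : V → N} (hz : Function.Injective z) (x : J → N) {a : V}
    (hx : ∀ j, x j ≠ z a) (j : J) :
    (unc (Function.update x j (z a)) z).card ≤ (unc x z).card := by
  classical
  have ha : a ∈ unc x z := (mem_unc x z a).2 hx
  have h1 : unc (Function.update x j (z a)) z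
      ⊆ (unc x z).erase a ∪ Finset.univ.filter fun v => z v = x j := by
    intro v hv
    rw [mem_unc] at hv
    rw [Finset.mem_union, Finset.mem_erase, mem_unc, Finset.mem_filter]
    by_cases hvj : z v = x j
    · exact Or.inr ⟨Finset.mem_univ _, hvj⟩
    · left
      refine ⟨?_, fun i hi => ?_⟩
      · rintro rfl
        apply hv j
        rw [Function.update_self]
      · rcases eq_or_ne i j with hij | hij
        · rw [hij] at hi
          exact hvj hi.symm
        · apply hv i
          rw [Function.update_of_ne hij, hi]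
  have h2 : (Finset.univ.filter fun v => z v = x j).card ≤ 1 := by
    rw [Finset.card_le_one]
    intro u hu v hv
    rw [Finset.mem_filter] at hu hv
    exact hz (hu.2.trans hv.2.symm)
  have h3 := (Finset.card_le_card h1).trans (Finset.card_union_le _ _)
  rw [Finset.card_erase_of_mem ha] at h3
  have h4 : 0 < (unc x z).card := Finset.card_pos.2 ⟨a, ha⟩
  omega

end Pool.Agent.Lib.MP_af7143_lc
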