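import Pool.Agent.Lib.MP_af7143_lc.Green

/-!
# Hitting times in the network with conductances `1 / distance`

`IsHit z w f`: `f` is the expected hitting time of the site `w`, in the time scale in which the
walk jumps from `u` to `v` at rate `1 / d(z u, z v)`.
-/

set_option autoImplicit false

open Finset

namespace Pool.Agent.Lib.MP_af7143_lc

variable {V : Type*} [Fintype V] [DecidableEq V] {N : Type*} [MetricSpace N]

/-- `f` is the hitting time of `w`. -/
def IsHit (z : V → N) (w : V) (f : V → ℝ) : Prop :=
  f w = 0 ∧ ∀ u, u ≠ w → Lap z f u = 1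

omit [DecidableEq V] in
theorem Lap_sub (z : V → N) (f g : V → ℝ) (u : V) :
    Lap z (fun v => f v - g v) u = Lap z f u - Lap z g u := by
  simp only [Lap]
  rw [← Finset.sum_sub_distrib]
  exact Finset.sum_congr rfl fun v _ => by ring

omit [DecidableEq V] in
theorem Lap_add (z : V → N) (f g : V → ℝ) (u : V) :
    Lap z (fun v => f v + g v) u = Lap z f u + Lap z g u := by
  simp only [Lap]
  rw [← Finset.sum_add_distrib]
  exact Finset.sum_congr rfl fun v _ => by ring

omit [DecidableEq V] in
theorem Lap_const (z : V → N) (c : ℝ) (u : V) : Lap z (fun _ => c) u = 0 := by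
  simp [Lap]

/-- minimum principle -/
theorem minp {z : V → N} (hz : Function.Injective z) {h : V → ℝ} {v : V}
    (hh : ∀ u, u ≠ v → 0 ≤ Lap z h u) (hv : 0 ≤ h v) (u : V) : 0 ≤ h u := by
  obtain ⟨m, -, hm⟩ := Finset.exists_min_image Finset.univ h ⟨v, Finset.mem_univ v⟩
  refine le_trans ?_ (hm u (Finset.mem_univ u))
  rcases eq_or_ne m v with hmv | hmv
  · rw [hmv]
    exact hv
  · have h1 := hh m hmv
    have h2 : Lap z h m ≤ cond z m v * (h m - h v) := by
      rw [Lap, ← Finset.add_sum_erase _ _ (Finset.mem_univ v)]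
      have h3 : ∑ w ∈ Finset.univ.erase v, cond z m w * (h m - h w) ≤ 0 := by
        refine Finset.sum_nonpos fun w _ => ?_
        exact mul_nonpos_of_nonneg_of_nonpos (cond_nonneg z m w)
          (by linarith [hm w (Finset.mem_univ w)])
      linarith
    have h3 := cond_pos hz hmv
    have h4 : 0 ≤ cond z m v * (h m - h v) := h1.trans h2
    have h5 : 0 ≤ h m - h v := nonneg_of_mul_nonneg_right h4 h3
    linarith

theorem exists_isHit {z : V → N} (hz : Function.Injective z) (w : V) : ∃ f, IsHit z w f := by
  set q : V → ℝ := fun v => 1 - (if v = w then (Fintype.card V : ℝ) else 0) with hq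
  have hsum : ∑ v, q v = 0 := by
    simp [hq, Finset.sum_sub_distrib]
  refine ⟨fun u => green z q u - green z q w, sub_self _, fun u hu => ?_⟩
  have h1 := Lap_sub z (green z q) (fun _ => green z q w) u
  rw [h1, Lap_const, Lap_green hz, hsum]
  simp [hq, hu]

variable {z : V → N} {w : V} {f : V → ℝ}

theorem IsHit.lap_self (h : IsHit z w f) : Lap z f w = 1 - Fintype.card V := by
  have h1 := sum_Lap z f
  rw [← Finset.add_sum_erase _ _ (Finset.mem_univ w)] at h1
  have h2 : ∑ u ∈ Finset.univ.erase w, Lap z f u = ∑ _u ∈ Finset.univ.erase w, (1 : ℝ) :=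
    Finset.sum_congr rfl fun u hu => h.2 u (Finset.ne_of_mem_erase hu)
  rw [h2, Finset.sum_const, Finset.card_erase_of_mem (Finset.mem_univ w), Finset.card_univ,
    nsmul_eq_mul, mul_one] at h1
  have h3 : 1 ≤ Fintype.card V := Fintype.card_pos_iff.2 ⟨w⟩
  rw [Nat.cast_sub h3, Nat.cast_one] at h1
  linarith

theorem IsHit.nonneg (hz : Function.Injective z) (h : IsHit z w f) (u : V) : 0 ≤ f u :=
  minp hz (fun v hv => by rw [h.2 v hv]; exact zero_le_one) h.1.ge u

/-- triangle inequality for hitting times -/
theorem IsHit.triangle (hz : Function.Injective z) {v : V} {g : V → ℝ} (h : IsHit z w f)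
    (h' : IsHit z v g) (u : V) : f u ≤ g u + f v := by
  have h1 : ∀ u, 0 ≤ g u + f v - f u := by
    refine minp hz (h := fun u => g u + f v - f u) (v := v) (fun u hu => ?_) ?_
    · have e1 := Lap_sub z (fun u => g u + f v) f u
      have e2 := Lap_add z g (fun _ => f v) u
      rw [e1, e2, Lap_const, h'.2 u hu]
      rcases eq_or_ne u w with huw | huw
      · rw [huw, h.lap_self]
        have : (0 : ℝ) ≤ Fintype.card V := Nat.cast_nonneg _
        linarith
      · rw [h.2 u huw]
        norm_num
    · rw [h'.1]
      linarith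
  linarith [h1 u]

/-- two-point principle -/
theorem two_point (hz : Function.Injective z) {Λ : ℝ} (hΛ : 0 ≤ Λ)
    (hmax : ∀ u v, f u - f v ≤ Λ * dist (z u) (z v)) {p a : V} (hpa : p ≠ a)
    (heq : f p - f a = Λ * dist (z p) (z a)) : 2 * Λ ≤ Lap z f p - Lap z f a := by
  have hrest : ∀ x, x ≠ p → x ≠ a →
      0 ≤ cond z p x * (f p - f x) - cond z a x * (f a - f x) := by
    intro x hxp hxa
    have hα : 0 < dist (z p) (z x) := dist_pos.2 fun e => hxp (hz e).symm
    have hβ : 0 < dist (z a) (z x) := dist_pos.2 fun e => hxa (hz e).symm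
    have h1 := hmax p x
    have h2 := hmax x a
    have t1 := dist_triangle (z p) (z a) (z x)
    have t2 := dist_triangle (z a) (z p) (z x)
    rw [dist_comm (z a) (z p)] at t2
    rw [dist_comm (z x) (z a)] at h2
    set α := dist (z p) (z x) with hαd
    set β := dist (z a) (z x) with hβd
    set D := dist (z p) (z a) with hD
    have key : 0 ≤ β * (f p - f x) + α * (f x - f a) := by
      rcases le_total α β with hab | hab
      · have e1 : f x - f a = Λ * D - (f p - f x) := by rw [← heq]; ring
        have h3 : Λ * (D - β) ≤ f p - f x := by linarith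
        rw [e1]
        have h4 : β * (f p - f x) + α * (Λ * D - (f p - f x))
            = (β - α) * (f p - f x) + α * (Λ * D) := by ring
        rw [h4]
        have h5 := mul_le_mul_of_nonneg_left h3 (sub_nonneg.2 hab)
        have h6 : (β - α) * (Λ * (D - β)) + α * (Λ * D) = Λ * β * (D - β + α) := by ring
        have h7 : 0 ≤ Λ * β * (D - β + α) :=
          mul_nonneg (mul_nonneg hΛ hβ.le) (by linarith)
        linarith
      · have e1 : f p - f x = Λ * D - (f x - f a) := by rw [← heq]; ring
        have h3 : Λ * (D - α) ≤ f x - f a := by linarith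
        rw [e1]
        have h4 : β * (Λ * D - (f x - f a)) + α * (f x - f a)
            = (α - β) * (f x - f a) + β * (Λ * D) := by ring
        rw [h4]
        have h5 := mul_le_mul_of_nonneg_left h3 (sub_nonneg.2 hab)
        have h6 : (α - β) * (Λ * (D - α)) + β * (Λ * D) = Λ * α * (D - α + β) := by ring
        have h7 : 0 ≤ Λ * α * (D - α + β) :=
          mul_nonneg (mul_nonneg hΛ hα.le) (by linarith)
        linarith
    have h8 : cond z p x * (f p - f x) - cond z a x * (f a - f x)
        = (β * (f p - f x) + α * (f x - f a)) / (α * β) := by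
      rw [cond, cond, ← hαd, ← hβd]
      field_simp
      ring
    rw [h8]
    exact div_nonneg key (mul_pos hα hβ).le
  have h1 : Lap z f p - Lap z f a
      = ∑ x, (cond z p x * (f p - f x) - cond z a x * (f a - f x)) := by
    rw [Finset.sum_sub_distrib, Lap, Lap]
  have hda : a ∈ Finset.univ.erase p := Finset.mem_erase.2 ⟨hpa.symm, Finset.mem_univ a⟩
  rw [h1, ← Finset.add_sum_erase _ _ (Finset.mem_univ p), ← Finset.add_sum_erase _ _ hda]
  have h2 : 0 ≤ ∑ x ∈ (Finset.univ.erase p).erase a,
      (cond z p x * (f p - f x) - cond z a x * (f a - f x)) :=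
    Finset.sum_nonneg fun x hx =>
      hrest x (Finset.ne_of_mem_erase (Finset.mem_of_mem_erase hx)) (Finset.ne_of_mem_erase hx)
  have h3 : cond z p p * (f p - f p) - cond z a p * (f a - f p) = Λ := by
    rw [sub_self, mul_zero, zero_sub, ← mul_neg, neg_sub, heq, cond_comm, ← mul_assoc,
      mul_comm (cond z p a) Λ, mul_assoc, cond_mul_dist hz hpa, mul_one]
  have h4 : cond z p a * (f p - f a) - cond z a a * (f a - f a) = Λ := by
    rw [sub_self, mul_zero, sub_zero, heq, ← mul_assoc, mul_comm (cond z p a) Λ, mul_assoc,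
      cond_mul_dist hz hpa, mul_one]
  rw [h3, h4]
  linarith

/-- the hitting time is Lipschitz with half the number of sites as constant -/
theorem IsHit.lip (hz : Function.Injective z) (h : IsHit z w f) (u v : V) :
    f u - f v ≤ (Fintype.card V : ℝ) / 2 * dist (z u) (z v) := by
  rcases eq_or_ne u v with huv | huv
  · rw [huv]
    simp
  have hne : (Finset.univ : Finset (V × V)).Nonempty := ⟨(u, v), Finset.mem_univ _⟩
  obtain ⟨⟨p, a⟩, -, hm⟩ := Finset.exists_max_image Finset.univ
    (fun t : V × V => (f t.1 - f t.2) / dist (z t.1) (z t.2)) hne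
  set Λ := (f p - f a) / dist (z p) (z a) with hΛd
  have hm' : ∀ s t, (f s - f t) / dist (z s) (z t) ≤ Λ := fun s t => hm (s, t) (Finset.mem_univ _)
  have hΛ : 0 ≤ Λ := by
    have h1 := hm' u v
    have h2 := hm' v u
    rw [dist_comm (z v)] at h2
    have h3 : (f v - f u) / dist (z u) (z v) = -((f u - f v) / dist (z u) (z v)) := by
      rw [← neg_div, neg_sub]
    rw [h3] at h2
    linarith
  have hmax : ∀ s t, f s - f t ≤ Λ * dist (z s) (z t) := by
    intro s t
    rcases eq_or_ne s t with hst | hst
    · rw [hst]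
      simp
    · exact (div_le_iff₀ (dist_pos.2 fun e => hst (hz e))).1 (hm' s t)
  have hcard : (0 : ℝ) ≤ Fintype.card V := Nat.cast_nonneg _
  have hΛn : Λ ≤ (Fintype.card V : ℝ) / 2 := by
    rcases eq_or_ne p a with hpa | hpa
    · have : Λ = 0 := by rw [hΛd, hpa]; simp
      rw [this]
      positivity
    · have hD : dist (z p) (z a) ≠ 0 := (dist_pos.2 fun e => hpa (hz e)).ne'
      have h1 := two_point hz hΛ hmax hpa (by rw [hΛd, div_mul_cancel₀ _ hD])
      have h2 : Lap z f p ≤ 1 := by
        rcases eq_or_ne p w with hp | hp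
        · rw [hp, h.lap_self]
          linarith
        · exact (h.2 p hp).le
      have h3 : 1 - (Fintype.card V : ℝ) ≤ Lap z f a := by
        rcases eq_or_ne a w with ha | ha
        · rw [ha, h.lap_self]
        · rw [h.2 a ha]
          linarith
      linarith
  exact (hmax u v).trans (mul_le_mul_of_nonneg_right hΛn dist_nonneg)

/-- the voltage of the unit current from `o` to `w` -/
theorem exists_voltage (hz : Function.Injective z) {o : V} (how : w ≠ o) :
    ∃ v : V → ℝ, v w = 0 ∧ Lap z v o = 1 ∧ (∀ u, u ≠ o → u ≠ w → Lap z v u = 0) ∧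
      ∀ u, v u ≤ v o := by
  set q : V → ℝ := fun u => (if u = o then (1 : ℝ) else 0) - (if u = w then (1 : ℝ) else 0) with hq
  have hsum : ∑ u, q u = 0 := by
    simp [hq, Finset.sum_sub_distrib]
  have hL : ∀ u, Lap z (fun u => green z q u - green z q w) u = q u := by
    intro u
    have h1 := Lap_sub z (green z q) (fun _ => green z q w) u
    rw [h1, Lap_const, Lap_green hz, hsum]
    simp
  have ho : q o = 1 := by simp [hq, how.symm]
  have hw : q w = -1 := by simp [hq, how]
  have h0 : ∀ u, u ≠ o → u ≠ w → q u = 0 := by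
    intro u h1 h2
    simp [hq, h1, h2]
  refine ⟨fun u => green z q u - green z q w, sub_self _, (hL o).trans ho,
    fun u h1 h2 => (hL u).trans (h0 u h1 h2), fun u => ?_⟩
  have h2 := minp hz (h := fun u => (green z q o - green z q w) - (green z q u - green z q w))
    (v := o) (fun u hu => ?_) (sub_self _).ge u
  · exact sub_nonneg.1 h2
  · have h3 := Lap_sub z (fun _ => green z q o - green z q w)
      (fun u => green z q u - green z q w) u
    rw [h3, Lap_const, hL]
    rcases eq_or_ne u w with h4 | h4
    · rw [h4, hw]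
      norm_num
    · rw [h0 u hu h4]
      norm_num

/-- the effect of moving the starting site `o` (only) -/
theorem IsHit.change {z' : V → N} (hz : Function.Injective z) (hz' : Function.Injective z')
    {o : V} (how : w ≠ o) (hzz : ∀ u, u ≠ o → z' u = z u) {f' : V → ℝ} (h : IsHit z w f)
    (h' : IsHit z' w f') :
    f' o ≤ f o + (Fintype.card V : ℝ) / 2 * dist (z o) (z' o) := by
  obtain ⟨v, hvw, hvo, hv0, hvm⟩ := exists_voltage hz' how
  -- `f' o = ∑ v`
  have e1 : f' o = ∑ u, v u := by
    have h1 := sum_mul_Lap_comm z' v f'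
    have h2 : ∑ u, v u * Lap z' f' u = ∑ u, v u := by
      refine Finset.sum_congr rfl fun u _ => ?_
      rcases eq_or_ne u w with hu | hu
      · rw [hu, hvw, zero_mul]
      · rw [h'.2 u hu, mul_one]
    have h3 : ∑ u, f' u * Lap z' v u = f' o := by
      rw [Finset.sum_eq_single o, hvo, mul_one]
      · intro u _ hu
        rcases eq_or_ne u w with hu2 | hu2
        · rw [hu2, h'.1, zero_mul]
        · rw [hv0 u hu hu2, mul_zero]
      · intro hno
        exact absurd (Finset.mem_univ o) hno
    rw [← h3, ← h1, h2]
  have e2 : f o = ∑ u, v u * Lap z' f u := by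
    rw [sum_mul_Lap_comm z' v f, Finset.sum_eq_single o, hvo, mul_one]
    · intro u _ hu
      rcases eq_or_ne u w with hu2 | hu2
      · rw [hu2, h.1, zero_mul]
      · rw [hv0 u hu hu2, mul_zero]
    · intro hno
      exact absurd (Finset.mem_univ o) hno
  have e3 : ∑ u, v u * Lap z f u = ∑ u, v u := by
    refine Finset.sum_congr rfl fun u _ => ?_
    rcases eq_or_ne u w with hu | hu
    · rw [hu, hvw, zero_mul]
    · rw [h.2 u hu, mul_one]
  -- the Laplacians differ only through the site `o`
  set δ : V → ℝ := fun u => cond z u o - cond z' u o with hδ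
  have hc : ∀ s t, s ≠ o → t ≠ o → cond z' s t = cond z s t := by
    intro s t hs ht
    rw [cond, cond, hzz s hs, hzz t ht]
  have e4 : ∑ u, v u * Lap z f u - ∑ u, v u * Lap z' f u
      = ∑ u, δ u * ((v o - v u) * (f o - f u)) := by
    rw [← Finset.sum_sub_distrib]
    have h1 : ∀ u, u ≠ o → v u * Lap z f u - v u * Lap z' f u = δ u * (v u * (f u - f o)) := by
      intro u hu
      have h2 : Lap z f u - Lap z' f u = δ u * (f u - f o) := by
        rw [Lap, Lap, ← Finset.sum_sub_distrib, Finset.sum_eq_single o]
        · simp only [hδ]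
          ring
        · intro t _ ht
          rw [hc u t hu ht, sub_self]
        · intro hno
          exact absurd (Finset.mem_univ o) hno
      rw [← mul_sub, h2]
      ring
    have h3 : v o * Lap z f o - v o * Lap z' f o = ∑ u, δ u * (v o * (f o - f u)) := by
      rw [← mul_sub, Lap, Lap, ← Finset.sum_sub_distrib, Finset.mul_sum]
      refine Finset.sum_congr rfl fun u _ => ?_
      simp only [hδ]
      rw [cond_comm z o u, cond_comm z' o u]
      ring
    have h4 : ∑ u, δ u * ((v o - v u) * (f o - f u))
        = ∑ u, δ u * (v o * (f o - f u)) + ∑ u, δ u * (v u * (f u - f o)) := by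
      rw [← Finset.sum_add_distrib]
      exact Finset.sum_congr rfl fun u _ => by ring
    rw [h4, ← h3, ← Finset.add_sum_erase _ _ (Finset.mem_univ o),
      ← Finset.add_sum_erase _ (fun u => δ u * (v u * (f u - f o))) (Finset.mem_univ o)]
    have h5 : δ o * (v o * (f o - f o)) = 0 := by ring
    rw [h5, zero_add]
    congr 1
    exact Finset.sum_congr rfl fun u hu => h1 u (Finset.ne_of_mem_erase hu)
  -- estimate of the terms
  have e5 : ∀ u, δ u * ((v o - v u) * (f o - f u))
      ≤ (Fintype.card V : ℝ) / 2 * dist (z o) (z' o) * (cond z' o u * (v o - v u)) := by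
    intro u
    rcases eq_or_ne u o with hu | hu
    · rw [hu]
      simp
    · have hd : 0 < dist (z u) (z o) := dist_pos.2 fun e => hu (hz e)
      have hd' : 0 < dist (z u) (z' o) := by
        rw [← hzz u hu]
        exact dist_pos.2 fun e => hu (hz' e)
      have hδ' : δ u = (dist (z u) (z' o) - dist (z u) (z o))
          / (dist (z u) (z o) * dist (z u) (z' o)) := by
        simp only [hδ, cond]
        rw [hzz u hu]
        field_simp
      have hcd : cond z' o u = (dist (z u) (z' o))⁻¹ := by
        rw [cond_comm, cond, hzz u hu]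
      have h1 : |dist (z u) (z' o) - dist (z u) (z o)| ≤ dist (z o) (z' o) := by
        rw [dist_comm (z o) (z' o)]
        have := abs_dist_sub_le (z' o) (z o) (z u)
        rwa [dist_comm (z' o) (z u), dist_comm (z o) (z u)] at this
      have h2 : |f o - f u| ≤ (Fintype.card V : ℝ) / 2 * dist (z u) (z o) := by
        rw [abs_le]
        have h3 := h.lip hz o u
        have h4 := h.lip hz u o
        rw [dist_comm (z o)] at h3
        constructor
        · linarith
        · exact h3
      have h3 : (dist (z u) (z' o) - dist (z u) (z o)) * (f o - f u)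
          ≤ dist (z o) (z' o) * ((Fintype.card V : ℝ) / 2 * dist (z u) (z o)) := by
        refine (le_abs_self _).trans ?_
        rw [abs_mul]
        exact mul_le_mul h1 h2 (abs_nonneg _) dist_nonneg
      have h4 : 0 ≤ v o - v u := sub_nonneg.2 (hvm u)
      rw [hδ', hcd]
      have e6 : (dist (z u) (z' o) - dist (z u) (z o))
          / (dist (z u) (z o) * dist (z u) (z' o)) * ((v o - v u) * (f o - f u))
          = (v o - v u) / (dist (z u) (z o) * dist (z u) (z' o))
            * ((dist (z u) (z' o) - dist (z u) (z o)) * (f o - f u)) := by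
        ring
      have e7 : (Fintype.card V : ℝ) / 2 * dist (z o) (z' o)
          * ((dist (z u) (z' o))⁻¹ * (v o - v u))
          = (v o - v u) / (dist (z u) (z o) * dist (z u) (z' o))
            * (dist (z o) (z' o) * ((Fintype.card V : ℝ) / 2 * dist (z u) (z o))) := by
        field_simp
      rw [e6, e7]
      exact mul_le_mul_of_nonneg_left h3 (div_nonneg h4 (mul_pos hd hd').le)
  have e6 : ∑ u, δ u * ((v o - v u) * (f o - f u))
      ≤ (Fintype.card V : ℝ) / 2 * dist (z o) (z' o) := by
    refine (Finset.sum_le_sum fun u _ => e5 u).trans (le_of_eq ?_)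
    rw [← Finset.mul_sum]
    have : ∑ u, cond z' o u * (v o - v u) = 1 := hvo
    rw [this, mul_one]
  rw [e3, ← e1, ← e2] at e4
  linarith

end Pool.Agent.Lib.MP_af7143_lc
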