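import Pool.Agent.Lib.MP_af7143_lc.Lip

/-! The potential of the Harmonic algorithm: drift, sign and Lipschitz bound. -/

set_option autoImplicit false

open Finset

namespace Pool.Agent.Lib.MP_af7143_lc

variable {V : Type*} [Fintype V] [DecidableEq V] {J : Type*} [Fintype J] [DecidableEq J]
  {N : Type*} [MetricSpace N]

/-- number of tokens assigned to the site `v`. -/
noncomputable def cnt (π : J → V) (v : V) : ℝ := ∑ j, if π j = v then 1 else 0

omit [Fintype V] [DecidableEq J] in
theorem cnt_nonneg (π : J → V) (v : V) : 0 ≤ cnt π v :=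
  Finset.sum_nonneg fun j _ => by split_ifs <;> norm_num

omit [DecidableEq J] in
theorem sum_cnt_mul (π : J → V) (g : V → ℝ) : ∑ v, cnt π v * g v = ∑ j, g (π j) := by
  simp only [cnt, Finset.sum_mul]
  rw [Finset.sum_comm]
  refine Finset.sum_congr rfl fun j _ => ?_
  simp

omit [DecidableEq J] in
theorem sum_cnt (π : J → V) : ∑ v, cnt π v = Fintype.card J := by
  have := sum_cnt_mul π (fun _ => (1:ℝ))
  simpa using this

omit [Fintype V] [DecidableEq J] in
theorem cnt_le (π : J → V) (v : V) : cnt π v ≤ Fintype.card J := by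
  calc cnt π v ≤ ∑ j : J, (1:ℝ) := Finset.sum_le_sum fun j _ => by split_ifs <;> norm_num
    _ = _ := by simp

omit [Fintype V] in
theorem cnt_update (π : J → V) (j : J) (a u : V) :
    cnt (Function.update π j a) u
      = cnt π u + Pi.single (M := fun _ => ℝ) a 1 u - Pi.single (M := fun _ => ℝ) (π j) 1 u := by
  simp only [cnt]
  rw [← Finset.add_sum_erase _ _ (Finset.mem_univ j), ← Finset.add_sum_erase _ _ (Finset.mem_univ j)]
  have h1 : ∑ i ∈ Finset.univ.erase j, (if Function.update π j a i = u then (1:ℝ) else 0)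
      = ∑ i ∈ Finset.univ.erase j, (if π i = u then (1:ℝ) else 0) := by
    refine Finset.sum_congr rfl fun i hi => ?_
    rw [Function.update_of_ne (Finset.ne_of_mem_erase hi)]
  rw [h1, Function.update_self]
  simp only [Pi.single_apply, eq_comm]
  ring

/-- increments of `FF` weighted by conductances to `a`. -/
theorem sum_FF_incr {z : V → N} (hz : Function.Injective z) (π : J → V) (a : V) :
    ∑ j, cond z (π j) a * (FF z (cnt (Function.update π j a)) - FF z (cnt π))
      = -2 * ∑ v, cnt π v * ((psi z (cnt π) a v - psi z (cnt π) a a) * cond z v a) := by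
  rw [sum_cnt_mul π (fun v => (psi z (cnt π) a v - psi z (cnt π) a a) * cond z v a),
    Finset.mul_sum]
  refine Finset.sum_congr rfl fun j _ => ?_
  have h1 : cnt (Function.update π j a) = fun u => cnt π u + Pi.single (M := fun _ => ℝ) a 1 u
      - Pi.single (M := fun _ => ℝ) (π j) 1 u := by
    funext u; exact cnt_update π j a u
  rw [h1, FF_move hz]
  ring

theorem sum_FF_incr_le {z : V → N} (hz : Function.Injective z)
    (hJ : Fintype.card J = Fintype.card V) (π : J → V) (a : V) :
    ∑ j, cond z (π j) a * (FF z (cnt (Function.update π j a)) - FF z (cnt π))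
      - ((Fintype.card V : ℝ) + 2) * cnt π a
      ≤ - (2 * (Fintype.card V : ℝ) + 1) / (Fintype.card V : ℝ) ^ 2 := by
  have hne : Nonempty V := ⟨a⟩
  have hc : (0:ℝ) < (Fintype.card V : ℝ) := by exact_mod_cast Fintype.card_pos
  have h1 := core hz (cnt π) (by rw [sum_cnt, hJ]) a
  rw [sum_FF_incr hz]
  set k : ℝ := (Fintype.card V : ℝ) with hk
  set m := cnt π a with hm
  have hm0 : 0 ≤ m := cnt_nonneg π a
  have hmk : m ≤ k := by rw [hk, ← hJ]; exact cnt_le π a
  have h2 : (1 + 1 / k) * (1 / k - m) - 1 / 2 * (1 / k - m) ^ 2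
      = (2 * k + 1) / (2 * k ^ 2) - m - m ^ 2 / 2 := by
    field_simp; ring
  rw [h2] at h1
  have h3 : - (2 * k + 1) / k ^ 2 = -2 * ((2 * k + 1) / (2 * k ^ 2)) := by
    field_simp
  rw [h3]
  nlinarith [mul_nonneg hm0 (sub_nonneg.2 hmk)]

theorem FF_one [Nonempty V] (z : V → N) (n : V → ℝ) (hn : ∀ v, n v = 1) : FF z n = 0 := by
  simp [FF, hn]

/-- `FF` is nonnegative on occupation vectors. -/
theorem FF_nonneg {z : V → N} (hz : Function.Injective z)
    (hJ : Fintype.card J = Fintype.card V) (π : J → V) : 0 ≤ FF z (cnt π) := by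
  classical
  rcases isEmpty_or_nonempty V with hV | hV
  · simp [FF]
  obtain ⟨π₀, hπ₀⟩ := Finite.exists_min (fun π : J → V => FF z (cnt π))
  refine le_trans ?_ (hπ₀ π)
  by_cases hs : Function.Surjective π₀
  · have hb : Function.Bijective π₀ :=
      (Fintype.bijective_iff_surjective_and_card π₀).2 ⟨hs, hJ⟩
    have : ∀ v, cnt π₀ v = 1 := by
      intro v
      obtain ⟨j, hj⟩ := hs v
      have : ∀ i, (if π₀ i = v then (1:ℝ) else 0) = if i = j then 1 else 0 := by
        intro i
        by_cases hi : i = j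
        · subst hi; simp [hj]
        · rw [if_neg hi, if_neg]
          intro e; exact hi (hb.1 (e.trans hj.symm))
      rw [cnt, Finset.sum_congr rfl fun i _ => this i]; simp
    rw [FF_one z _ this]
  · exfalso
    rw [Function.Surjective] at hs
    push Not at hs
    obtain ⟨a, ha⟩ := hs
    have h1 := sum_FF_incr_le hz hJ π₀ a
    have h2 : cnt π₀ a = 0 := by
      rw [cnt]; exact Finset.sum_eq_zero fun j _ => if_neg (ha j)
    have h3 : 0 ≤ ∑ j, cond z (π₀ j) a *
        (FF z (cnt (Function.update π₀ j a)) - FF z (cnt π₀)) :=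
      Finset.sum_nonneg fun j _ => mul_nonneg (cond_nonneg _ _ _)
        (sub_nonneg.2 (hπ₀ (Function.update π₀ j a)))
    rw [h2, mul_zero, sub_zero] at h1
    have hc : (0:ℝ) < (Fintype.card V : ℝ) := by exact_mod_cast Fintype.card_pos
    have h4 : - (2 * (Fintype.card V : ℝ) + 1) / (Fintype.card V : ℝ) ^ 2 < 0 := by
      apply div_neg_of_neg_of_pos <;> [linarith; positivity]
    linarith

/-- the assigned potential. -/
noncomputable def Psi (z : V → N) (x : J → N) (π : J → V) : ℝ :=
  FF z (cnt π) + ((Fintype.card V : ℝ) + 2) * ∑ j, dist (x j) (z (π j))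

/-- the potential. -/
noncomputable def Phi (z : V → N) (x : J → N) : ℝ := ⨅ π : J → V, Psi z x π

omit [DecidableEq J] in
theorem Phi_le (z : V → N) (x : J → N) (π : J → V) : Phi z x ≤ Psi z x π :=
  ciInf_le (Set.finite_range _).bddBelow π

omit [DecidableEq J] in
theorem exists_Phi [Nonempty V] (z : V → N) (x : J → N) :
    ∃ π : J → V, Phi z x = Psi z x π ∧ ∀ π', Psi z x π ≤ Psi z x π' := by
  obtain ⟨π, hπ⟩ := Finite.exists_min (fun π : J → V => Psi z x π)
  exact ⟨π, le_antisymm (Phi_le z x π) (le_ciInf hπ), hπ⟩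

theorem Phi_nonneg [Nonempty V] {z : V → N} (hz : Function.Injective z)
    (hJ : Fintype.card J = Fintype.card V) (x : J → N) : 0 ≤ Phi z x := by
  refine le_ciInf fun π => ?_
  have h1 := FF_nonneg hz hJ π
  have h2 : 0 ≤ ∑ j, dist (x j) (z (π j)) := Finset.sum_nonneg fun j _ => dist_nonneg
  have h3 : (0:ℝ) ≤ (Fintype.card V : ℝ) + 2 := by positivity
  rw [Psi]
  exact add_nonneg h1 (mul_nonneg h3 h2)

/-- **drift**. -/
theorem drift {z : V → N} (hz : Function.Injective z)
    (hJ : Fintype.card J = Fintype.card V) (x : J → N) (a : V) (hx : ∀ j, x j ≠ z a) :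
    ∑ j, (dist (x j) (z a))⁻¹ * (Phi z (Function.update x j (z a)) - Phi z x)
      ≤ - (2 * (Fintype.card V : ℝ) + 1) / (Fintype.card V : ℝ) ^ 2 := by
  have hne : Nonempty V := ⟨a⟩
  obtain ⟨π, hπ, hmin⟩ := exists_Phi z x
  refine le_trans ?_ (sum_FF_incr_le hz hJ π a)
  set K : ℝ := (Fintype.card V : ℝ) + 2 with hK
  have hK0 : 0 < K := by positivity
  have hcnt : K * cnt π a = ∑ j, if π j = a then K else 0 := by
    rw [cnt, Finset.mul_sum]
    exact Finset.sum_congr rfl fun j _ => by split_ifs <;> simp
  rw [hcnt, ← Finset.sum_sub_distrib]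
  refine Finset.sum_le_sum fun j _ => ?_
  -- distances
  have hdj : 0 < dist (x j) (z a) := dist_pos.2 (hx j)
  -- the sum of distances after a change
  have hsum : ∀ (y : N) (b : V), ∑ i, dist (Function.update x j y i) (z (Function.update π j b i))
      = ∑ i, dist (x i) (z (π i)) - dist (x j) (z (π j)) + dist y (z b) := by
    intro y b
    rw [← Finset.add_sum_erase _ _ (Finset.mem_univ j),
      ← Finset.add_sum_erase _ (fun i => dist (x i) (z (π i))) (Finset.mem_univ j)]
    have : ∑ i ∈ Finset.univ.erase j,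
        dist (Function.update x j y i) (z (Function.update π j b i))
        = ∑ i ∈ Finset.univ.erase j, dist (x i) (z (π i)) := by
      refine Finset.sum_congr rfl fun i hi => ?_
      rw [Function.update_of_ne (Finset.ne_of_mem_erase hi),
        Function.update_of_ne (Finset.ne_of_mem_erase hi)]
    rw [this, Function.update_self, Function.update_self]
    ring
  set D := FF z (cnt (Function.update π j a)) - FF z (cnt π) with hD
  set e := dist (x j) (z (π j)) with he
  -- candidate 1
  have c1 : Phi z (Function.update x j (z a)) - Phi z x ≤ D - K * e := by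
    have h1 := Phi_le z (Function.update x j (z a)) (Function.update π j a)
    rw [hπ]
    rw [Psi, hsum (z a) a, dist_self] at h1
    rw [Psi]
    linarith
  -- candidate 2
  have c2 : Phi z (Function.update x j (z a)) - Phi z x ≤ K * (dist (z a) (z (π j)) - e) := by
    have h1 := Phi_le z (Function.update x j (z a)) π
    have h2 := hsum (z a) (π j)
    rw [Function.update_eq_self] at h2
    rw [hπ]
    rw [Psi, h2] at h1
    rw [Psi]
    linarith
  -- minimality
  have c3 : 0 ≤ D + K * (dist (x j) (z a) - e) := by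
    have h1 := hmin (Function.update π j a)
    have h2 := hsum (x j) a
    rw [Function.update_eq_self] at h2
    rw [Psi, Psi, h2] at h1
    linarith
  by_cases hja : π j = a
  · have hD0 : D = 0 := by
      rw [hD, ← hja, Function.update_eq_self]; ring
    rw [if_pos hja]
    have he' : e = dist (x j) (z a) := by rw [he, hja]
    rw [hD0] at c1 ⊢
    rw [mul_zero, zero_sub]
    calc (dist (x j) (z a))⁻¹ * (Phi z (Function.update x j (z a)) - Phi z x)
        ≤ (dist (x j) (z a))⁻¹ * (0 - K * e) :=
          mul_le_mul_of_nonneg_left c1 (inv_nonneg.2 hdj.le)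
      _ = -K := by rw [he']; field_simp; ring
  · rw [if_neg hja, sub_zero]
    have hdv : 0 < dist (z (π j)) (z a) := dist_pos.2 fun h => hja (hz h)
    set d := dist (x j) (z a) with hd
    set dv := dist (z (π j)) (z a) with hdvdef
    have t1 : d ≤ e + dv := dist_triangle _ _ _
    have t2 : dv ≤ e + d := by
      have := dist_triangle (z (π j)) (x j) (z a)
      rwa [dist_comm (z (π j)) (x j)] at this
    have he0 : 0 ≤ e := dist_nonneg
    rw [dist_comm (z a) (z (π j)), ← hdvdef] at c2
    set T := Phi z (Function.update x j (z a)) - Phi z x with hT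
    have hDl : -(K * dv) ≤ D := by nlinarith
    -- `T * dv ≤ D * d`
    have goal : T * dv ≤ D * d := by
      rcases le_total D (K * dv) with h | h
      · have h1 : T * dv ≤ (D - K * e) * dv := mul_le_mul_of_nonneg_right c1 hdv.le
        -- `D (dv - d) ≤ K e dv`
        have h2 : D * (dv - d) ≤ K * dv * e := by
          have ha : |D| ≤ K * dv := abs_le.2 ⟨hDl, h⟩
          have hb : |dv - d| ≤ e := abs_le.2 ⟨by linarith, by linarith⟩
          calc D * (dv - d) ≤ |D * (dv - d)| := le_abs_self _
            _ = |D| * |dv - d| := abs_mul _ _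
            _ ≤ K * dv * e := mul_le_mul ha hb (abs_nonneg _) (by positivity)
        nlinarith
      · have h1 : T * dv ≤ K * (dv - e) * dv := mul_le_mul_of_nonneg_right c2 hdv.le
        have h2 : K * (dv - e) * dv ≤ K * d * dv := by
          have : dv - e ≤ d := by linarith
          have := mul_le_mul_of_nonneg_left this hK0.le
          exact mul_le_mul_of_nonneg_right this hdv.le
        have h3 : K * d * dv ≤ D * d := by nlinarith
        linarith
    rw [cond, ← hdvdef, inv_mul_eq_div, inv_mul_eq_div, div_le_div_iff₀ hdj hdv]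
    exact goal

omit [DecidableEq J] in
/-- **Lipschitz bound** when one site moves. -/
theorem Phi_site_le {z : V → N} (hz : Function.Injective z) (p : V) (w : N)
    (hz' : Function.Injective (Function.update z p w))
    (hJ : Fintype.card J = Fintype.card V) (x : J → N) :
    Phi (Function.update z p w) x
      ≤ Phi z x + (2 * (Fintype.card V : ℝ) ^ 2 + 4 * Fintype.card V - 3) * dist (z p) w := by
  have hne : Nonempty V := ⟨p⟩
  obtain ⟨π, hπ, -⟩ := exists_Phi z x
  refine (Phi_le (Function.update z p w) x π).trans ?_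
  rw [hπ, Psi, Psi]
  have hn : ∑ v, cnt π v = Fintype.card V := by rw [sum_cnt, hJ]
  have h1 := FF_update_le hz p w hz' (cnt π) hn
  set δ := dist (z p) w with hδ
  have hδ0 : 0 ≤ δ := dist_nonneg
  -- distances
  have h2 : ∑ j, dist (x j) (Function.update z p w (π j))
      ≤ ∑ j, dist (x j) (z (π j)) + cnt π p * δ := by
    rw [cnt, Finset.sum_mul, ← Finset.sum_add_distrib]
    refine Finset.sum_le_sum fun j _ => ?_
    by_cases h : π j = p
    · rw [h, Function.update_self, if_pos rfl, one_mul]
      exact dist_triangle _ _ _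
    · rw [Function.update_of_ne h, if_neg h, zero_mul, add_zero]
  -- the positive part
  set S := ∑ v, max (cnt π v - 1) 0 with hS
  have hk1 : (1:ℝ) ≤ Fintype.card V := by exact_mod_cast Fintype.card_pos
  set k : ℝ := (Fintype.card V : ℝ) with hk
  have hS0 : 0 ≤ S := Finset.sum_nonneg fun v _ => le_max_right _ _
  have hSp : max (cnt π p - 1) 0 ≤ S :=
    Finset.single_le_sum (f := fun v => max (cnt π v - 1) 0) (fun v _ => le_max_right _ _)
      (Finset.mem_univ p)
  have hSk : S ≤ k - 1 := by
    -- pick an occupied site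
    have hJn : Nonempty J := by
      rw [← Fintype.card_pos_iff, hJ]; exact Fintype.card_pos
    obtain ⟨j₀⟩ := hJn
    have ho : 1 ≤ cnt π (π j₀) := by
      rw [cnt]
      have := Finset.single_le_sum (f := fun j => if π j = π j₀ then (1:ℝ) else 0)
        (fun j _ => by split_ifs <;> norm_num) (Finset.mem_univ j₀)
      simpa using this
    rw [hS, ← Finset.add_sum_erase _ _ (Finset.mem_univ (π j₀)), max_eq_left (by linarith)]
    have h3 : ∑ v ∈ Finset.univ.erase (π j₀), max (cnt π v - 1) 0
        ≤ ∑ v ∈ Finset.univ.erase (π j₀), cnt π v :=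
      Finset.sum_le_sum fun v _ => max_le (by linarith [cnt_nonneg π v]) (cnt_nonneg π v)
    have h4 : cnt π (π j₀) + ∑ v ∈ Finset.univ.erase (π j₀), cnt π v = k := by
      rw [Finset.add_sum_erase _ _ (Finset.mem_univ (π j₀)), hn]
    linarith
  have hm0 := cnt_nonneg π p
  have hmk : cnt π p ≤ k := by rw [hk, ← hJ]; exact cnt_le π p
  set m := cnt π p with hm
  -- numeric bound
  have hnum : S ^ 2 + (S - max (m - 1) 0) ^ 2 + 4 * S + (k + 2) * m ≤ 2 * k ^ 2 + 4 * k - 3 := by
    rcases le_total 1 m with h | h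
    · rw [max_eq_left (by linarith)] at hSp ⊢
      have a1 : S ^ 2 ≤ (k - 1) ^ 2 := pow_le_pow_left₀ hS0 hSk 2
      have a2 : (S - (m - 1)) ^ 2 ≤ (k - m) ^ 2 :=
        pow_le_pow_left₀ (by linarith) (by linarith) 2
      nlinarith [mul_nonneg (sub_nonneg.2 hmk) (show (0:ℝ) ≤ m + 2 by linarith)]
    · rw [max_eq_right (by linarith)]
      -- `m` is an integer, hence `0` or `1`
      obtain ⟨c, hc⟩ : ∃ c : ℕ, m = c := by
        refine ⟨∑ j, if π j = p then 1 else 0, ?_⟩
        rw [hm, cnt]; push_cast; rfl
      have hc1 : c ≤ 1 := by exact_mod_cast hc ▸ h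
      have a1 : S ^ 2 ≤ (k - 1) ^ 2 := pow_le_pow_left₀ hS0 hSk 2
      interval_cases c
      · rw [hc]; push_cast; nlinarith
      · rw [hc]; push_cast; nlinarith
  have h5 := mul_le_mul_of_nonneg_left hnum hδ0
  have hK0 : (0:ℝ) ≤ k + 2 := by linarith
  have h6 := mul_le_mul_of_nonneg_left h2 hK0
  nlinarith

end Pool.Agent.Lib.MP_af7143_lc
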