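import Pool.Agent.Lib.MP_af7143_lc.Lip
import Pool.Agent.Lib.MP_af7143_lc.Potential
import Pool.Agent.Lib.MP_af7143_lc.OneHit

/-! Change of the potential `FF` when all sites move at once, or when tokens are reassigned. -/

set_option autoImplicit false

open Finset

namespace Pool.Agent.Lib.MP_af7143_lc

variable {V : Type*} [Fintype V] [DecidableEq V] {J : Type*} [Fintype J] [DecidableEq J]
  {N : Type*} [MetricSpace N]

/-- comparison of energies when all sites move. -/
theorem En_move_le {z z' : V → N} (hz : Function.Injective z) (hz' : Function.Injective z')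
    {q : V → ℝ} (hq : ∑ v, q v = 0) :
    En z' q ≤ En z q + ∑ p, dist (z p) (z' p) * ((∑ v, max (q v) 0) ^ 2
          + (∑ v, max (q v) 0 - max (q p) 0) ^ 2) := by
  set f := green z q with hf
  set f' := green z' q with hf'
  set δ : V → ℝ := fun p => dist (z p) (z' p) with hδ
  have hL : ∀ u, Lap z f u = q u := Lap_green_zero hz hq
  have hL' : ∀ u, Lap z' f' u = q u := Lap_green_zero hz' hq
  have e1 : En z' q = (1/2) * ∑ u, ∑ v, cond z u v * ((f' u - f' v) * (f u - f v)) := by
    rw [← sum_mul_Lap, En]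
    exact Finset.sum_congr rfl fun u _ => by rw [hL]; ring
  have e2 : En z' q = (1/2) * ∑ u, ∑ v, cond z' u v * ((f' u - f' v) * (f' u - f' v)) := by
    rw [← sum_mul_Lap, En]
    exact Finset.sum_congr rfl fun u _ => by rw [hL']; ring
  have e3 : En z q = (1/2) * ∑ u, ∑ v, cond z u v * ((f u - f v) * (f u - f v)) := by
    rw [← sum_mul_Lap, En]
    exact Finset.sum_congr rfl fun u _ => by rw [hL]; ring
  have key : ∀ u v, 2 * (cond z u v * ((f' u - f' v) * (f u - f v)))
      ≤ cond z u v * ((f u - f v) * (f u - f v))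
        + cond z' u v * ((f' u - f' v) * (f' u - f' v))
        + (δ u * (cond z u v * (f u - f v)) ^ 2 + δ v * (cond z u v * (f u - f v)) ^ 2) := by
    intro u v
    by_cases huv : u = v
    · subst huv; simp
    · have hc := cond_mul_dist hz huv
      have hc' := cond_mul_dist hz' huv
      have hcp' := cond_nonneg z' u v
      have hd : dist (z' u) (z' v) ≤ dist (z u) (z v) + δ u + δ v := by
        have t1 := dist_triangle (z' u) (z u) (z' v)
        have t2 := dist_triangle (z u) (z v) (z' v)
        rw [dist_comm (z' u) (z u)] at t1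
        simp only [hδ]
        linarith
      set θ := cond z u v * (f u - f v) with hθ
      have h1 : 2 * (θ * (f' u - f' v)) ≤ dist (z' u) (z' v) * θ ^ 2
          + cond z' u v * (f' u - f' v) ^ 2 := by
        have h2 : 0 ≤ cond z' u v * (dist (z' u) (z' v) * θ - (f' u - f' v)) ^ 2 :=
          mul_nonneg hcp' (sq_nonneg _)
        have h3 : cond z' u v * (dist (z' u) (z' v) * θ - (f' u - f' v)) ^ 2
            = dist (z' u) (z' v) * θ ^ 2 - 2 * (θ * (f' u - f' v))
              + cond z' u v * (f' u - f' v) ^ 2 := by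
          linear_combination (dist (z' u) (z' v) * θ ^ 2 - 2 * (θ * (f' u - f' v))) * hc'
        linarith
      have h5 := mul_le_mul_of_nonneg_right hd (sq_nonneg θ)
      have h6 : dist (z u) (z v) * θ ^ 2 = cond z u v * ((f u - f v) * (f u - f v)) := by
        rw [hθ]
        linear_combination (cond z u v * (f u - f v) ^ 2) * hc
      have h7 : cond z u v * ((f' u - f' v) * (f u - f v)) = θ * (f' u - f' v) := by
        rw [hθ]; ring
      rw [h7]
      nlinarith
  have hsum := Finset.sum_le_sum fun u (_ : u ∈ (Finset.univ : Finset V)) =>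
    Finset.sum_le_sum fun v (_ : v ∈ (Finset.univ : Finset V)) => key u v
  simp only [Finset.sum_add_distrib] at hsum
  have s1 : ∑ u, ∑ v, 2 * (cond z u v * ((f' u - f' v) * (f u - f v))) = 4 * En z' q := by
    rw [e1]
    simp only [← Finset.mul_sum]; ring
  have s2 : ∑ u, ∑ v, δ u * (cond z u v * (f u - f v)) ^ 2
      = ∑ p, δ p * ∑ v, (cond z p v * (f p - f v)) ^ 2 :=
    Finset.sum_congr rfl fun u _ => by rw [Finset.mul_sum]
  have s3 : ∑ u, ∑ v, δ v * (cond z u v * (f u - f v)) ^ 2
      = ∑ p, δ p * ∑ v, (cond z p v * (f p - f v)) ^ 2 := by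
    rw [Finset.sum_comm]
    refine Finset.sum_congr rfl fun u _ => ?_
    rw [Finset.mul_sum]
    refine Finset.sum_congr rfl fun v _ => ?_
    rw [cond_comm z v u]; ring
  rw [s1, s2, s3] at hsum
  have h9 : ∑ p, δ p * ∑ v, (cond z p v * (f p - f v)) ^ 2
      ≤ ∑ p, δ p * ((∑ v, max (q v) 0) ^ 2 + (∑ v, max (q v) 0 - max (q p) 0) ^ 2) := by
    refine Finset.sum_le_sum fun p _ => ?_
    have h8 := sq_flow_le z f p
    simp only [hL] at h8
    exact mul_le_mul_of_nonneg_left h8 dist_nonneg
  have e2' : ∑ u, ∑ v, cond z' u v * ((f' u - f' v) * (f' u - f' v)) = 2 * En z' q := by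
    rw [e2]; ring
  have e3' : ∑ u, ∑ v, cond z u v * ((f u - f v) * (f u - f v)) = 2 * En z q := by
    rw [e3]; ring
  rw [e2', e3'] at hsum
  linarith

theorem En_cs_move_le {z z' : V → N} (hz : Function.Injective z) (hz' : Function.Injective z')
    (v : V) : En z' (cs v) ≤ En z (cs v) + 2 * ∑ p, dist (z p) (z' p) := by
  have h := En_move_le hz hz' (sum_cs v)
  have h1 := sum_max_cs_le v
  have h2 : (0:ℝ) ≤ ∑ u, max (cs v u) 0 := Finset.sum_nonneg fun u _ => le_max_right _ _
  have h5 : ∑ p, dist (z p) (z' p) * ((∑ u, max (cs v u) 0) ^ 2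
      + (∑ u, max (cs v u) 0 - max (cs v p) 0) ^ 2) ≤ 2 * ∑ p, dist (z p) (z' p) := by
    rw [Finset.mul_sum]
    refine Finset.sum_le_sum fun p _ => ?_
    have h3 : max (cs v p) 0 ≤ ∑ u, max (cs v u) 0 :=
      Finset.single_le_sum (f := fun u => max (cs v u) 0) (fun u _ => le_max_right _ _)
        (Finset.mem_univ p)
    have h4 : (0:ℝ) ≤ max (cs v p) 0 := le_max_right _ _
    have h6 : (∑ u, max (cs v u) 0) ^ 2 + (∑ u, max (cs v u) 0 - max (cs v p) 0) ^ 2 ≤ 2 := by
      nlinarith
    have h7 := mul_le_mul_of_nonneg_left h6 (dist_nonneg (x := z p) (y := z' p))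
    linarith
  linarith

theorem abs_diag_move_le {z z' : V → N} (hz : Function.Injective z)
    (hz' : Function.Injective z') (v : V) :
    |green z' (Pi.single v 1) v - green z (Pi.single v 1) v| ≤ 2 * ∑ p, dist (z p) (z' p) := by
  rw [diag_eq hz', diag_eq hz]
  have h1 := En_cs_move_le hz hz' v
  have h2 := En_cs_move_le hz' hz v
  have h3 : ∑ p, dist (z' p) (z p) = ∑ p, dist (z p) (z' p) :=
    Finset.sum_congr rfl fun p _ => dist_comm _ _
  rw [h3] at h2
  rw [abs_le]; constructor <;> linarith

/-- change of `FF` when all sites move. -/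
theorem FF_move_le {z z' : V → N} (hz : Function.Injective z) (hz' : Function.Injective z')
    (n : V → ℝ) (hn : ∑ v, n v = Fintype.card V) :
    FF z' n ≤ FF z n + ∑ p, dist (z p) (z' p) *
      ((∑ v, max (n v - 1) 0) ^ 2 + (∑ v, max (n v - 1) 0 - max (n p - 1) 0) ^ 2
        + 4 * ∑ v, max (n v - 1) 0) := by
  have hq : ∑ v, (n v - 1) = 0 := by
    rw [Finset.sum_sub_distrib, hn]; simp
  have h1 := En_move_le hz hz' hq
  set Δ := ∑ p, dist (z p) (z' p) with hΔ
  have h2 : ∀ v, (n v - 1) * green z' (Pi.single v 1) v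
      ≤ (n v - 1) * green z (Pi.single v 1) v + 2 * Δ * |n v - 1| := by
    intro v
    have h3 := abs_diag_move_le hz hz' v
    have h4 : (n v - 1) * (green z' (Pi.single v 1) v
        - green z (Pi.single v 1) v) ≤ |n v - 1| * (2 * Δ) := by
      refine (le_abs_self _).trans ?_
      rw [abs_mul]
      exact mul_le_mul_of_nonneg_left h3 (abs_nonneg _)
    nlinarith
  have h5 := Finset.sum_le_sum fun v (_ : v ∈ (Finset.univ : Finset V)) => h2 v
  rw [Finset.sum_add_distrib, ← Finset.mul_sum] at h5
  have h6 : ∑ v, |n v - 1| = 2 * ∑ v, max (n v - 1) 0 := by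
    have : ∀ v, |n v - 1| = 2 * max (n v - 1) 0 - (n v - 1) := by
      intro v
      rcases le_total 0 (n v - 1) with h | h
      · rw [abs_of_nonneg h, max_eq_left h]; ring
      · rw [abs_of_nonpos h, max_eq_right h]; ring
    rw [Finset.sum_congr rfl fun v _ => this v, Finset.sum_sub_distrib, hq, ← Finset.mul_sum]
    ring
  rw [h6] at h5
  have e1 : FF z' n = En z' (fun v => n v - 1)
      + ∑ v, (n v - 1) * green z' (Pi.single v 1) v := rfl
  have e2 : FF z n = En z (fun v => n v - 1)
      + ∑ v, (n v - 1) * green z (Pi.single v 1) v := rfl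
  have e3 : ∑ p, dist (z p) (z' p) *
      ((∑ v, max (n v - 1) 0) ^ 2 + (∑ v, max (n v - 1) 0 - max (n p - 1) 0) ^ 2
        + 4 * ∑ v, max (n v - 1) 0)
      = ∑ p, dist (z p) (z' p) *
      ((∑ v, max (n v - 1) 0) ^ 2 + (∑ v, max (n v - 1) 0 - max (n p - 1) 0) ^ 2)
        + Δ * (4 * ∑ v, max (n v - 1) 0) := by
    rw [hΔ, Finset.sum_mul, ← Finset.sum_add_distrib]
    exact Finset.sum_congr rfl fun p _ => by ring
  rw [e1, e2, e3]
  linarith

/-- currents are bounded by the total positive source -/
theorem current_le {z : V → N} (hz : Function.Injective z) (f : V → ℝ) (u v : V) :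
    f u - f v ≤ (∑ w, max (Lap z f w) 0) * dist (z u) (z v) := by
  rcases eq_or_ne u v with h | h
  · rw [h]
    simp
  · have h1 : max (cond z u v * (f u - f v)) 0 ≤ ∑ w, max (Lap z f w) 0 :=
      (Finset.single_le_sum (f := fun w => max (cond z u w * (f u - f w)) 0)
        (fun w _ => le_max_right _ _) (Finset.mem_univ v)).trans (out_le z f u)
    have h2 : cond z u v * (f u - f v) ≤ ∑ w, max (Lap z f w) 0 := (le_max_left _ _).trans h1
    have h3 := mul_le_mul_of_nonneg_right h2 (dist_nonneg (x := z u) (y := z v))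
    have h4 : cond z u v * (f u - f v) * dist (z u) (z v) = f u - f v := by
      linear_combination (f u - f v) * cond_mul_dist hz h
    linarith

/-- the increment of `FF` when one token moves from `v` to `a` -/
theorem psi_sub_le {z : V → N} (hz : Function.Injective z) (n : V → ℝ)
    (hn : ∑ v, n v = Fintype.card V) (a u v : V) :
    psi z n a u - psi z n a v
      ≤ (∑ w, max (n w - 1 + Pi.single (M := fun _ => ℝ) a 1 w) 0) * dist (z u) (z v) := by
  have : Nonempty V := ⟨a⟩
  have hc : (0:ℝ) < (Fintype.card V : ℝ) := by exact_mod_cast Fintype.card_pos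
  refine (current_le hz (psi z n a) u v).trans
    (mul_le_mul_of_nonneg_right ?_ dist_nonneg)
  have hL : ∀ w, Lap z (psi z n a) w
      = n w - 1 + Pi.single (M := fun _ => ℝ) a 1 w - 1 / (Fintype.card V : ℝ) := by
    intro w
    rw [psi, Lap_green hz]
    congr 2
    rw [Finset.sum_add_distrib, Finset.sum_sub_distrib, hn]
    simp
  refine Finset.sum_le_sum fun w _ => ?_
  rw [hL]
  have h3 : (0:ℝ) < 1 / (Fintype.card V : ℝ) := by positivity
  exact max_le_max (by linarith) le_rfl

/-- differences of the diagonal of the Green function -/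
theorem diag_sub_le {z : V → N} (hz : Function.Injective z) (a v : V) :
    green z (Pi.single a 1) a - green z (Pi.single v 1) v ≤ dist (z a) (z v) := by
  have : Nonempty V := ⟨a⟩
  have hc : (0:ℝ) < (Fintype.card V : ℝ) := by exact_mod_cast Fintype.card_pos
  have hL : ∀ b w, Lap z (green z (Pi.single b 1)) w
      = Pi.single (M := fun _ => ℝ) b 1 w - 1 / (Fintype.card V : ℝ) := by
    intro b w
    rw [Lap_green hz]
    simp
  have h1 : ∑ w, Pi.single (M := fun _ => ℝ) a 1 w = (1:ℝ) := by simp
  have h2 : green z (Pi.single a 1) a - green z (Pi.single a 1) v ≤ dist (z a) (z v) := by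
    refine (current_le hz (green z (Pi.single a 1)) a v).trans ?_
    have h3 : ∑ w, max (Lap z (green z (Pi.single a 1)) w) 0 ≤ 1 := by
      refine le_trans ?_ h1.le
      refine Finset.sum_le_sum fun w _ => ?_
      rw [hL]
      have h4 : (0:ℝ) ≤ Pi.single (M := fun _ => ℝ) a 1 w := by
        rw [Pi.single_apply]
        split_ifs <;> norm_num
      have h5 : (0:ℝ) < 1 / (Fintype.card V : ℝ) := by positivity
      exact max_le (by linarith) h4
    have := mul_le_mul_of_nonneg_right h3 (dist_nonneg (x := z a) (y := z v))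
    linarith
  have h3 : green z (Pi.single v 1) a ≤ green z (Pi.single v 1) v := by
    have h4 := minp hz (h := fun w => green z (Pi.single v 1) v - green z (Pi.single v 1) w)
      (v := v) (fun w hw => ?_) (sub_self _).ge a
    · exact sub_nonneg.1 h4
    · have h5 := Lap_sub z (fun _ => green z (Pi.single v 1) v) (green z (Pi.single v 1)) w
      rw [h5, Lap_const, hL, Pi.single_eq_of_ne hw]
      have : (0:ℝ) < 1 / (Fintype.card V : ℝ) := by positivity
      linarith
  have h4 : green z (Pi.single a 1) v = green z (Pi.single v 1) a := by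
    have := green_symm hz (Pi.single (M := fun _ => ℝ) v 1) (Pi.single (M := fun _ => ℝ) a 1)
    simpa [Pi.single_apply] using this
  linarith

omit [DecidableEq V] in
theorem En_nonneg {z : V → N} (hz : Function.Injective z) {q : V → ℝ} (hq : ∑ v, q v = 0) :
    0 ≤ En z q := by
  have e3 : En z q = (1/2) * ∑ u, ∑ v, cond z u v
      * ((green z q u - green z q v) * (green z q u - green z q v)) := by
    rw [← sum_mul_Lap, En]
    exact Finset.sum_congr rfl fun u _ => by rw [Lap_green_zero hz hq]; ring
  rw [e3]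
  refine mul_nonneg (by norm_num) (Finset.sum_nonneg fun u _ => Finset.sum_nonneg fun v _ =>
    mul_nonneg (cond_nonneg z u v) (mul_self_nonneg _))

omit [DecidableEq J] in
/-- change of `FF` when tokens are reassigned -/
theorem FF_reassign_le {z : V → N} (hz : Function.Injective z)
    (hJ : Fintype.card J = Fintype.card V) (π π' : J → V) :
    FF z (cnt π') ≤ FF z (cnt π)
      + (2 * ∑ v, max (cnt π' v - 1) 0 + 1) * ∑ j, dist (z (π' j)) (z (π j)) := by
  set ρ : V → ℝ := fun v => cnt π v - 1 with hρ
  set ρ' : V → ℝ := fun v => cnt π' v - 1 with hρ'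
  have hs : ∑ v, ρ v = 0 := by
    rw [hρ]; simp only
    rw [Finset.sum_sub_distrib, sum_cnt, hJ]; simp
  have hs' : ∑ v, ρ' v = 0 := by
    rw [hρ']; simp only
    rw [Finset.sum_sub_distrib, sum_cnt, hJ]; simp
  have e1 : FF z (cnt π') = En z ρ' + ∑ v, ρ' v * green z (Pi.single v 1) v := rfl
  have e2 : FF z (cnt π) = En z ρ + ∑ v, ρ v * green z (Pi.single v 1) v := rfl
  have hν : ∑ v, (ρ' - ρ) v = 0 := by
    simp only [Pi.sub_apply, Finset.sum_sub_distrib, hs, hs', sub_self]
  have h1 := En_nonneg hz hν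
  have h2 : En z (ρ' - ρ) = En z ρ + En z ρ' - 2 * ∑ v, ρ v * green z ρ' v := by
    have h3 : ∑ v, ρ' v * green z ρ v = ∑ v, ρ v * green z ρ' v := green_symm hz ρ' ρ
    have h4 : En z (ρ' - ρ) = ∑ v, (ρ' v * green z ρ' v - ρ' v * green z ρ v
        - ρ v * green z ρ' v + ρ v * green z ρ v) := by
      rw [En, map_sub]
      refine Finset.sum_congr rfl fun v _ => ?_
      simp only [Pi.sub_apply]
      ring
    rw [h4, Finset.sum_add_distrib, Finset.sum_sub_distrib, Finset.sum_sub_distrib, h3, En, En]
    ring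
  have h3 : En z ρ' - En z ρ ≤ 2 * ∑ v, (cnt π' v - cnt π v) * green z ρ' v := by
    have h4 : ∑ v, (cnt π' v - cnt π v) * green z ρ' v
        = En z ρ' - ∑ v, ρ v * green z ρ' v := by
      rw [En, ← Finset.sum_sub_distrib]
      refine Finset.sum_congr rfl fun v _ => ?_
      simp only [hρ, hρ']
      ring
    rw [h4]
    linarith
  have h4 : ∑ v, (cnt π' v - cnt π v) * green z ρ' v
      = ∑ j, (green z ρ' (π' j) - green z ρ' (π j)) := by
    simp only [sub_mul]
    rw [Finset.sum_sub_distrib, Finset.sum_sub_distrib, sum_cnt_mul, sum_cnt_mul]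
  have h5 : ∑ j, (green z ρ' (π' j) - green z ρ' (π j))
      ≤ (∑ v, max (ρ' v) 0) * ∑ j, dist (z (π' j)) (z (π j)) := by
    rw [Finset.mul_sum]
    refine Finset.sum_le_sum fun j _ => ?_
    have h6 := current_le hz (green z ρ') (π' j) (π j)
    simp only [Lap_green_zero hz hs'] at h6
    exact h6
  have h6 : ∑ v, ρ' v * green z (Pi.single v 1) v - ∑ v, ρ v * green z (Pi.single v 1) v
      ≤ ∑ j, dist (z (π' j)) (z (π j)) := by
    have h7 : ∑ v, ρ' v * green z (Pi.single v 1) v - ∑ v, ρ v * green z (Pi.single v 1) v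
        = ∑ j, (green z (Pi.single (π' j) 1) (π' j) - green z (Pi.single (π j) 1) (π j)) := by
      rw [Finset.sum_sub_distrib, ← sum_cnt_mul π' fun v => green z (Pi.single v 1) v,
        ← sum_cnt_mul π fun v => green z (Pi.single v 1) v, ← Finset.sum_sub_distrib,
        ← Finset.sum_sub_distrib]
      refine Finset.sum_congr rfl fun v _ => ?_
      simp only [hρ, hρ']
      ring
    rw [h7]
    exact Finset.sum_le_sum fun j _ => diag_sub_le hz _ _
  rw [e1, e2]
  rw [h4] at h3
  nlinarith

end Pool.Agent.Lib.MP_af7143_lc
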