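import Pool.Agent.Lib.MP_af7143_lc.Green

/-! The core inequality for the drift of the quadratic potential. -/

set_option autoImplicit false

open Finset

namespace Pool.Agent.Lib.MP_af7143_lc

variable {V : Type*} [Fintype V] [DecidableEq V] {N : Type*} [MetricSpace N]

omit [Fintype V] in
/-- the pairwise inequality: `Y = ∑ y`, for `y` supported off `a`. -/
theorem pair_ineq {z : V → N} (hz : Function.Injective z) (a : V) (y : V → ℝ) (hya : y a = 0)
    (u v : V) :
    -(y u * y v) + (if u = v then y u ^ 2 else 0) + (if u = a then y v ^ 2 else 0)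
        + (if v = a then y u ^ 2 else 0)
      ≤ cond z u v * ((y u - y v) * (dist (z u) (z a) * y u - dist (z v) (z a) * y v)) := by
  by_cases huv : u = v
  · subst huv
    by_cases hua : u = a
    · subst hua; simp [hya]
    · simp [hua]; nlinarith
  · have hc := cond_mul_dist hz huv
    have hcp := cond_pos hz huv
    by_cases hua : u = a
    · subst hua
      have hvu : v ≠ u := fun e => huv e.symm
      simp only [huv, if_false, if_true, hvu, hya, dist_self]
      have : cond z u v * ((0 - y v) * (0 * 0 - dist (z v) (z u) * y v)) = y v ^ 2 := by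
        rw [dist_comm (z v) (z u)]
        linear_combination (y v ^ 2) * hc
      rw [this]; simp
    · by_cases hva : v = a
      · subst hva
        simp only [huv, if_false, if_true, hya, dist_self]
        have : cond z u v * ((y u - 0) * (dist (z u) (z v) * y u - 0 * 0)) = y u ^ 2 := by
          linear_combination (y u ^ 2) * hc
        rw [this]; simp
      · simp only [huv, hua, hva, if_false, add_zero]
        set A := dist (z u) (z a) with hA
        set B := dist (z v) (z a) with hB
        set D := dist (z u) (z v) with hD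
        have t1 : A ≤ D + B := dist_triangle _ _ _
        have t2 : B ≤ D + A := by
          have := dist_triangle (z v) (z u) (z a)
          rwa [dist_comm (z v) (z u)] at this
        have t3 : D ≤ A + B := by
          have := dist_triangle (z u) (z a) (z v)
          rwa [dist_comm (z a) (z v)] at this
        have hA0 : 0 ≤ A := dist_nonneg
        have hB0 : 0 ≤ B := dist_nonneg
        -- `A yu² + B yv² ≥ (A+B-D) yu yv`
        have key : (A + B - D) * (y u * y v) ≤ A * y u ^ 2 + B * y v ^ 2 := by
          rcases le_total 0 (y u * y v) with h | h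
          · rcases le_total A B with hAB | hAB
            · nlinarith [mul_nonneg hA0 (sq_nonneg (y u - y v)),
                mul_nonneg (sub_nonneg.2 hAB) (sq_nonneg (y v)),
                mul_nonneg (show 0 ≤ 2 * A - (A + B - D) by linarith) h]
            · nlinarith [mul_nonneg hB0 (sq_nonneg (y u - y v)),
                mul_nonneg (sub_nonneg.2 hAB) (sq_nonneg (y u)),
                mul_nonneg (show 0 ≤ 2 * B - (A + B - D) by linarith) h]
          · nlinarith [mul_nonneg hA0 (sq_nonneg (y u)), mul_nonneg hB0 (sq_nonneg (y v)),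
              mul_nonneg (sub_nonneg.2 t3) (neg_nonneg.2 h)]
        have h2 : -(D * (y u * y v)) ≤ (y u - y v) * (A * y u - B * y v) := by nlinarith
        have h3 := mul_le_mul_of_nonneg_left h2 hcp.le
        calc -(y u * y v) = cond z u v * (-(D * (y u * y v))) := by
              linear_combination (y u * y v) * hc
          _ ≤ _ := h3

/-- summed form -/
theorem sum_pair_ineq {z : V → N} (hz : Function.Injective z) (a : V) (y : V → ℝ)
    (hya : y a = 0) :
    3 * ∑ v, y v ^ 2 - (∑ v, y v) ^ 2
      ≤ ∑ u, ∑ v, cond z u v *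
          ((y u - y v) * (dist (z u) (z a) * y u - dist (z v) (z a) * y v)) := by
  have h1 := Finset.sum_le_sum fun u (_ : u ∈ (Finset.univ : Finset V)) =>
    Finset.sum_le_sum fun v (_ : v ∈ (Finset.univ : Finset V)) => pair_ineq hz a y hya u v
  refine le_trans (le_of_eq ?_) h1
  simp only [Finset.sum_add_distrib, Finset.sum_neg_distrib]
  have e1 : ∑ u, ∑ v, y u * y v = (∑ v, y v) ^ 2 := by
    rw [sq, Finset.sum_mul_sum]
  have e2 : ∑ u, ∑ v, (if u = v then y u ^ 2 else 0) = ∑ v, y v ^ 2 := by simp
  have e3 : ∑ u, ∑ v, (if u = a then y v ^ 2 else 0) = ∑ v, y v ^ 2 := by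
    rw [Finset.sum_comm]; simp
  have e4 : ∑ u, ∑ v, (if v = a then y u ^ 2 else 0) = ∑ v, y v ^ 2 := by simp
  rw [e1, e2, e3, e4]; ring

/-- the potential of an occupation vector. -/
noncomputable def FF (z : V → N) (n : V → ℝ) : ℝ :=
  ∑ v, (n v - 1) * green z (fun u => n u - 1) v
    + ∑ v, (n v - 1) * green z (Pi.single v 1) v

/-- the potential function of the network governing increments towards `a`. -/
noncomputable def psi (z : V → N) (n : V → ℝ) (a : V) : V → ℝ :=
  green z (fun u => n u - 1 + Pi.single (M := fun _ => ℝ) a 1 u)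

theorem psi_eq (z : V → N) (n : V → ℝ) (a v : V) :
    psi z n a v = green z (fun u => n u - 1) v + green z (Pi.single a 1) v := by
  have : (fun u => n u - 1 + Pi.single (M := fun _ => ℝ) a 1 u)
      = (fun u => n u - 1) + Pi.single (M := fun _ => ℝ) a 1 := by
    funext u; rfl
  rw [psi, this, map_add]; rfl

theorem green_single_symm {z : V → N} (hz : Function.Injective z) (q : V → ℝ) (v : V) :
    green z q v = ∑ u, q u * green z (Pi.single v 1) u := by
  rw [← green_symm hz]
  simp [Pi.single_apply]

theorem FF_move {z : V → N} (hz : Function.Injective z) (n : V → ℝ) (v a : V) :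
    FF z (fun u => n u + Pi.single (M := fun _ => ℝ) a 1 u - Pi.single (M := fun _ => ℝ) v 1 u)
      - FF z n = 2 * (psi z n a a - psi z n a v) := by
  set ρ : V → ℝ := fun u => n u - 1 with hρ
  set δa : V → ℝ := Pi.single (M := fun _ => ℝ) a 1 with hδa
  set δv : V → ℝ := Pi.single (M := fun _ => ℝ) v 1 with hδv
  have hρ' : (fun u => (n u + δa u - δv u) - 1) = ρ + (δa - δv) := by
    funext u; simp [hρ]; ring
  have sa : ∀ f : V → ℝ, ∑ u, δa u * f u = f a := by
    intro f; simp [hδa, Pi.single_apply]
  have sv : ∀ f : V → ℝ, ∑ u, δv u * f u = f v := by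
    intro f; simp [hδv, Pi.single_apply]
  have e1 : FF z (fun u => n u + δa u - δv u)
      = ∑ w, (ρ w + δa w - δv w) * green z (ρ + (δa - δv)) w
        + ∑ w, (ρ w + δa w - δv w) * green z (Pi.single w 1) w := by
    rw [FF, hρ']
    have hw : ∀ w, n w + δa w - δv w - 1 = ρ w + δa w - δv w := fun w => by
      simp only [hρ]; ring
    congr 1
    · exact Finset.sum_congr rfl fun w _ => by rw [hw]
    · exact Finset.sum_congr rfl fun w _ => by rw [hw]
  have e2 : FF z n = ∑ w, ρ w * green z ρ w + ∑ w, ρ w * green z (Pi.single w 1) w := rfl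
  have e3 : ∑ w, (ρ w + δa w - δv w) * green z (Pi.single w 1) w
      = ∑ w, ρ w * green z (Pi.single w 1) w + green z δa a - green z δv v := by
    simp only [add_mul, sub_mul, Finset.sum_add_distrib, Finset.sum_sub_distrib]
    rw [sa (fun w => green z (Pi.single w 1) w), sv (fun w => green z (Pi.single w 1) w)]
  have e4 : ∑ w, (ρ w + δa w - δv w) * green z (ρ + (δa - δv)) w
      = ∑ w, ρ w * green z ρ w + 2 * (green z ρ a - green z ρ v)
        + (green z δa a - green z δv a - green z δa v + green z δv v) := by
    rw [map_add, map_sub]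
    simp only [Pi.add_apply, Pi.sub_apply]
    have hsplit : ∀ w, (ρ w + δa w - δv w) * (green z ρ w + (green z δa w - green z δv w))
        = ρ w * green z ρ w + (ρ w * green z δa w - ρ w * green z δv w)
          + (δa w * (green z ρ w + green z δa w - green z δv w)
            - δv w * (green z ρ w + green z δa w - green z δv w)) := fun w => by ring
    rw [Finset.sum_congr rfl fun w _ => hsplit w]
    simp only [Finset.sum_add_distrib, Finset.sum_sub_distrib]
    rw [sa (fun w => green z ρ w + green z δa w - green z δv w),
      sv (fun w => green z ρ w + green z δa w - green z δv w),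
      green_symm hz ρ δa, green_symm hz ρ δv, sa, sv]
    ring
  have e5 : green z δv a = green z δa v := by
    have := green_symm hz δa δv
    rw [sa, sv] at this; exact this
  rw [e1, e2, e3, e4, psi_eq, psi_eq, e5]
  ring

/-- **core inequality**. -/
theorem core {z : V → N} (hz : Function.Injective z) (n : V → ℝ)
    (hn : ∑ v, n v = Fintype.card V) (a : V) :
    (1 + 1 / (Fintype.card V : ℝ)) * (1 / (Fintype.card V : ℝ) - n a)
        - (1 / 2) * (1 / (Fintype.card V : ℝ) - n a) ^ 2
      ≤ ∑ v, n v * ((psi z n a v - psi z n a a) * cond z v a) := by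
  have hne : Nonempty V := ⟨a⟩
  have hc : (Fintype.card V : ℝ) ≠ 0 := by exact_mod_cast Fintype.card_ne_zero
  set k : ℝ := (Fintype.card V : ℝ) with hk
  set ψ := psi z n a with hψ
  set y : V → ℝ := fun v => (ψ v - ψ a) * cond z v a with hy
  have hya : y a = 0 := by simp [hy]
  -- Laplacian of ψ
  have hL : ∀ v, Lap z ψ v = n v - 1 + Pi.single (M := fun _ => ℝ) a 1 v - 1 / k := by
    intro v
    rw [hψ, psi, Lap_green hz]
    congr 2
    rw [Finset.sum_add_distrib, Finset.sum_sub_distrib, hn]
    simp [hk]
  have hY : ∑ v, y v = 1 / k - n a := by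
    have h1 := hL a
    rw [Pi.single_eq_same] at h1
    have h2 : Lap z ψ a = - ∑ v, y v := by
      rw [Lap, ← Finset.sum_neg_distrib]
      refine Finset.sum_congr rfl fun v _ => ?_
      simp only [hy]; rw [cond_comm z a v]; ring
    linarith
  have hD : ∀ v, dist (z v) (z a) * y v = ψ v - ψ a := by
    intro v
    by_cases hva : v = a
    · subst hva; simp
    · simp only [hy]
      have := cond_mul_dist hz hva
      linear_combination (ψ v - ψ a) * this
  have h1 : ∑ v, y v * Lap z ψ v
      = (1/2) * ∑ u, ∑ v, cond z u v *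
          ((y u - y v) * (dist (z u) (z a) * y u - dist (z v) (z a) * y v)) := by
    rw [sum_mul_Lap]
    congr 1
    refine Finset.sum_congr rfl fun u _ => Finset.sum_congr rfl fun v _ => ?_
    rw [hD, hD]; ring
  have h2 := sum_pair_ineq hz a y hya
  have h3 : ∑ v, n v * y v = ∑ v, y v * Lap z ψ v + (1 + 1 / k) * ∑ v, y v := by
    rw [Finset.mul_sum, ← Finset.sum_add_distrib]
    refine Finset.sum_congr rfl fun v _ => ?_
    rw [hL]
    by_cases hva : v = a
    · subst hva; rw [hya]; ring
    · rw [Pi.single_eq_of_ne hva]; ring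
  have h4 : 0 ≤ ∑ v, y v ^ 2 := Finset.sum_nonneg fun v _ => sq_nonneg _
  change _ ≤ ∑ v, n v * y v
  rw [h3, h1, hY]
  rw [hY] at h2
  nlinarith

end Pool.Agent.Lib.MP_af7143_lc
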