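import Pool.Agent.Lib.MP_af7143_lc.Core

/-! Level-set bounds for the flow through a vertex, and the change of the energy when one site moves. -/

set_option autoImplicit false

open Finset

namespace Pool.Agent.Lib.MP_af7143_lc

variable {V : Type*} [Fintype V] [DecidableEq V] {N : Type*} [MetricSpace N]

/-- net flow out of `U`. -/
theorem cut_eq (z : V → N) (f : V → ℝ) (U : Finset V) :
    ∑ u ∈ U, Lap z f u = ∑ u ∈ U, ∑ v ∈ Uᶜ, cond z u v * (f u - f v) := by
  have h1 : ∀ u, Lap z f u = ∑ v ∈ U, cond z u v * (f u - f v)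
      + ∑ v ∈ Uᶜ, cond z u v * (f u - f v) := fun u => by
    rw [Lap, Finset.sum_add_sum_compl]
  rw [Finset.sum_congr rfl fun u _ => h1 u, Finset.sum_add_distrib]
  have h2 : ∑ u ∈ U, ∑ v ∈ U, cond z u v * (f u - f v) = 0 := by
    have h3 : ∑ u ∈ U, ∑ v ∈ U, cond z u v * (f u - f v)
        = - ∑ u ∈ U, ∑ v ∈ U, cond z u v * (f u - f v) := by
      conv_lhs => rw [Finset.sum_comm]
      rw [← Finset.sum_neg_distrib]
      refine Finset.sum_congr rfl fun u _ => ?_
      rw [← Finset.sum_neg_distrib]
      refine Finset.sum_congr rfl fun v _ => ?_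
      rw [cond_comm z v u]; ring
    linarith
  rw [h2, zero_add]

/-- outflow at `p` is at most the total positive part of the sources. -/
theorem out_le (z : V → N) (f : V → ℝ) (p : V) :
    ∑ v, max (cond z p v * (f p - f v)) 0 ≤ ∑ v, max (Lap z f v) 0 := by
  classical
  set U : Finset V := Finset.univ.filter (fun u => f p ≤ f u) with hU
  have hpU : p ∈ U := by simp [hU]
  have h1 : ∑ v, max (cond z p v * (f p - f v)) 0 = ∑ v ∈ Uᶜ, cond z p v * (f p - f v) := by
    rw [← Finset.sum_add_sum_compl U]
    have e1 : ∑ v ∈ U, max (cond z p v * (f p - f v)) 0 = 0 := by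
      refine Finset.sum_eq_zero fun v hv => ?_
      have : f p ≤ f v := by simpa [hU] using hv
      exact max_eq_right (mul_nonpos_of_nonneg_of_nonpos (cond_nonneg z p v) (by linarith))
    have e2 : ∑ v ∈ Uᶜ, max (cond z p v * (f p - f v)) 0
        = ∑ v ∈ Uᶜ, cond z p v * (f p - f v) := by
      refine Finset.sum_congr rfl fun v hv => ?_
      have : f v < f p := by simpa [hU] using hv
      exact max_eq_left (mul_nonneg (cond_nonneg z p v) (by linarith))
    rw [e1, e2, zero_add]
  have h2 : ∑ v ∈ Uᶜ, cond z p v * (f p - f v) ≤ ∑ u ∈ U, ∑ v ∈ Uᶜ, cond z u v * (f u - f v) := by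
    refine Finset.single_le_sum (f := fun u => ∑ v ∈ Uᶜ, cond z u v * (f u - f v))
      (fun u hu => Finset.sum_nonneg fun v hv => ?_) hpU
    have a1 : f p ≤ f u := by simpa [hU] using hu
    have a2 : f v < f p := by simpa [hU] using hv
    exact mul_nonneg (cond_nonneg z u v) (by linarith)
  have h3 : ∑ u ∈ U, Lap z f u ≤ ∑ v, max (Lap z f v) 0 := by
    calc ∑ u ∈ U, Lap z f u ≤ ∑ u ∈ U, max (Lap z f u) 0 :=
          Finset.sum_le_sum fun u _ => le_max_left _ _
      _ ≤ ∑ u, max (Lap z f u) 0 :=
          Finset.sum_le_sum_of_subset_of_nonneg (Finset.subset_univ _)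
            (fun u _ _ => le_max_right _ _)
  rw [h1]
  exact h2.trans ((cut_eq z f U).symm.le.trans h3)

/-- inflow at `p`. -/
theorem in_le (z : V → N) (f : V → ℝ) (p : V) :
    ∑ v, max (cond z p v * (f v - f p)) 0
      ≤ ∑ v, max (Lap z f v) 0 - max (Lap z f p) 0 := by
  classical
  set U : Finset V := Finset.univ.filter (fun u => f p < f u) with hU
  have hpU : p ∈ Uᶜ := by simp [hU]
  have h1 : ∑ v, max (cond z p v * (f v - f p)) 0 = ∑ v ∈ U, cond z v p * (f v - f p) := by
    rw [← Finset.sum_add_sum_compl U]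
    have e1 : ∑ v ∈ Uᶜ, max (cond z p v * (f v - f p)) 0 = 0 := by
      refine Finset.sum_eq_zero fun v hv => ?_
      have : f v ≤ f p := by simpa [hU] using hv
      exact max_eq_right (mul_nonpos_of_nonneg_of_nonpos (cond_nonneg z p v) (by linarith))
    have e2 : ∑ v ∈ U, max (cond z p v * (f v - f p)) 0
        = ∑ v ∈ U, cond z v p * (f v - f p) := by
      refine Finset.sum_congr rfl fun v hv => ?_
      have : f p < f v := by simpa [hU] using hv
      rw [cond_comm z v p]
      exact max_eq_left (mul_nonneg (cond_nonneg z p v) (by linarith))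
    rw [e1, e2, add_zero]
  have h2 : ∑ u ∈ U, cond z u p * (f u - f p) ≤ ∑ u ∈ U, ∑ v ∈ Uᶜ, cond z u v * (f u - f v) := by
    refine Finset.sum_le_sum fun u hu => ?_
    refine Finset.single_le_sum (f := fun v => cond z u v * (f u - f v)) (fun v hv => ?_) hpU
    have a1 : f p < f u := by simpa [hU] using hu
    have a2 : f v ≤ f p := by simpa [hU] using hv
    exact mul_nonneg (cond_nonneg z u v) (by linarith)
  have h3 : ∑ u ∈ U, Lap z f u ≤ ∑ v, max (Lap z f v) 0 - max (Lap z f p) 0 := by
    have hpn : p ∉ U := by simpa using hpU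
    calc ∑ u ∈ U, Lap z f u ≤ ∑ u ∈ U, max (Lap z f u) 0 :=
          Finset.sum_le_sum fun u _ => le_max_left _ _
      _ ≤ ∑ u ∈ Finset.univ.erase p, max (Lap z f u) 0 :=
          Finset.sum_le_sum_of_subset_of_nonneg
            (fun u hu => Finset.mem_erase.2 ⟨fun e => hpn (e ▸ hu), Finset.mem_univ _⟩)
            (fun u _ _ => le_max_right _ _)
      _ = _ := by
          rw [← Finset.add_sum_erase _ _ (Finset.mem_univ p)]; ring
  rw [h1]
  exact h2.trans ((cut_eq z f U).symm.le.trans h3)

omit [DecidableEq V] in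
theorem sum_sq_le_of_nonneg (t : V → ℝ) (ht : ∀ v, 0 ≤ t v) : ∑ v, t v ^ 2 ≤ (∑ v, t v) ^ 2 := by
  rw [sq (∑ v, t v), Finset.sum_mul]
  refine Finset.sum_le_sum fun v _ => ?_
  rw [sq]
  exact mul_le_mul_of_nonneg_left
    (Finset.single_le_sum (fun u _ => ht u) (Finset.mem_univ v)) (ht v)

/-- the sum of squares of the flows through `p`. -/
theorem sq_flow_le (z : V → N) (f : V → ℝ) (p : V) :
    ∑ v, (cond z p v * (f p - f v)) ^ 2
      ≤ (∑ v, max (Lap z f v) 0) ^ 2 + (∑ v, max (Lap z f v) 0 - max (Lap z f p) 0) ^ 2 := by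
  have h1 : ∀ v, (cond z p v * (f p - f v)) ^ 2
      = (max (cond z p v * (f p - f v)) 0) ^ 2 + (max (cond z p v * (f v - f p)) 0) ^ 2 := by
    intro v
    rcases le_total (f p) (f v) with h | h
    · rw [max_eq_right (mul_nonpos_of_nonneg_of_nonpos (cond_nonneg z p v) (by linarith)),
        max_eq_left (mul_nonneg (cond_nonneg z p v) (by linarith))]
      ring
    · rw [max_eq_left (mul_nonneg (cond_nonneg z p v) (by linarith)),
        max_eq_right (mul_nonpos_of_nonneg_of_nonpos (cond_nonneg z p v) (by linarith))]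
      ring
  rw [Finset.sum_congr rfl fun v _ => h1 v, Finset.sum_add_distrib]
  have a1 : (0:ℝ) ≤ ∑ v, max (cond z p v * (f p - f v)) 0 :=
    Finset.sum_nonneg fun v _ => le_max_right _ _
  have a2 : (0:ℝ) ≤ ∑ v, max (cond z p v * (f v - f p)) 0 :=
    Finset.sum_nonneg fun v _ => le_max_right _ _
  refine add_le_add ?_ ?_
  · exact (sum_sq_le_of_nonneg _ fun v => le_max_right _ _).trans
      (pow_le_pow_left₀ a1 (out_le z f p) 2)
  · exact (sum_sq_le_of_nonneg _ fun v => le_max_right _ _).trans
      (pow_le_pow_left₀ a2 (in_le z f p) 2)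

/-- energy of a source vector. -/
noncomputable def En (z : V → N) (q : V → ℝ) : ℝ := ∑ v, q v * green z q v

omit [DecidableEq V] in
theorem Lap_green_zero {z : V → N} (hz : Function.Injective z) {q : V → ℝ} (hq : ∑ v, q v = 0)
    (u : V) : Lap z (green z q) u = q u := by
  rw [Lap_green hz, hq]; simp

omit [Fintype V] in
theorem dist_update_le (z : V → N) (p : V) (w : N) (u v : V) :
    dist (Function.update z p w u) (Function.update z p w v)
      ≤ dist (z u) (z v) + (if u = p then dist (z p) w else 0)
        + (if v = p then dist (z p) w else 0) := by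
  by_cases hu : u = p
  · subst hu
    by_cases hv : v = u
    · subst hv; simp
    · rw [Function.update_self, Function.update_of_ne hv]
      simp only [if_true, hv, if_false, add_zero]
      have := dist_triangle w (z u) (z v)
      rw [dist_comm w (z u)] at this; linarith
  · by_cases hv : v = p
    · subst hv
      rw [Function.update_self, Function.update_of_ne hu]
      simp only [if_true, hu, if_false, add_zero]
      exact dist_triangle _ _ _
    · rw [Function.update_of_ne hu, Function.update_of_ne hv]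
      simp [hu, hv]

/-- comparison of energies (Thomson's principle). -/
theorem En_update_le {z : V → N} (hz : Function.Injective z) (p : V) (w : N)
    (hz' : Function.Injective (Function.update z p w)) {q : V → ℝ} (hq : ∑ v, q v = 0) :
    En (Function.update z p w) q
      ≤ En z q + dist (z p) w * ((∑ v, max (q v) 0) ^ 2
          + (∑ v, max (q v) 0 - max (q p) 0) ^ 2) := by
  set z' := Function.update z p w with hz'def
  set f := green z q with hf
  set f' := green z' q with hf'
  set δ := dist (z p) w with hδ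
  have hL : ∀ u, Lap z f u = q u := Lap_green_zero hz hq
  have hL' : ∀ u, Lap z' f' u = q u := Lap_green_zero hz' hq
  have e1 : En z' q = (1/2) * ∑ u, ∑ v, cond z u v * ((f' u - f' v) * (f u - f v)) := by
    rw [← sum_mul_Lap, En]
    exact Finset.sum_congr rfl fun u _ => by rw [hL]; ring
  have e2 : En z' q = (1/2) * ∑ u, ∑ v, cond z' u v * ((f' u - f' v) * (f' u - f' v)) := by
    rw [← sum_mul_Lap, En]
    exact Finset.sum_congr rfl fun u _ => by rw [hL']; ring
  have e3 : En z q = (1/2) * ∑ u, ∑ v, cond z u v * ((f u - f v) * (f u - f v)) := by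
    rw [← sum_mul_Lap, En]
    exact Finset.sum_congr rfl fun u _ => by rw [hL]; ring
  have key : ∀ u v, 2 * (cond z u v * ((f' u - f' v) * (f u - f v)))
      ≤ cond z u v * ((f u - f v) * (f u - f v))
        + cond z' u v * ((f' u - f' v) * (f' u - f' v))
        + ((if u = p then δ * (cond z u v * (f u - f v)) ^ 2 else 0)
        + (if v = p then δ * (cond z u v * (f u - f v)) ^ 2 else 0)) := by
    intro u v
    by_cases huv : u = v
    · subst huv; simp
    · have hc := cond_mul_dist hz huv
      have hc' := cond_mul_dist hz' huv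
      have hcp' := cond_nonneg z' u v
      have hd := dist_update_le z p w u v
      rw [← hz'def] at hd
      set θ := cond z u v * (f u - f v) with hθ
      have h1 : 2 * (θ * (f' u - f' v)) ≤ dist (z' u) (z' v) * θ ^ 2
          + cond z' u v * (f' u - f' v) ^ 2 := by
        have h2 : 0 ≤ cond z' u v * (dist (z' u) (z' v) * θ - (f' u - f' v)) ^ 2 :=
          mul_nonneg hcp' (sq_nonneg _)
        have h3 : cond z' u v * (dist (z' u) (z' v) * θ - (f' u - f' v)) ^ 2
            = dist (z' u) (z' v) * θ ^ 2 - 2 * (θ * (f' u - f' v))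
              + cond z' u v * (f' u - f' v) ^ 2 := by
          linear_combination (dist (z' u) (z' v) * θ ^ 2 - 2 * (θ * (f' u - f' v))) * hc'
        linarith
      have h4 : dist (z' u) (z' v) * θ ^ 2 ≤ dist (z u) (z v) * θ ^ 2
          + ((if u = p then δ * θ ^ 2 else 0) + (if v = p then δ * θ ^ 2 else 0)) := by
        have h5 := mul_le_mul_of_nonneg_right hd (sq_nonneg θ)
        refine h5.trans (le_of_eq ?_)
        rw [add_mul, add_mul, ite_mul, ite_mul, zero_mul, add_assoc]
      have h6 : dist (z u) (z v) * θ ^ 2 = cond z u v * ((f u - f v) * (f u - f v)) := by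
        rw [hθ]
        linear_combination (cond z u v * (f u - f v) ^ 2) * hc
      have h7 : cond z u v * ((f' u - f' v) * (f u - f v)) = θ * (f' u - f' v) := by
        rw [hθ]; ring
      rw [h7]
      nlinarith
  have hsum := Finset.sum_le_sum fun u (_ : u ∈ (Finset.univ : Finset V)) =>
    Finset.sum_le_sum fun v (_ : v ∈ (Finset.univ : Finset V)) => key u v
  simp only [Finset.sum_add_distrib] at hsum
  have s1 : ∑ u, ∑ v, 2 * (cond z u v * ((f' u - f' v) * (f u - f v))) = 4 * En z' q := by
    rw [e1]
    simp only [← Finset.mul_sum]; ring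
  have s2 : ∑ u, ∑ v, (if u = p then δ * (cond z u v * (f u - f v)) ^ 2 else 0)
      = δ * ∑ v, (cond z p v * (f p - f v)) ^ 2 := by
    rw [Finset.sum_comm, Finset.mul_sum]
    exact Finset.sum_congr rfl fun v _ => by simp
  have s3 : ∑ u, ∑ v, (if v = p then δ * (cond z u v * (f u - f v)) ^ 2 else 0)
      = δ * ∑ v, (cond z p v * (f p - f v)) ^ 2 := by
    rw [Finset.mul_sum]
    refine Finset.sum_congr rfl fun v _ => ?_
    simp only [Finset.sum_ite_eq', Finset.mem_univ, if_true]
    rw [cond_comm z v p]; ring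
  rw [s1, s2, s3] at hsum
  have h8 := sq_flow_le z f p
  simp only [hL] at h8
  have h9 := mul_le_mul_of_nonneg_left h8 (dist_nonneg (x := z p) (y := w))
  rw [← hδ] at h9
  have e2' : ∑ u, ∑ v, cond z' u v * ((f' u - f' v) * (f' u - f' v)) = 2 * En z' q := by
    rw [e2]; ring
  have e3' : ∑ u, ∑ v, cond z u v * ((f u - f v) * (f u - f v)) = 2 * En z q := by
    rw [e3]; ring
  rw [e2', e3'] at hsum
  linarith

end Pool.Agent.Lib.MP_af7143_lc
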