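import Mathlib

/-! Electrical network on finitely many distinct points of a metric space (conductance = 1/distance). -/

set_option autoImplicit false

open Finset

namespace Pool.Agent.Lib.MP_af7143_lc

variable {V : Type*} [Fintype V] [DecidableEq V] {N : Type*} [MetricSpace N]

/-- conductance between two sites: the inverse distance (`0` on the diagonal). -/
noncomputable def cond (z : V → N) (u v : V) : ℝ := (dist (z u) (z v))⁻¹

omit [Fintype V] [DecidableEq V] in
theorem cond_nonneg (z : V → N) (u v : V) : 0 ≤ cond z u v := inv_nonneg.2 dist_nonneg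

omit [Fintype V] [DecidableEq V] in
theorem cond_self (z : V → N) (u : V) : cond z u u = 0 := by simp [cond]

omit [Fintype V] [DecidableEq V] in
theorem cond_comm (z : V → N) (u v : V) : cond z u v = cond z v u := by
  simp [cond, dist_comm]

omit [Fintype V] [DecidableEq V] in
theorem cond_pos {z : V → N} (hz : Function.Injective z) {u v : V} (h : u ≠ v) :
    0 < cond z u v := inv_pos.2 (dist_pos.2 (fun e => h (hz e)))

omit [Fintype V] [DecidableEq V] in
theorem cond_mul_dist {z : V → N} (hz : Function.Injective z) {u v : V} (h : u ≠ v) :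
    cond z u v * dist (z u) (z v) = 1 :=
  inv_mul_cancel₀ (dist_pos.2 (fun e => h (hz e))).ne'

/-- the Laplacian of the network. -/
noncomputable def Lap (z : V → N) (f : V → ℝ) (u : V) : ℝ := ∑ v, cond z u v * (f u - f v)

omit [DecidableEq V] in
/-- symmetrised form of `⟨g, Lap f⟩`. -/
theorem sum_mul_Lap (z : V → N) (g f : V → ℝ) :
    ∑ u, g u * Lap z f u = (1/2) * ∑ u, ∑ v, cond z u v * ((g u - g v) * (f u - f v)) := by
  have h1 : ∑ u, g u * Lap z f u = ∑ u, ∑ v, cond z u v * (g u * (f u - f v)) := by
    refine Finset.sum_congr rfl fun u _ => ?_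
    rw [Lap, Finset.mul_sum]
    exact Finset.sum_congr rfl fun v _ => by ring
  have h2 : ∑ u, ∑ v, cond z u v * (g u * (f u - f v))
      = ∑ u, ∑ v, cond z u v * (g v * (f v - f u)) := by
    rw [Finset.sum_comm]
    refine Finset.sum_congr rfl fun u _ => Finset.sum_congr rfl fun v _ => ?_
    rw [cond_comm z v u]
  have h3 : ∑ u, ∑ v, cond z u v * ((g u - g v) * (f u - f v))
      = ∑ u, ∑ v, cond z u v * (g u * (f u - f v))
        + ∑ u, ∑ v, cond z u v * (g v * (f v - f u)) := by
    rw [← Finset.sum_add_distrib]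
    refine Finset.sum_congr rfl fun u _ => ?_
    rw [← Finset.sum_add_distrib]
    exact Finset.sum_congr rfl fun v _ => by ring
  rw [h3, ← h2, ← h1]; ring

omit [DecidableEq V] in
theorem sum_mul_Lap_comm (z : V → N) (g f : V → ℝ) :
    ∑ u, g u * Lap z f u = ∑ u, f u * Lap z g u := by
  rw [sum_mul_Lap, sum_mul_Lap]
  congr 1
  exact Finset.sum_congr rfl fun u _ => Finset.sum_congr rfl fun v _ => by ring

omit [DecidableEq V] in
theorem sum_Lap (z : V → N) (f : V → ℝ) : ∑ u, Lap z f u = 0 := by
  have := sum_mul_Lap z (fun _ => (1:ℝ)) f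
  simpa using this

/-- `Lap + J` where `J f = ∑ f`. -/
noncomputable def lapJ (z : V → N) : (V → ℝ) →ₗ[ℝ] (V → ℝ) where
  toFun f u := Lap z f u + ∑ v, f v
  map_add' f g := by
    funext u
    simp only [Lap, Pi.add_apply, Finset.sum_add_distrib]
    rw [show (∑ v, f v + ∑ v, g v) = (∑ v, f v) + ∑ v, g v from rfl]
    have : ∑ v, cond z u v * (f u + g u - (f v + g v))
        = ∑ v, cond z u v * (f u - f v) + ∑ v, cond z u v * (g u - g v) := by
      rw [← Finset.sum_add_distrib]
      exact Finset.sum_congr rfl fun v _ => by ring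
    rw [this]; ring
  map_smul' a f := by
    funext u
    simp only [Lap, Pi.smul_apply, smul_eq_mul, RingHom.id_apply, mul_add, Finset.mul_sum]
    congr 1
    exact Finset.sum_congr rfl fun v _ => by ring

omit [DecidableEq V] in
theorem lapJ_apply (z : V → N) (f : V → ℝ) (u : V) :
    lapJ z f u = Lap z f u + ∑ v, f v := rfl

omit [DecidableEq V] in
theorem lapJ_injective {z : V → N} (hz : Function.Injective z) :
    Function.Injective (lapJ z) := by
  rw [← LinearMap.ker_eq_bot, LinearMap.ker_eq_bot']
  intro f hf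
  have h0 : ∀ u, Lap z f u + ∑ v, f v = 0 := fun u => congrFun hf u
  have h1 : ∑ u, f u * (Lap z f u + ∑ v, f v) = 0 := by simp [h0]
  have h2 : ∑ u, f u * (Lap z f u + ∑ v, f v)
      = (1/2) * ∑ u, ∑ v, cond z u v * ((f u - f v) * (f u - f v)) + (∑ v, f v) ^ 2 := by
    simp only [mul_add, Finset.sum_add_distrib]
    rw [sum_mul_Lap, ← Finset.sum_mul]; ring
  have h3 : 0 ≤ ∑ u, ∑ v, cond z u v * ((f u - f v) * (f u - f v)) :=
    Finset.sum_nonneg fun u _ => Finset.sum_nonneg fun v _ =>
      mul_nonneg (cond_nonneg z u v) (mul_self_nonneg _)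
  have h4 : (∑ v, f v) ^ 2 = 0 := by nlinarith [sq_nonneg (∑ v, f v)]
  have h5 : ∑ u, ∑ v, cond z u v * ((f u - f v) * (f u - f v)) = 0 := by nlinarith
  have h6 : ∀ u v, f u = f v := by
    intro u v
    by_contra hne
    have huv : u ≠ v := fun e => hne (by rw [e])
    have hu := (Finset.sum_eq_zero_iff_of_nonneg (fun u _ => Finset.sum_nonneg fun v _ =>
      mul_nonneg (cond_nonneg z u v) (mul_self_nonneg _))).1 h5 u (Finset.mem_univ _)
    have hv := (Finset.sum_eq_zero_iff_of_nonneg (fun v _ =>
      mul_nonneg (cond_nonneg z u v) (mul_self_nonneg _))).1 hu v (Finset.mem_univ _)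
    rcases mul_eq_zero.1 hv with h | h
    · exact absurd h (cond_pos hz huv).ne'
    · exact hne (by have := mul_self_eq_zero.1 h; linarith)
  funext u
  have h7 : ∑ v, f v = (Fintype.card V : ℝ) * f u := by
    rw [Finset.sum_congr rfl fun v _ => h6 v u]; simp
  have h8 : (∑ v, f v) = 0 := by simpa using h4
  have : (Fintype.card V : ℝ) ≠ 0 := by
    have : Nonempty V := ⟨u⟩
    exact_mod_cast Fintype.card_ne_zero
  rw [h7] at h8
  rcases mul_eq_zero.1 h8 with h | h
  · exact absurd h this
  · simpa using h

/-- the Green operator `(Lap + J)⁻¹`. -/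
noncomputable def green (z : V → N) : (V → ℝ) →ₗ[ℝ] (V → ℝ) :=
  open Classical in
  if h : Function.Injective (lapJ z) then
    (LinearEquiv.ofInjectiveEndo (lapJ z) h).symm.toLinearMap else 0

omit [DecidableEq V] in
theorem lapJ_green {z : V → N} (hz : Function.Injective z) (q : V → ℝ) :
    lapJ z (green z q) = q := by
  rw [green, dif_pos (lapJ_injective hz)]
  exact LinearEquiv.apply_symm_apply (LinearEquiv.ofInjectiveEndo (lapJ z) (lapJ_injective hz)) q

omit [DecidableEq V] in
theorem Lap_green' {z : V → N} (hz : Function.Injective z) (q : V → ℝ) (u : V) :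
    Lap z (green z q) u + ∑ v, green z q v = q u := by
  have := congrFun (lapJ_green hz q) u
  rwa [lapJ_apply] at this

omit [DecidableEq V] in
theorem sum_green {z : V → N} (hz : Function.Injective z) (q : V → ℝ) :
    (Fintype.card V : ℝ) * ∑ v, green z q v = ∑ v, q v := by
  have h : ∑ u, (Lap z (green z q) u + ∑ v, green z q v) = ∑ u, q u :=
    Finset.sum_congr rfl fun u _ => Lap_green' hz q u
  rw [Finset.sum_add_distrib, sum_Lap] at h
  simpa using h

omit [DecidableEq V] in
theorem Lap_green {z : V → N} (hz : Function.Injective z) (q : V → ℝ) (u : V) :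
    Lap z (green z q) u = q u - (∑ v, q v) / Fintype.card V := by
  have : Nonempty V := ⟨u⟩
  have hc : (Fintype.card V : ℝ) ≠ 0 := by exact_mod_cast Fintype.card_ne_zero
  have h1 := Lap_green' hz q u
  have h2 := sum_green hz q
  rw [← h2, mul_div_cancel_left₀ _ hc]
  linarith

omit [DecidableEq V] in
theorem green_symm {z : V → N} (hz : Function.Injective z) (p q : V → ℝ) :
    ∑ v, p v * green z q v = ∑ v, q v * green z p v := by
  have h1 : ∑ v, p v * green z q v
      = ∑ v, green z q v * Lap z (green z p) v + (∑ v, green z p v) * ∑ v, green z q v := by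
    have : ∑ v, p v * green z q v
        = ∑ v, (Lap z (green z p) v + ∑ w, green z p w) * green z q v :=
      Finset.sum_congr rfl fun v _ => by rw [Lap_green' hz p v]
    rw [this]
    simp only [add_mul, Finset.sum_add_distrib]
    rw [← Finset.mul_sum]
    congr 1
    exact Finset.sum_congr rfl fun v _ => by ring
  have h2 : ∑ v, q v * green z p v
      = ∑ v, green z p v * Lap z (green z q) v + (∑ v, green z q v) * ∑ v, green z p v := by
    have : ∑ v, q v * green z p v
        = ∑ v, (Lap z (green z q) v + ∑ w, green z q w) * green z p v :=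
      Finset.sum_congr rfl fun v _ => by rw [Lap_green' hz q v]
    rw [this]
    simp only [add_mul, Finset.sum_add_distrib]
    rw [← Finset.mul_sum]
    congr 1
    exact Finset.sum_congr rfl fun v _ => by ring
  rw [h1, h2, sum_mul_Lap_comm z (green z q) (green z p)]
  ring

end Pool.Agent.Lib.MP_af7143_lc
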