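import Pool.Agent.Lib.MP_af7143_lc.HstCount

/-!
# The potential of Harmonic on metric spaces of small aspect ratio
-/

set_option autoImplicit false

open Finset

namespace Pool.Agent.Lib.MP_af7143_lc.Hst

variable {M : Type*} [MetricSpace M] {k : ℕ}

open Classical in
/-- the positions of the adversary which are not covered by Harmonic -/
noncomputable def unc (x z : Fin k → M) : Finset M := univ.image z \ univ.image x

/-- the potential -/
noncomputable def pot3 (c : ℝ) (x z : Fin k → M) : ℝ :=
  c * (((k : ℝ) + 1) / 2) * har (unc x z).card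

omit [MetricSpace M] in
theorem pot3_nonneg {c : ℝ} (hc : 0 < c) (x z : Fin k → M) : 0 ≤ pot3 c x z :=
  mul_nonneg (by positivity) (har_nonneg _)

theorem har_add_le (m q : ℕ) : har (m + q) ≤ har m + q := by
  induction q with
  | zero => simp
  | succ q ih =>
    rw [← add_assoc, har_succ]
    have h1 : 1 / (((m + q : ℕ) : ℝ) + 1) ≤ 1 := by
      rw [div_le_one (by positivity)]
      have : (0 : ℝ) ≤ ((m + q : ℕ) : ℝ) := by positivity
      linarith
    push_cast at h1 ⊢
    linarith

theorem pot3_lip {c : ℝ} (hc : 0 < c) (hlow : ∀ x y : M, x ≠ y → c ≤ dist x y)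
    (x z z' : Fin k → M) :
    pot3 c x z' ≤ pot3 c x z + ((k : ℝ) + 1) / 2 * ∑ v, dist (z v) (z' v) := by
  classical
  set q := (univ.filter fun v => z v ≠ z' v).card with hq
  have h1 : unc x z' ⊆ unc x z ∪ (univ.filter fun v => z v ≠ z' v).image z' := by
    intro p hp
    rw [unc, mem_sdiff] at hp
    obtain ⟨v, _, rfl⟩ := mem_image.1 hp.1
    rw [mem_union]
    by_cases h : z v = z' v
    · left
      rw [unc, mem_sdiff]
      exact ⟨mem_image.2 ⟨v, mem_univ _, h⟩, hp.2⟩
    · right
      exact mem_image.2 ⟨v, mem_filter.2 ⟨mem_univ _, h⟩, rfl⟩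
  have h2 : (unc x z').card ≤ (unc x z).card + q :=
    (card_le_card h1).trans ((card_union_le _ _).trans
      (Nat.add_le_add_left card_image_le _))
  have h3 : har (unc x z').card ≤ har (unc x z).card + q :=
    (har_mono h2).trans (har_add_le _ _)
  have h4 : c * (q : ℝ) ≤ ∑ v, dist (z v) (z' v) := by
    have h5 : ∑ v ∈ univ.filter (fun v => z v ≠ z' v), c
        ≤ ∑ v ∈ univ.filter (fun v => z v ≠ z' v), dist (z v) (z' v) :=
      sum_le_sum fun v hv => hlow _ _ (mem_filter.1 hv).2
    rw [sum_const, nsmul_eq_mul, ← hq] at h5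
    have h6 : ∑ v ∈ univ.filter (fun v => z v ≠ z' v), dist (z v) (z' v)
        ≤ ∑ v, dist (z v) (z' v) :=
      sum_le_sum_of_subset_of_nonneg (filter_subset _ _) fun _ _ _ => dist_nonneg
    linarith
  have hl : (0 : ℝ) ≤ ((k : ℝ) + 1) / 2 := by positivity
  have h7 : c * (((k : ℝ) + 1) / 2) * har (unc x z').card
      ≤ c * (((k : ℝ) + 1) / 2) * (har (unc x z).card + q) :=
    mul_le_mul_of_nonneg_left h3 (by positivity)
  have h8 := mul_le_mul_of_nonneg_left h4 hl
  rw [pot3, pot3]
  nlinarith

theorem pot3_drift {c : ℝ} (hc : 0 < c)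
    (hupp : ∀ x y : M, dist x y ≤ c * (((k : ℝ) + 1) / 2))
    {x z : Fin k → M} {r : M} (hx : ∀ j, x j ≠ r) (hz : ∃ v, z v = r) :
    ∑ j, (dist (x j) r)⁻¹ * (pot3 c (Function.update x j r) z - pot3 c x z) ≤ -1 := by
  classical
  obtain ⟨v₀, hv₀⟩ := hz
  set m := (unc x z).card with hm
  set L : ℝ := c * (((k : ℝ) + 1) / 2) with hL
  have hL0 : 0 < L := by positivity
  have hr : r ∈ unc x z := by
    rw [unc, mem_sdiff]
    refine ⟨mem_image.2 ⟨v₀, mem_univ _, hv₀⟩, fun h => ?_⟩
    obtain ⟨j, _, h2⟩ := mem_image.1 h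
    exact hx j h2
  have hm1 : 1 ≤ m := card_pos.2 ⟨r, hr⟩
  obtain ⟨m', hm'⟩ : ∃ m', m = m' + 1 := ⟨m - 1, by omega⟩
  set S : Finset (Fin k) := univ.filter fun j => x j ∉ univ.image z ∨ ∃ i, i ≠ j ∧ x i = x j
    with hS
  have hgen : ∀ j, (unc (Function.update x j r) z).card ≤ m := by
    intro j
    have h1 : unc (Function.update x j r) z ⊆ insert (x j) ((unc x z).erase r) := by
      intro p hp
      rw [unc, mem_sdiff] at hp
      rw [mem_insert]
      by_cases h2 : p = x j
      · exact Or.inl h2
      · right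
        rw [mem_erase, unc, mem_sdiff]
        refine ⟨?_, hp.1, fun h3 => ?_⟩
        · rintro rfl
          exact hp.2 (mem_image.2 ⟨j, mem_univ _, Function.update_self _ _ _⟩)
        · obtain ⟨i, _, h4⟩ := mem_image.1 h3
          refine hp.2 (mem_image.2 ⟨i, mem_univ _, ?_⟩)
          rw [Function.update_of_ne, h4]
          rintro rfl
          exact h2 h4.symm
    refine (card_le_card h1).trans ((card_insert_le _ _).trans ?_)
    rw [card_erase_of_mem hr]
    omega
  have hsur : ∀ j ∈ S, (unc (Function.update x j r) z).card ≤ m' := by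
    intro j hj
    have hj' := (mem_filter.1 hj).2
    have h1 : unc (Function.update x j r) z ⊆ (unc x z).erase r := by
      intro p hp
      rw [unc, mem_sdiff] at hp
      rw [mem_erase, unc, mem_sdiff]
      refine ⟨?_, hp.1, fun h3 => ?_⟩
      · rintro rfl
        exact hp.2 (mem_image.2 ⟨j, mem_univ _, Function.update_self _ _ _⟩)
      · obtain ⟨i, _, h4⟩ := mem_image.1 h3
        by_cases hij : i = j
        · rcases hj' with h5 | ⟨i', h5, h6⟩
          · rw [← hij, h4] at h5
            exact h5 hp.1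
          · refine hp.2 (mem_image.2 ⟨i', mem_univ _, ?_⟩)
            rw [Function.update_of_ne h5, h6, ← hij, h4]
        · refine hp.2 (mem_image.2 ⟨i, mem_univ _, ?_⟩)
          rw [Function.update_of_ne hij, h4]
    refine (card_le_card h1).trans ?_
    rw [card_erase_of_mem hr]
    omega
  have hScard : m ≤ S.card := by
    have h1 : (univ.filter fun j => ¬ (x j ∉ univ.image z ∨ ∃ i, i ≠ j ∧ x i = x j)).card
        ≤ (univ.image z ∩ univ.image x).card := by
      refine card_le_card_of_injOn x ?_ ?_
      · intro j hj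
        have hj2 := (mem_filter.1 (mem_coe.1 hj)).2
        push Not at hj2
        exact mem_coe.2 (mem_inter.2 ⟨hj2.1, mem_image_of_mem _ (mem_univ _)⟩)
      · intro j hj i hi hij
        have hj2 := (mem_filter.1 (mem_coe.1 hj)).2
        push Not at hj2
        by_contra h2
        exact hj2.2 i (fun h3 => h2 h3.symm) hij.symm
    have h2 : (univ.image z ∩ univ.image x).card + m ≤ k := by
      have h3 : (univ.image z).card ≤ k := by
        refine card_image_le.trans ?_
        rw [card_univ, Fintype.card_fin]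
      have h4 := card_sdiff_add_card_inter (univ.image z) (univ.image x)
      have h5 : m = (univ.image z \ univ.image x).card := rfl
      omega
    have h3 := card_filter_add_card_filter_not (s := (univ : Finset (Fin k)))
      (fun j => x j ∉ univ.image z ∨ ∃ i, i ≠ j ∧ x i = x j)
    rw [card_univ, Fintype.card_fin] at h3
    have h4 : S.card = (univ.filter fun j => x j ∉ univ.image z ∨ ∃ i, i ≠ j ∧ x i = x j).card :=
      rfl
    omega
  have hterm : ∀ j, (dist (x j) r)⁻¹ * (pot3 c (Function.update x j r) z - pot3 c x z)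
      ≤ if j ∈ S then - (1 / (m : ℝ)) else 0 := by
    intro j
    have hd : 0 < dist (x j) r := dist_pos.2 (hx j)
    have e1 : pot3 c (Function.update x j r) z - pot3 c x z
        = L * (har (unc (Function.update x j r) z).card - har m) := by
      rw [pot3, pot3, ← hL, ← hm]
      ring
    rw [e1]
    split_ifs with h1
    · have h2 : har (unc (Function.update x j r) z).card - har m ≤ - (1 / (m : ℝ)) := by
        have h3 := har_mono (hsur j h1)
        have h4 := har_succ m'
        have h5 : ((m' : ℝ) + 1) = (m : ℝ) := by rw [hm']; push_cast; ring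
        rw [← hm', h5] at h4
        linarith
      have h3 : 1 ≤ (dist (x j) r)⁻¹ * L := by
        rw [inv_mul_eq_div, le_div_iff₀ hd, one_mul]
        exact hupp _ _
      have h4 : (0 : ℝ) ≤ 1 / (m : ℝ) := by positivity
      have h5 : (dist (x j) r)⁻¹ * (L * (har (unc (Function.update x j r) z).card - har m))
          ≤ (dist (x j) r)⁻¹ * L * - (1 / (m : ℝ)) := by
        rw [← mul_assoc]
        exact mul_le_mul_of_nonneg_left h2 (mul_nonneg (inv_nonneg.2 hd.le) hL0.le)
      nlinarith
    · have h2 := har_mono (hgen j)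
      exact mul_nonpos_of_nonneg_of_nonpos (inv_nonneg.2 hd.le)
        (mul_nonpos_of_nonneg_of_nonpos hL0.le (by linarith))
  refine (sum_le_sum fun j _ => hterm j).trans ?_
  rw [← sum_filter, sum_const, nsmul_eq_mul]
  have h1 : (univ.filter fun j => j ∈ S) = S := by
    ext j
    simp
  rw [h1]
  have h2 : (m : ℝ) ≤ S.card := by exact_mod_cast hScard
  have h3 : (0 : ℝ) < m := by exact_mod_cast hm1
  have h4 : (S.card : ℝ) * - (1 / (m : ℝ)) = - ((S.card : ℝ) / m) := by ring
  rw [h4, neg_le_neg_iff, le_div_iff₀ h3, one_mul]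
  exact h2

end Pool.Agent.Lib.MP_af7143_lc.Hst
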