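import Mathlib

/-!
# Counting servers by their distance from a point

The building blocks of the potential of the Harmonic algorithm on hierarchically separated
spaces: harmonic numbers, the numbers of servers at distance at most (less than) a given one, and
the sum over all levels.
-/

set_option autoImplicit false

open Finset

namespace Pool.Agent.Lib.MP_af7143_lc.Hst

/-- the harmonic number -/
noncomputable def har (n : ℕ) : ℝ := ∑ j ∈ range n, 1 / ((j : ℝ) + 1)

theorem har_succ (n : ℕ) : har (n + 1) = har n + 1 / ((n : ℝ) + 1) := by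
  rw [har, sum_range_succ, har]

theorem har_nonneg (n : ℕ) : 0 ≤ har n := by
  rw [har]
  exact sum_nonneg fun j _ => by positivity

theorem har_mono {m n : ℕ} (h : m ≤ n) : har m ≤ har n := by
  rw [har, har]
  exact sum_le_sum_of_subset_of_nonneg (range_subset_range.2 h) (fun j _ _ => by positivity)

theorem har_le (n : ℕ) : har n ≤ ((n : ℝ) + 1) / 2 := by
  induction n with
  | zero => simp [har]
  | succ n ih =>
    rw [har_succ]
    rcases Nat.eq_zero_or_pos n with h | h
    · subst h
      simp [har]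
    · have h1 : (1 : ℝ) ≤ n := by exact_mod_cast h
      have h2 : 1 / ((n : ℝ) + 1) ≤ 1 / 2 := by
        apply one_div_le_one_div_of_le <;> linarith
      push_cast
      linarith

/-- the weight of a level with `N` servers at most and `n` servers less far away -/
noncomputable def gg (N n : ℕ) : ℝ := (har N - har n) / ((N : ℝ) + 1)

theorem gg_self (N : ℕ) : gg N N = 0 := by
  rw [gg, sub_self, zero_div]

theorem gg_nonneg {N n : ℕ} (h : n ≤ N) : 0 ≤ gg N n :=
  div_nonneg (sub_nonneg.2 (har_mono h)) (by positivity)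

theorem gg_le (N n : ℕ) : gg N n ≤ 1 / 2 := by
  rw [gg, div_le_iff₀ (by positivity)]
  have h1 := har_le N
  have h2 := har_nonneg n
  linarith

theorem gg_succ (N n : ℕ) :
    gg N (n + 1) = gg N n - 1 / (((n : ℝ) + 1) * ((N : ℝ) + 1)) := by
  rw [gg, gg, har_succ]
  field_simp
  ring

variable {ι : Type*} [Fintype ι]

/-- number of coordinates which are at most `τ` -/
noncomputable def cle (t : ι → ℝ) (τ : ℝ) : ℕ := (univ.filter fun j => t j ≤ τ).card

/-- number of coordinates which are less than `τ` -/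
noncomputable def clt (t : ι → ℝ) (τ : ℝ) : ℕ := (univ.filter fun j => t j < τ).card

theorem clt_le_cle (t : ι → ℝ) (τ : ℝ) : clt t τ ≤ cle t τ := by
  rw [clt, cle]
  refine card_le_card fun j hj => ?_
  rw [mem_filter] at hj ⊢
  exact ⟨hj.1, hj.2.le⟩

theorem sum_upd [DecidableEq ι] (f : ℝ → ℕ) (t : ι → ℝ) (j : ι) (c : ℝ) :
    ∑ i, f (Function.update t j c i) + f (t j) = ∑ i, f (t i) + f c := by
  rw [← add_sum_erase univ (fun i => f (Function.update t j c i)) (mem_univ j),
    ← add_sum_erase univ (fun i => f (t i)) (mem_univ j)]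
  have h : ∑ i ∈ univ.erase j, f (Function.update t j c i) = ∑ i ∈ univ.erase j, f (t i) :=
    sum_congr rfl fun i hi => by rw [Function.update_of_ne (ne_of_mem_erase hi)]
  simp only [h, Function.update_self]
  ring

theorem cle_upd [DecidableEq ι] (t : ι → ℝ) (j : ι) (c τ : ℝ) :
    cle (Function.update t j c) τ + (if t j ≤ τ then 1 else 0)
      = cle t τ + (if c ≤ τ then 1 else 0) := by
  have h := sum_upd (fun x => if x ≤ τ then 1 else 0) t j c
  rw [cle, cle, card_filter, card_filter]
  exact h

theorem clt_upd [DecidableEq ι] (t : ι → ℝ) (j : ι) (c τ : ℝ) :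
    clt (Function.update t j c) τ + (if t j < τ then 1 else 0)
      = clt t τ + (if c < τ then 1 else 0) := by
  have h := sum_upd (fun x => if x < τ then 1 else 0) t j c
  rw [clt, clt, card_filter, card_filter]
  exact h

/-- the contribution of the level `τ` -/
noncomputable def lev (t : ι → ℝ) (τ : ℝ) : ℝ := τ * gg (cle t τ) (clt t τ)

/-- the sum over all levels -/
noncomputable def uu (t : ι → ℝ) : ℝ := ∑ τ ∈ univ.image t, lev t τ

theorem lev_eq_zero {t : ι → ℝ} {τ : ℝ} (h : τ ∉ univ.image t) : lev t τ = 0 := by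
  have h1 : cle t τ = clt t τ := by
    rw [cle, clt]
    congr 1
    ext j
    rw [mem_filter, mem_filter]
    constructor
    · rintro ⟨h2, h3⟩
      refine ⟨h2, lt_of_le_of_ne h3 ?_⟩
      rintro rfl
      exact h (mem_image_of_mem _ (mem_univ _))
    · rintro ⟨h2, h3⟩
      exact ⟨h2, h3.le⟩
  rw [lev, h1, gg_self, mul_zero]

theorem uu_eq {t : ι → ℝ} {L : Finset ℝ} (h : univ.image t ⊆ L) :
    uu t = ∑ τ ∈ L, lev t τ :=
  sum_subset h fun _ _ hτ => lev_eq_zero hτ

/-- separated finite sets of nonnegative numbers -/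
def Sep (s : ℝ) (L : Finset ℝ) : Prop :=
  (∀ τ ∈ L, 0 ≤ τ) ∧ ∀ τ ∈ L, ∀ τ' ∈ L, τ < τ' → s * τ ≤ τ'

theorem Sep.mono {s : ℝ} {L L' : Finset ℝ} (h : Sep s L) (hL : L' ⊆ L) : Sep s L' :=
  ⟨fun τ hτ => h.1 τ (hL hτ), fun τ hτ τ' hτ' => h.2 τ (hL hτ) τ' (hL hτ')⟩

theorem sep_sum {s : ℝ} (hs : 1 < s) (L : Finset ℝ) :
    Sep s L → ∀ R : ℝ, 0 ≤ R → (∀ τ ∈ L, s * τ ≤ R) → ∑ τ ∈ L, τ ≤ R / (s - 1) := by
  induction L using Finset.induction_on_max with
  | empty =>
    intro _ R hR _
    rw [sum_empty]
    exact div_nonneg hR (by linarith)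
  | insert m L hm ih =>
    intro hL R hR hLR
    have hnot : m ∉ L := fun h => lt_irrefl _ (hm m h)
    rw [sum_insert hnot]
    have h1 : 0 ≤ m := hL.1 m (mem_insert_self _ _)
    have h2 := ih (hL.mono (subset_insert _ _)) m h1 fun τ hτ =>
      hL.2 τ (mem_insert_of_mem hτ) m (mem_insert_self _ _) (hm τ hτ)
    have h3 := hLR m (mem_insert_self _ _)
    have hs1 : 0 < s - 1 := by linarith
    have h4 : m + m / (s - 1) = s * m / (s - 1) := by
      field_simp
      ring
    calc m + ∑ τ ∈ L, τ ≤ m + m / (s - 1) := by linarith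
      _ = s * m / (s - 1) := h4
      _ ≤ R / (s - 1) := div_le_div_of_nonneg_right h3 hs1.le

theorem cut {L : Finset ℝ} {R : ℝ} (hR : R ∈ L) (f : ℝ → ℝ) :
    ∑ τ ∈ L, f τ = ∑ τ ∈ L.filter (fun τ => R < τ), f τ + f R
      + ∑ τ ∈ L.filter (fun τ => τ < R), f τ := by
  have h1 := sum_filter_add_sum_filter_not L (fun τ => R < τ) f
  have h2 : ∑ τ ∈ L.filter (fun τ => ¬ R < τ), f τ
      = f R + ∑ τ ∈ L.filter (fun τ => τ < R), f τ := by
    have h3 : L.filter (fun τ => ¬ R < τ) = insert R (L.filter (fun τ => τ < R)) := by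
      ext τ
      rw [mem_insert, mem_filter, mem_filter, not_lt]
      constructor
      · rintro ⟨h4, h5⟩
        rcases h5.lt_or_eq with h6 | h6
        · exact Or.inr ⟨h4, h6⟩
        · exact Or.inl h6
      · rintro (h4 | h4)
        · rw [h4]
          exact ⟨hR, le_refl _⟩
        · exact ⟨h4.1, h4.2.le⟩
    rw [h3, sum_insert]
    rw [mem_filter]
    exact fun h => lt_irrefl _ h.2
  rw [← h1, h2]
  ring

theorem low_nonneg {s : ℝ} {L : Finset ℝ} (hL : Sep s L) (t : ι → ℝ) (R : ℝ) :
    0 ≤ ∑ τ ∈ L.filter (fun τ => τ < R), lev t τ := by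
  refine sum_nonneg fun τ hτ => ?_
  rw [mem_filter] at hτ
  exact mul_nonneg (hL.1 τ hτ.1) (gg_nonneg (clt_le_cle t τ))

theorem low_le {s : ℝ} (hs : 1 < s) {L : Finset ℝ} (hL : Sep s L) (t : ι → ℝ) {R : ℝ}
    (hR : R ∈ L) :
    ∑ τ ∈ L.filter (fun τ => τ < R), lev t τ ≤ R / (2 * (s - 1)) := by
  have h1 := sep_sum hs (L.filter fun τ => τ < R) (hL.mono (filter_subset _ _)) R (hL.1 R hR)
    (fun τ hτ => by
      rw [mem_filter] at hτ
      exact hL.2 τ hτ.1 R hR hτ.2)
  have h2 : ∑ τ ∈ L.filter (fun τ => τ < R), lev t τ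
      ≤ ∑ τ ∈ L.filter (fun τ => τ < R), τ * (1 / 2) := by
    refine sum_le_sum fun τ hτ => ?_
    rw [mem_filter] at hτ
    exact mul_le_mul_of_nonneg_left (gg_le _ _) (hL.1 τ hτ.1)
  rw [← sum_mul] at h2
  have hs1 : 0 < s - 1 := by linarith
  have h3 : R / (2 * (s - 1)) = R / (s - 1) * (1 / 2) := by
    field_simp
  rw [h3]
  linarith

/-- comparison of two vectors with the same large coordinates -/
theorem uu_diff {s : ℝ} (hs : 1 < s) {L L' : Finset ℝ} (hL : Sep s L) (hL' : Sep s L')
    {t t' : ι → ℝ} {R : ℝ} (hR : R ∈ L) (hR' : R ∈ L') (ht : univ.image t ⊆ L)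
    (ht' : univ.image t' ⊆ L')
    (hLL : L.filter (fun τ => R < τ) = L'.filter (fun τ => R < τ))
    (hhigh : ∀ τ, R < τ → cle t' τ = cle t τ ∧ clt t' τ = clt t τ) :
    uu t' - uu t ≤ lev t' R - lev t R + R / (2 * (s - 1)) := by
  rw [uu_eq ht, uu_eq ht', cut hR, cut hR', hLL]
  have h1 : ∑ τ ∈ L'.filter (fun τ => R < τ), lev t' τ
      = ∑ τ ∈ L'.filter (fun τ => R < τ), lev t τ := by
    refine sum_congr rfl fun τ hτ => ?_
    rw [mem_filter] at hτ
    obtain ⟨h2, h3⟩ := hhigh τ hτ.2
    rw [lev, lev, h2, h3]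
  have h2 := low_nonneg hL t R
  have h3 := low_le hs hL' t' hR'
  linarith

theorem uu_nonneg {t : ι → ℝ} (ht : ∀ j, 0 ≤ t j) : 0 ≤ uu t := by
  refine sum_nonneg fun τ hτ => ?_
  obtain ⟨j, _, rfl⟩ := mem_image.1 hτ
  exact mul_nonneg (ht j) (gg_nonneg (clt_le_cle t _))

section Update

variable [DecidableEq ι]

theorem image_upd_subset (t : ι → ℝ) (j : ι) (c : ℝ) :
    univ.image (Function.update t j c) ⊆ insert c (univ.image t) := by
  intro τ hτ
  obtain ⟨i, _, rfl⟩ := mem_image.1 hτ
  by_cases h : i = j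
  · rw [h, Function.update_self]
    exact mem_insert_self _ _
  · rw [Function.update_of_ne h]
    exact mem_insert_of_mem (mem_image_of_mem _ (mem_univ _))

/-- a server comes closer -/
theorem uu_closer {s : ℝ} (hs : 1 < s) {t : ι → ℝ} {c : ℝ}
    (hL : Sep s (insert c (univ.image t))) {j : ι} (hc : c < t j) :
    uu (Function.update t j c) - uu t
      ≤ - (t j / (((clt t (t j) : ℝ) + 1) * ((cle t (t j) : ℝ) + 1))) + t j / (2 * (s - 1)) := by
  have h1 := uu_diff hs hL hL (t := t) (t' := Function.update t j c) (R := t j)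
    (mem_insert_of_mem (mem_image_of_mem _ (mem_univ _)))
    (mem_insert_of_mem (mem_image_of_mem _ (mem_univ _)))
    (subset_insert _ _) (image_upd_subset t j c) rfl (by
      intro τ hτ
      have h2 := cle_upd t j c τ
      have h3 := clt_upd t j c τ
      rw [if_pos hτ.le, if_pos (hc.trans hτ).le] at h2
      rw [if_pos hτ, if_pos (hc.trans hτ)] at h3
      omega)
  have h2 := cle_upd t j c (t j)
  have h3 := clt_upd t j c (t j)
  rw [if_pos (le_refl _), if_pos hc.le] at h2
  rw [if_neg (lt_irrefl _), if_pos hc] at h3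
  have h4 : cle (Function.update t j c) (t j) = cle t (t j) := by omega
  have h5 : clt (Function.update t j c) (t j) = clt t (t j) + 1 := by omega
  rw [lev, lev, h4, h5, gg_succ] at h1
  have h6 : t j * (gg (cle t (t j)) (clt t (t j))
        - 1 / (((clt t (t j) : ℝ) + 1) * ((cle t (t j) : ℝ) + 1)))
      - t j * gg (cle t (t j)) (clt t (t j))
      = - (t j / (((clt t (t j) : ℝ) + 1) * ((cle t (t j) : ℝ) + 1))) := by
    ring
  linarith

/-- a server goes away -/
theorem uu_farther {s : ℝ} (hs : 1 < s) {t : ι → ℝ} {c : ℝ}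
    (hL : Sep s (insert c (univ.image t))) {j : ι} (hc : t j < c) :
    uu (Function.update t j c) - uu t
      ≤ c / ((clt t c : ℝ) * ((cle t c : ℝ) + 1)) + c / (2 * (s - 1)) := by
  have h1 := uu_diff hs hL hL (t := t) (t' := Function.update t j c) (R := c)
    (mem_insert_self _ _) (mem_insert_self _ _)
    (subset_insert _ _) (image_upd_subset t j c) rfl (by
      intro τ hτ
      have h2 := cle_upd t j c τ
      have h3 := clt_upd t j c τ
      rw [if_pos (hc.trans hτ).le, if_pos hτ.le] at h2
      rw [if_pos (hc.trans hτ), if_pos hτ] at h3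
      omega)
  have h2 := cle_upd t j c c
  have h3 := clt_upd t j c c
  rw [if_pos (le_refl _), if_pos hc.le] at h2
  rw [if_neg (lt_irrefl _), if_pos hc] at h3
  have h4 : cle (Function.update t j c) c = cle t c := by omega
  have h5 : clt t c = clt (Function.update t j c) c + 1 := by omega
  rw [lev, lev, h4, h5, gg_succ] at h1
  rw [h5]
  push_cast
  set n := clt (Function.update t j c) c
  have h6 : c * gg (cle t c) n - c * (gg (cle t c) n
        - 1 / (((n : ℝ) + 1) * ((cle t c : ℝ) + 1)))
      = c / (((n : ℝ) + 1) * ((cle t c : ℝ) + 1)) := by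
    ring
  linarith

end Update

/-- telescoping over the levels above `R` -/
theorem tele (t : ι → ℝ) (m : ℕ) : ∀ R : ℝ, (univ.filter fun j => R < t j).card = m →
    ∑ j ∈ univ.filter (fun j => R < t j),
        1 / (((clt t (t j) : ℝ) + 1) * ((cle t (t j) : ℝ) + 1))
      = 1 / ((cle t R : ℝ) + 1) - 1 / ((Fintype.card ι : ℝ) + 1) := by
  classical
  induction m using Nat.strong_induction_on with
  | _ m ih =>
    intro R hR
    rcases (univ.filter fun j => R < t j).eq_empty_or_nonempty with h0 | h0
    · have h1 : cle t R = Fintype.card ι := by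
        rw [cle, ← card_univ]
        congr 1
        ext j
        rw [mem_filter]
        refine ⟨fun h => h.1, fun h => ⟨h, ?_⟩⟩
        by_contra h2
        have : j ∈ univ.filter (fun j => R < t j) := mem_filter.2 ⟨mem_univ _, not_le.1 h2⟩
        rw [h0] at this
        exact absurd this (notMem_empty _)
      rw [h0, sum_empty, h1, sub_self]
    · obtain ⟨i, hi, hmin⟩ := exists_min_image _ t h0
      rw [mem_filter] at hi
      set τ := t i with hτ
      have hmin' : ∀ j, R < t j → τ ≤ t j := fun j hj => hmin j (mem_filter.2 ⟨mem_univ _, hj⟩)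
      have h1 : clt t τ = cle t R := by
        rw [clt, cle]
        congr 1
        ext j
        rw [mem_filter, mem_filter]
        refine ⟨fun h => ⟨h.1, ?_⟩, fun h => ⟨h.1, lt_of_le_of_lt h.2 hi.2⟩⟩
        by_contra h2
        exact absurd (hmin' j (not_le.1 h2)) (not_le.2 h.2)
      have h2 : univ.filter (fun j => R < t j)
          = univ.filter (fun j => t j = τ) ∪ univ.filter (fun j => τ < t j) := by
        ext j
        rw [mem_union, mem_filter, mem_filter, mem_filter]
        constructor
        · rintro ⟨h3, h4⟩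
          rcases (hmin' j h4).lt_or_eq with h5 | h5
          · exact Or.inr ⟨h3, h5⟩
          · exact Or.inl ⟨h3, h5.symm⟩
        · rintro (h3 | h3)
          · exact ⟨h3.1, by rw [h3.2]; exact hi.2⟩
          · exact ⟨h3.1, hi.2.trans h3.2⟩
      have hdisj : Disjoint (univ.filter (fun j => t j = τ)) (univ.filter (fun j => τ < t j)) := by
        rw [disjoint_filter]
        intro j _ h3 h4
        rw [h3] at h4
        exact lt_irrefl _ h4
      have h3 : (univ.filter fun j => τ < t j).card < m := by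
        rw [← hR, h2, card_union_of_disjoint hdisj]
        have : 0 < (univ.filter (fun j => t j = τ)).card :=
          card_pos.2 ⟨i, mem_filter.2 ⟨mem_univ _, rfl⟩⟩
        omega
      have h4 := ih _ h3 τ rfl
      have h5 : (univ.filter (fun j => t j = τ)).card + clt t τ = cle t τ := by
        rw [clt, cle, ← card_union_of_disjoint]
        · congr 1
          ext j
          rw [mem_union, mem_filter, mem_filter, mem_filter]
          constructor
          · rintro (h6 | h6)
            · exact ⟨h6.1, h6.2.le⟩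
            · exact ⟨h6.1, h6.2.le⟩
          · rintro ⟨h6, h7⟩
            rcases h7.lt_or_eq with h8 | h8
            · exact Or.inr ⟨h6, h8⟩
            · exact Or.inl ⟨h6, h8⟩
        · rw [disjoint_filter]
          intro j _ h6 h7
          rw [h6] at h7
          exact lt_irrefl _ h7
      have h6 : ∑ j ∈ univ.filter (fun j => t j = τ),
          1 / (((clt t (t j) : ℝ) + 1) * ((cle t (t j) : ℝ) + 1))
          = 1 / ((clt t τ : ℝ) + 1) - 1 / ((cle t τ : ℝ) + 1) := by
        have h7 : ∀ j ∈ univ.filter (fun j => t j = τ),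
            1 / (((clt t (t j) : ℝ) + 1) * ((cle t (t j) : ℝ) + 1))
            = 1 / (((clt t τ : ℝ) + 1) * ((cle t τ : ℝ) + 1)) := by
          intro j hj
          rw [(mem_filter.1 hj).2]
        rw [sum_congr rfl h7, sum_const, nsmul_eq_mul]
        have h8 : ((univ.filter (fun j => t j = τ)).card : ℝ) = (cle t τ : ℝ) - (clt t τ : ℝ) := by
          rw [← h5]
          push_cast
          ring
        rw [h8]
        field_simp
        ring
      rw [h2, sum_union hdisj, h6, h4, h1]
      ring

end Pool.Agent.Lib.MP_af7143_lc.Hst
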