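import Pool.Agent.Lib.MP_af7143_lc.HstCount

/-!
# The potential of Harmonic on hierarchically separated spaces

Drift of the potential and its Lipschitz constant in the positions of the adversary's servers.
-/

set_option autoImplicit false

open Finset

namespace Pool.Agent.Lib.MP_af7143_lc.Hst

section Vector

variable {ι : Type*} [Fintype ι] [DecidableEq ι]

omit [DecidableEq ι] in
theorem cle_le_card (t : ι → ℝ) (τ : ℝ) : cle t τ ≤ Fintype.card ι := by
  rw [cle, ← card_univ]
  exact card_le_card (filter_subset _ _)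

/-- the drift of one term of the potential -/
theorem drift_vec {s δ : ℝ} (hs : 1 < s) (hδ : 0 ≤ δ) {t : ι → ℝ} {c : ℝ}
    (hL : Sep s (insert c (univ.image t))) (w : ι → ℝ)
    (hw0 : ∀ j, 0 ≤ w j)
    (hw1 : ∀ j, t j < c → w j * c ≤ 1)
    (hw2 : ∀ j, c < t j → w j * t j ≤ 1)
    (hw3 : ∀ j, c < t j → 1 ≤ (1 + δ) * (w j * t j)) :
    ∑ j, w j * (uu (Function.update t j c) - uu t)
      ≤ - (1 / (1 + δ) * (1 / ((cle t c : ℝ) + 1) - 1 / ((Fintype.card ι : ℝ) + 1)))
        + (if 0 < clt t c then 1 / ((cle t c : ℝ) + 1) else 0)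
        + (Fintype.card ι : ℝ) * (1 / (2 * (s - 1))) := by
  have hs1 : 0 < s - 1 := by linarith
  have hδ1 : 0 < 1 + δ := by linarith
  have hterm : ∀ j, w j * (uu (Function.update t j c) - uu t)
      ≤ (- (1 / (1 + δ)) * (if c < t j then
            1 / (((clt t (t j) : ℝ) + 1) * ((cle t (t j) : ℝ) + 1)) else 0)
        + (if t j < c then 1 / ((clt t c : ℝ) * ((cle t c : ℝ) + 1)) else 0))
        + 1 / (2 * (s - 1)) := by
    intro j
    rcases lt_trichotomy (t j) c with h | h | h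
    · rw [if_neg (not_lt.2 h.le), if_pos h]
      have h1 := uu_farther hs hL h
      have h2 := mul_le_mul_of_nonneg_left h1 (hw0 j)
      have h3 : w j * (c / ((clt t c : ℝ) * ((cle t c : ℝ) + 1)) + c / (2 * (s - 1)))
          = (w j * c) * (1 / ((clt t c : ℝ) * ((cle t c : ℝ) + 1)) + 1 / (2 * (s - 1))) := by
        ring
      have h4 : 0 ≤ 1 / ((clt t c : ℝ) * ((cle t c : ℝ) + 1)) + 1 / (2 * (s - 1)) := by
        positivity
      have h5 := mul_le_mul_of_nonneg_right (hw1 j h) h4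
      rw [one_mul] at h5
      linarith
    · have h1 : Function.update t j c = t := by
        rw [← h]
        exact Function.update_eq_self j t
      rw [h1, sub_self, mul_zero, if_neg (by rw [h]; exact lt_irrefl _),
        if_neg (by rw [h]; exact lt_irrefl _)]
      have : 0 ≤ 1 / (2 * (s - 1)) := by positivity
      linarith
    · rw [if_pos h, if_neg (not_lt.2 h.le)]
      have h1 := uu_closer hs hL h
      have h2 := mul_le_mul_of_nonneg_left h1 (hw0 j)
      set p : ℝ := 1 / (((clt t (t j) : ℝ) + 1) * ((cle t (t j) : ℝ) + 1)) with hp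
      have hp0 : 0 ≤ p := by rw [hp]; positivity
      have h3 : w j * (- (t j / (((clt t (t j) : ℝ) + 1) * ((cle t (t j) : ℝ) + 1)))
            + t j / (2 * (s - 1)))
          = - ((w j * t j) * p) + (w j * t j) * (1 / (2 * (s - 1))) := by
        rw [hp]
        ring
      have h4 : 1 / (1 + δ) ≤ w j * t j := by
        rw [div_le_iff₀ hδ1]
        have := hw3 j h
        linarith
      have h5 := mul_le_mul_of_nonneg_right h4 hp0
      have h6 : (0 : ℝ) ≤ 1 / (2 * (s - 1)) := by positivity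
      have h7 := mul_le_mul_of_nonneg_right (hw2 j h) h6
      rw [one_mul] at h7
      rw [h3] at h2
      linarith
  refine (sum_le_sum fun j _ => hterm j).trans ?_
  rw [sum_add_distrib, sum_add_distrib, ← mul_sum, ← sum_filter, ← sum_filter,
    tele t _ c rfl, sum_const, sum_const, card_univ, nsmul_eq_mul, nsmul_eq_mul]
  have h8 : ((univ.filter fun j => t j < c).card : ℝ)
        * (1 / ((clt t c : ℝ) * ((cle t c : ℝ) + 1)))
      ≤ if 0 < clt t c then 1 / ((cle t c : ℝ) + 1) else 0 := by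
    have h9 : ((univ.filter fun j => t j < c).card : ℝ) = (clt t c : ℝ) := rfl
    rw [h9]
    split_ifs with h10
    · have h11 : (0 : ℝ) < clt t c := by exact_mod_cast h10
      apply le_of_eq
      field_simp
    · have h11 : clt t c = 0 := by omega
      rw [h11]
      simp
  linarith

/-- the drift if the request is another point -/
theorem drift_other {s δ : ℝ} (hs : 1 < s) (hδ : 0 ≤ δ) {t : ι → ℝ} {c : ℝ}
    (hL : Sep s (insert c (univ.image t))) (w : ι → ℝ)
    (hw0 : ∀ j, 0 ≤ w j)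
    (hw1 : ∀ j, t j < c → w j * c ≤ 1)
    (hw2 : ∀ j, c < t j → w j * t j ≤ 1)
    (hw3 : ∀ j, c < t j → 1 ≤ (1 + δ) * (w j * t j)) :
    ∑ j, w j * (uu (Function.update t j c) - uu t)
      ≤ 1 / ((Fintype.card ι : ℝ) + 1) + δ / 2
        + (Fintype.card ι : ℝ) * (1 / (2 * (s - 1))) := by
  have h := drift_vec hs hδ hL w hw0 hw1 hw2 hw3
  have hδ1 : 0 < 1 + δ := by linarith
  have hN : (cle t c : ℝ) ≤ Fintype.card ι := by exact_mod_cast cle_le_card t c
  have h1 : 1 / ((Fintype.card ι : ℝ) + 1) ≤ 1 / ((cle t c : ℝ) + 1) :=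
    one_div_le_one_div_of_le (by positivity) (by linarith)
  have h0 : 0 ≤ 1 / ((Fintype.card ι : ℝ) + 1) := by positivity
  set A := 1 / ((cle t c : ℝ) + 1) with hA
  set B := 1 / ((Fintype.card ι : ℝ) + 1) with hB
  have hinv : 1 - δ ≤ 1 / (1 + δ) := by
    rw [le_div_iff₀ hδ1]
    nlinarith
  have h2 : (1 - δ) * (A - B) ≤ 1 / (1 + δ) * (A - B) :=
    mul_le_mul_of_nonneg_right hinv (by linarith)
  have h2' : 0 ≤ 1 / (1 + δ) * (A - B) := mul_nonneg (by positivity) (by linarith)
  split_ifs at h with h3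
  · have h4 : (1 : ℝ) ≤ cle t c := by
      have := clt_le_cle t c
      exact_mod_cast (by omega : 1 ≤ cle t c)
    have h5 : A ≤ 1 / 2 := by
      rw [hA]
      exact one_div_le_one_div_of_le (by norm_num) (by linarith)
    have h6 : δ * (A - B) ≤ δ * (1 / 2) := mul_le_mul_of_nonneg_left (by linarith) hδ
    linarith
  · linarith

/-- the drift if the request is the point itself -/
theorem drift_self {s δ : ℝ} (hs : 1 < s) (hδ : 0 ≤ δ) {t : ι → ℝ}
    (hL : Sep s (insert 0 (univ.image t))) (ht : ∀ j, 0 < t j) (w : ι → ℝ)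
    (hw0 : ∀ j, 0 ≤ w j)
    (hw2 : ∀ j, w j * t j ≤ 1)
    (hw3 : ∀ j, 1 ≤ (1 + δ) * (w j * t j)) :
    ∑ j, w j * (uu (Function.update t j 0) - uu t)
      ≤ - ((1 - δ) * (1 - 1 / ((Fintype.card ι : ℝ) + 1)))
        + (Fintype.card ι : ℝ) * (1 / (2 * (s - 1))) := by
  have h := drift_vec hs hδ hL w hw0 (fun j hj => absurd (ht j) (not_lt.2 hj.le))
    (fun j _ => hw2 j) (fun j _ => hw3 j)
  have hδ1 : 0 < 1 + δ := by linarith
  have h1 : cle t 0 = 0 := by
    rw [cle, card_eq_zero, filter_eq_empty_iff]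
    intro j _
    exact not_le.2 (ht j)
  have h2 : clt t 0 = 0 := by
    have := clt_le_cle t 0
    omega
  rw [h1, h2, if_neg (lt_irrefl _)] at h
  have hinv : 1 - δ ≤ 1 / (1 + δ) := by
    rw [le_div_iff₀ hδ1]
    nlinarith
  have h0 : 1 / ((Fintype.card ι : ℝ) + 1) ≤ 1 := by
    rw [div_le_one (by positivity)]
    have : (0 : ℝ) ≤ Fintype.card ι := by positivity
    linarith
  have h3 := mul_le_mul_of_nonneg_right hinv
    (by linarith : 0 ≤ 1 - 1 / ((Fintype.card ι : ℝ) + 1))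
  simp only [Nat.cast_zero, zero_add, div_one, add_zero] at h ⊢
  linarith

end Vector

/-- `ρ` is an ultrametric on `M` which is separated by the factor `s` at every point, and the
distance of `M` lies between `ρ` and `(1 + 1/s) ρ`. -/
structure IsHier {M : Type*} [MetricSpace M] (s : ℝ) (ρ : M → M → ℝ) : Prop where
  symm : ∀ x y, ρ x y = ρ y x
  ultra : ∀ x y z, ρ x z ≤ max (ρ x y) (ρ y z)
  sep : ∀ x y z, ρ x y < ρ x z → s * ρ x y ≤ ρ x z
  low : ∀ x y, ρ x y ≤ dist x y
  upp : ∀ x y, dist x y ≤ (1 + 1 / s) * ρ x y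

section Space

variable {M : Type*} [MetricSpace M] {s : ℝ} {ρ : M → M → ℝ}

theorem IsHier.nonneg (h : IsHier s ρ) (hs : 1 < s) (x y : M) : 0 ≤ ρ x y := by
  have h1 := h.upp x y
  have h2 : 0 < 1 + 1 / s := by positivity
  have h3 : 0 ≤ (1 + 1 / s) * ρ x y := le_trans dist_nonneg h1
  exact nonneg_of_mul_nonneg_right h3 h2

theorem IsHier.pos (h : IsHier s ρ) (hs : 1 < s) {x y : M} (hxy : x ≠ y) : 0 < ρ x y := by
  rcases (h.nonneg hs x y).lt_or_eq with h1 | h1
  · exact h1
  · have h2 := h.upp x y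
    rw [← h1, mul_zero] at h2
    exact absurd (dist_le_zero.1 h2) hxy

theorem IsHier.self (h : IsHier s ρ) (hs : 1 < s) (x : M) : ρ x x = 0 := by
  have h1 := h.low x x
  rw [dist_self] at h1
  exact le_antisymm h1 (h.nonneg hs x x)

theorem IsHier.sepOf (h : IsHier s ρ) (hs : 1 < s) (a : M) {L : Finset ℝ}
    (hL : ∀ τ ∈ L, ∃ y, τ = ρ a y) : Sep s L := by
  constructor
  · intro τ hτ
    obtain ⟨y, rfl⟩ := hL τ hτ
    exact h.nonneg hs a y
  · intro τ hτ τ' hτ' hlt
    obtain ⟨y, rfl⟩ := hL τ hτ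
    obtain ⟨y', rfl⟩ := hL τ' hτ'
    exact h.sep a y y' hlt

/-- isosceles triangles -/
theorem IsHier.iso (h : IsHier s ρ) {a b x : M} (hab : ρ a b < ρ a x) : ρ b x = ρ a x := by
  have h1 := h.ultra a b x
  have h2 := h.ultra b a x
  rw [h.symm b a] at h2
  rcases le_max_iff.1 h1 with h3 | h3
  · exact absurd h3 (not_le.2 hab)
  · rcases le_max_iff.1 h2 with h4 | h4
    · exact absurd (h3.trans h4) (not_le.2 hab)
    · exact le_antisymm h4 h3

variable {k : ℕ}

/-- one term of the potential: the adversary's server is at `a` -/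
noncomputable def term (ρ : M → M → ℝ) (x : Fin k → M) (a : M) : ℝ := uu fun j => ρ a (x j)

/-- the potential -/
noncomputable def pot (ρ : M → M → ℝ) (x z : Fin k → M) : ℝ := ∑ v, term ρ x (z v)

theorem pot_nonneg (h : IsHier s ρ) (hs : 1 < s) (x z : Fin k → M) : 0 ≤ pot ρ x z :=
  sum_nonneg fun _ _ => uu_nonneg fun _ => h.nonneg hs _ _

omit [MetricSpace M] in
theorem mem_range_of_mem {x : Fin k → M} {a b : M} {τ : ℝ}
    (hτ : τ ∈ insert (ρ a b) (univ.image fun j => ρ a (x j))) : ∃ y, τ = ρ a y := by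
  rcases mem_insert.1 hτ with h1 | h1
  · exact ⟨b, h1⟩
  · obtain ⟨j, _, h2⟩ := mem_image.1 h1
    exact ⟨x j, h2.symm⟩

theorem term_lip (h : IsHier s ρ) (hs : 1 < s) (x : Fin k → M) (a b : M) :
    term ρ x a ≤ term ρ x b + s / (2 * (s - 1)) * dist b a := by
  have hs1 : 0 < s - 1 := by linarith
  rcases eq_or_ne a b with hab | hab
  · rw [hab, dist_self, mul_zero, add_zero]
  have hR : 0 < ρ a b := h.pos hs hab
  have hsy : ρ b a = ρ a b := h.symm b a
  have hkey : ∀ y, ρ a b < ρ a y → ρ b y = ρ a y := fun y hy => h.iso hy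
  have hkey' : ∀ y, ρ a b < ρ b y → ρ a y = ρ b y := fun y hy => h.iso (by rw [hsy]; exact hy)
  have hd := uu_diff hs (L := insert (ρ b a) (univ.image fun j => ρ b (x j)))
    (L' := insert (ρ a b) (univ.image fun j => ρ a (x j)))
    (h.sepOf hs b fun τ hτ => mem_range_of_mem hτ)
    (h.sepOf hs a fun τ hτ => mem_range_of_mem hτ)
    (t := fun j => ρ b (x j)) (t' := fun j => ρ a (x j)) (R := ρ a b)
    (by rw [hsy]; exact mem_insert_self _ _) (mem_insert_self _ _)
    (subset_insert _ _) (subset_insert _ _)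
    (by
      ext τ
      rw [mem_filter, mem_filter, mem_insert, mem_insert]
      constructor
      · rintro ⟨h1 | h1, h2⟩
        · rw [h1, hsy] at h2
          exact absurd h2 (lt_irrefl _)
        · obtain ⟨j, _, rfl⟩ := mem_image.1 h1
          exact ⟨Or.inr (mem_image.2 ⟨j, mem_univ _, hkey' _ h2⟩), h2⟩
      · rintro ⟨h1 | h1, h2⟩
        · rw [h1] at h2
          exact absurd h2 (lt_irrefl _)
        · obtain ⟨j, _, rfl⟩ := mem_image.1 h1
          exact ⟨Or.inr (mem_image.2 ⟨j, mem_univ _, hkey _ h2⟩), h2⟩)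
    (by
      intro τ hτ
      have hle : ∀ y, ρ a y ≤ τ ↔ ρ b y ≤ τ := by
        intro y
        constructor
        · intro h1
          by_contra h2
          rw [hkey' y (hτ.trans (not_le.1 h2))] at h1
          exact h2 h1
        · intro h1
          by_contra h2
          rw [hkey y (hτ.trans (not_le.1 h2))] at h1
          exact h2 h1
      have hlt : ∀ y, ρ a y < τ ↔ ρ b y < τ := by
        intro y
        constructor
        · intro h1
          by_contra h2
          rw [hkey' y (lt_of_lt_of_le hτ (not_lt.1 h2))] at h1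
          exact h2 h1
        · intro h1
          by_contra h2
          rw [hkey y (lt_of_lt_of_le hτ (not_lt.1 h2))] at h1
          exact h2 h1
      constructor
      · rw [cle, cle]
        congr 1
        ext j
        rw [mem_filter, mem_filter, hle]
      · rw [clt, clt]
        congr 1
        ext j
        rw [mem_filter, mem_filter, hlt])
  have h1 : lev (fun j => ρ a (x j)) (ρ a b) ≤ ρ a b * (1 / 2) :=
    mul_le_mul_of_nonneg_left (gg_le _ _) hR.le
  have h2 : 0 ≤ lev (fun j => ρ b (x j)) (ρ a b) :=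
    mul_nonneg hR.le (gg_nonneg (clt_le_cle _ _))
  have h3 : ρ a b * (1 / 2) + ρ a b / (2 * (s - 1)) = s / (2 * (s - 1)) * ρ a b := by
    field_simp
    ring
  have h4 : s / (2 * (s - 1)) * ρ a b ≤ s / (2 * (s - 1)) * dist b a :=
    mul_le_mul_of_nonneg_left (by rw [dist_comm]; exact h.low a b) (by positivity)
  rw [term, term]
  linarith

theorem pot_lip (h : IsHier s ρ) (hs : 1 < s) (x z z' : Fin k → M) :
    pot ρ x z' ≤ pot ρ x z + s / (2 * (s - 1)) * ∑ v, dist (z v) (z' v) := by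
  rw [pot, pot, mul_sum, ← sum_add_distrib]
  exact sum_le_sum fun v _ => term_lip h hs x (z' v) (z v)

omit [MetricSpace M] in
theorem term_upd (x : Fin k → M) (a r : M) (j : Fin k) :
    term ρ (Function.update x j r) a = uu (Function.update (fun i => ρ a (x i)) j (ρ a r)) := by
  rw [term]
  congr 1
  funext i
  by_cases h : i = j
  · rw [h, Function.update_self, Function.update_self]
  · rw [Function.update_of_ne h, Function.update_of_ne h]

theorem rate_le (h : IsHier s ρ) {r y : M} (hy : y ≠ r) {τ : ℝ}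
    (hτ : τ ≤ ρ y r) : (dist y r)⁻¹ * τ ≤ 1 := by
  have h1 : 0 < dist y r := dist_pos.2 hy
  rw [inv_mul_le_iff₀ h1, mul_one]
  exact hτ.trans (h.low y r)

theorem le_rate (h : IsHier s ρ) {r y : M} (hy : y ≠ r) {τ : ℝ}
    (hτ : ρ y r ≤ τ) (hs : 1 < s) : 1 ≤ (1 + 1 / s) * ((dist y r)⁻¹ * τ) := by
  have h1 : 0 < dist y r := dist_pos.2 hy
  have h2 : 0 < 1 + 1 / s := by positivity
  have h3 : dist y r ≤ (1 + 1 / s) * τ :=
    (h.upp y r).trans (mul_le_mul_of_nonneg_left hτ h2.le)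
  have h4 : (1 + 1 / s) * ((dist y r)⁻¹ * τ) = ((1 + 1 / s) * τ) / dist y r := by
    field_simp
  rw [h4, le_div_iff₀ h1, one_mul]
  exact h3

theorem term_drift (h : IsHier s ρ) (hs : 1 < s) {x : Fin k → M} {r : M}
    (hx : ∀ j, x j ≠ r) (a : M) :
    ∑ j, (dist (x j) r)⁻¹ * (term ρ (Function.update x j r) a - term ρ x a)
      ≤ 1 / ((k : ℝ) + 1) + 1 / s / 2 + k * (1 / (2 * (s - 1))) := by
  have hd := drift_other hs (by positivity : 0 ≤ 1 / s)
    (t := fun j => ρ a (x j)) (c := ρ a r)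
    (h.sepOf hs a fun τ hτ => mem_range_of_mem hτ)
    (fun j => (dist (x j) r)⁻¹) (fun j => inv_nonneg.2 dist_nonneg)
    (fun j hj => rate_le h (hx j) (le_of_eq (h.iso hj).symm))
    (fun j hj => rate_le h (hx j) (by
      have h1 := h.iso hj
      rw [h.symm (x j) r, h1]))
    (fun j hj => le_rate h (hx j) (by
      have h1 := h.iso hj
      rw [h.symm (x j) r, h1]) hs)
  rw [Fintype.card_fin] at hd
  simp only [term_upd]
  exact hd

theorem term_drift_self (h : IsHier s ρ) (hs : 1 < s) {x : Fin k → M} {r : M}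
    (hx : ∀ j, x j ≠ r) :
    ∑ j, (dist (x j) r)⁻¹ * (term ρ (Function.update x j r) r - term ρ x r)
      ≤ - ((1 - 1 / s) * (1 - 1 / ((k : ℝ) + 1))) + k * (1 / (2 * (s - 1))) := by
  have hd := drift_self hs (by positivity : 0 ≤ 1 / s)
    (t := fun j => ρ r (x j))
    (by
      have := h.sepOf hs r (L := insert (ρ r r) (univ.image fun j => ρ r (x j)))
        fun τ hτ => mem_range_of_mem hτ
      rwa [h.self hs r] at this)
    (fun j => h.pos hs (hx j).symm)
    (fun j => (dist (x j) r)⁻¹) (fun j => inv_nonneg.2 dist_nonneg)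
    (fun j => rate_le h (hx j) (le_of_eq (h.symm r (x j))))
    (fun j => le_rate h (hx j) (le_of_eq (h.symm (x j) r)) hs)
  rw [Fintype.card_fin] at hd
  simp only [term_upd, h.self hs r]
  exact hd

/-- the drift of the potential -/
theorem pot_drift (h : IsHier s ρ) (hs : 1 < s) {x z : Fin k → M} {r : M}
    (hx : ∀ j, x j ≠ r) (hz : ∃ v, z v = r) :
    ((k : ℝ) + 1) * ∑ j, (dist (x j) r)⁻¹ * (pot ρ (Function.update x j r) z - pot ρ x z)
      ≤ - (1 - ((k : ℝ) + 1) ^ 3 / (2 * (s - 1))) := by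
  obtain ⟨v₀, hv₀⟩ := hz
  have hs1 : 0 < s - 1 := by linarith
  have h1 : ∑ j, (dist (x j) r)⁻¹ * (pot ρ (Function.update x j r) z - pot ρ x z)
      = ∑ v, ∑ j, (dist (x j) r)⁻¹ * (term ρ (Function.update x j r) (z v) - term ρ x (z v)) := by
    rw [sum_comm]
    refine sum_congr rfl fun j _ => ?_
    rw [pot, pot, ← sum_sub_distrib, mul_sum]
  have h2 : ∑ v ∈ univ.erase v₀,
      ∑ j, (dist (x j) r)⁻¹ * (term ρ (Function.update x j r) (z v) - term ρ x (z v))
      ≤ ∑ _v ∈ univ.erase v₀, (1 / ((k : ℝ) + 1) + 1 / s / 2 + k * (1 / (2 * (s - 1)))) :=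
    sum_le_sum fun v _ => term_drift h hs hx (z v)
  have hk : 1 ≤ k := by
    have := v₀.2
    omega
  have hk' : (1 : ℝ) ≤ k := by exact_mod_cast hk
  rw [sum_const, card_erase_of_mem (mem_univ _), card_univ, Fintype.card_fin, nsmul_eq_mul,
    Nat.cast_sub hk, Nat.cast_one] at h2
  have h3 := term_drift_self h hs hx
  rw [h1, ← add_sum_erase _ _ (mem_univ v₀), hv₀]
  have hk1 : (0 : ℝ) < (k : ℝ) + 1 := by positivity
  have h4 : 1 / s ≤ 1 / (s - 1) := one_div_le_one_div_of_le hs1 (by linarith)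
  set e : ℝ := 1 / (s - 1) with he
  set f : ℝ := 1 / s with hf
  have he0 : 0 < e := by rw [he]; positivity
  have h5 : 1 / (2 * (s - 1)) = e / 2 := by
    rw [he]
    field_simp
  have h6 : ((k : ℝ) + 1) ^ 3 / (2 * (s - 1)) = ((k : ℝ) + 1) ^ 3 * (e / 2) := by
    rw [he]
    field_simp
  rw [h5] at h2 h3
  rw [h6]
  set S1 := ∑ j, (dist (x j) r)⁻¹ * (term ρ (Function.update x j r) r - term ρ x r)
  set S2 := ∑ v ∈ univ.erase v₀,
      ∑ j, (dist (x j) r)⁻¹ * (term ρ (Function.update x j r) (z v) - term ρ x (z v))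
  have h7 : ((k : ℝ) + 1) * (S1 + S2)
      ≤ ((k : ℝ) + 1) * ((- ((1 - f) * (1 - 1 / ((k : ℝ) + 1))) + k * (e / 2))
        + ((k : ℝ) - 1) * (1 / ((k : ℝ) + 1) + f / 2 + k * (e / 2))) :=
    mul_le_mul_of_nonneg_left (by linarith) hk1.le
  refine h7.trans ?_
  have h8 : ((k : ℝ) + 1) * ((- ((1 - f) * (1 - 1 / ((k : ℝ) + 1))) + k * (e / 2))
        + ((k : ℝ) - 1) * (1 / ((k : ℝ) + 1) + f / 2 + k * (e / 2)))
      = -1 + f * (k + ((k : ℝ) ^ 2 - 1) / 2) + (k : ℝ) ^ 2 * ((k : ℝ) + 1) * (e / 2) := by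
    field_simp
    ring
  rw [h8]
  have h9 : f * (k + ((k : ℝ) ^ 2 - 1) / 2) ≤ e * (k + ((k : ℝ) ^ 2 - 1) / 2) :=
    mul_le_mul_of_nonneg_right h4 (by nlinarith)
  nlinarith [sq_nonneg ((k : ℝ) + 1), mul_pos he0 hk1, mul_nonneg he0.le (sq_nonneg (k : ℝ))]

end Space

end Pool.Agent.Lib.MP_af7143_lc.Hst
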