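import Pool.Agent.Lib.MP_af7143_lc.HstTwo
import Pool.Agent.Lib.MP_af7143_lc.HstPotential

/-!
# Drift of the exact potential on ultrametric spaces with two different distances
-/

set_option autoImplicit false

open Finset

namespace Pool.Agent.Lib.MP_af7143_lc.Hst

section Vector

variable {ι : Type*} [Fintype ι]

/-- one term of the exact potential, as a function of the distances of the servers -/
noncomputable def u2 (k : ℕ) (r₁ r₀ : ℝ) (t : ι → ℝ) : ℝ :=
  if cle t 0 = 0 then ww k r₁ r₀ (cle t r₁) else vv k r₁ r₀ (cle t r₁)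

theorem cle_cast (t : ι → ℝ) (τ : ℝ) :
    (cle t τ : ℝ) = ∑ j, (if t j ≤ τ then (1 : ℝ) else 0) := by
  rw [cle, card_filter]
  push_cast
  rfl

theorem sum3 {r₁ r₀ : ℝ} (h1 : 0 < r₁) (h0 : r₁ < r₀) {t : ι → ℝ}
    (ht : ∀ j, t j = 0 ∨ t j = r₁ ∨ t j = r₀) (α γ β : ℝ) :
    ∑ j, (if t j = 0 then α else if t j = r₁ then γ else β)
      = (cle t 0 : ℝ) * α + ((cle t r₁ : ℝ) - (cle t 0 : ℝ)) * γ
        + ((Fintype.card ι : ℝ) - (cle t r₁ : ℝ)) * β := by
  have h : ∀ j, (if t j = 0 then α else if t j = r₁ then γ else β)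
      = (if t j ≤ 0 then (1 : ℝ) else 0) * α
        + ((if t j ≤ r₁ then (1 : ℝ) else 0) - (if t j ≤ 0 then (1 : ℝ) else 0)) * γ
        + (1 - (if t j ≤ r₁ then (1 : ℝ) else 0)) * β := by
    intro j
    rcases ht j with h2 | h2 | h2
    · rw [if_pos h2, if_pos h2.le, if_pos (by rw [h2]; exact h1.le)]
      ring
    · rw [if_neg (by rw [h2]; exact h1.ne'), if_pos h2,
        if_neg (by rw [h2]; exact not_le.2 h1), if_pos h2.le]
      ring
    · rw [if_neg (by rw [h2]; exact (h1.trans h0).ne'), if_neg (by rw [h2]; exact h0.ne'),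
        if_neg (by rw [h2]; exact not_le.2 (h1.trans h0)),
        if_neg (by rw [h2]; exact not_le.2 h0)]
      ring
  rw [sum_congr rfl fun j _ => h j, sum_add_distrib, sum_add_distrib, ← sum_mul, ← sum_mul,
    ← sum_mul, sum_sub_distrib, sum_sub_distrib, ← cle_cast, ← cle_cast, sum_const, card_univ,
    nsmul_eq_mul, mul_one]

theorem cle_mono (t : ι → ℝ) {τ τ' : ℝ} (h : τ ≤ τ') : cle t τ ≤ cle t τ' := by
  rw [cle, cle]
  refine card_le_card fun j hj => ?_
  rw [mem_filter] at hj ⊢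
  exact ⟨hj.1, hj.2.trans h⟩

theorem pos_of_le {t : ι → ℝ} {τ : ℝ} {j : ι} (h : t j ≤ τ) : 1 ≤ cle t τ := by
  rw [cle]
  exact card_pos.2 ⟨j, mem_filter.2 ⟨mem_univ _, h⟩⟩

theorem cle_lt_card {t : ι → ℝ} {τ : ℝ} {j : ι} (h : τ < t j) : cle t τ < Fintype.card ι := by
  rw [cle, ← card_univ]
  refine card_lt_card ⟨filter_subset _ _, fun h2 => ?_⟩
  exact absurd (mem_filter.1 (h2 (mem_univ j))).2 (not_le.2 h)

variable [DecidableEq ι]

theorem u2_drift_self {r₁ r₀ : ℝ} (h1 : 0 < r₁) (h0 : r₁ < r₀) {t : ι → ℝ}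
    (ht : ∀ j, t j = r₁ ∨ t j = r₀) {w : ι → ℝ} (hw : ∀ j, w j = (t j)⁻¹) :
    ∑ j, w j * (u2 (Fintype.card ι) r₁ r₀ (Function.update t j 0) - u2 (Fintype.card ι) r₁ r₀ t)
      = - (Fintype.card ι : ℝ) := by
  set k := Fintype.card ι with hk
  have hz : cle t 0 = 0 := by
    rw [cle, card_eq_zero, filter_eq_empty_iff]
    intro j _
    rcases ht j with h2 | h2
    · rw [h2]; exact not_le.2 h1
    · rw [h2]; exact not_le.2 (h1.trans h0)
  have hN : cle t r₁ ≤ k := cle_le_card t r₁
  have hterm : ∀ j, w j * (u2 k r₁ r₀ (Function.update t j 0) - u2 k r₁ r₀ t)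
      = if t j = 0 then 0 else if t j = r₁ then
          r₁⁻¹ * (vv k r₁ r₀ (cle t r₁) - ww k r₁ r₀ (cle t r₁))
        else r₀⁻¹ * (vv k r₁ r₀ (cle t r₁ + 1) - ww k r₁ r₀ (cle t r₁)) := by
    intro j
    have e1 := cle_upd t j 0 0
    have e2 := cle_upd t j 0 r₁
    rw [if_pos (le_refl _), hz] at e1
    rw [if_pos h1.le] at e2
    rcases ht j with h2 | h2
    · rw [if_neg (by rw [h2]; exact not_le.2 h1)] at e1
      rw [if_pos h2.le] at e2
      have e3 : cle (Function.update t j 0) 0 = 1 := by omega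
      have e4 : cle (Function.update t j 0) r₁ = cle t r₁ := by omega
      rw [if_neg (by rw [h2]; exact h1.ne'), if_pos h2, u2, u2, e3, e4, hz, if_neg one_ne_zero,
        if_pos rfl, hw, h2]
    · rw [if_neg (by rw [h2]; exact not_le.2 (h1.trans h0))] at e1
      rw [if_neg (by rw [h2]; exact not_le.2 h0)] at e2
      have e3 : cle (Function.update t j 0) 0 = 1 := by omega
      have e4 : cle (Function.update t j 0) r₁ = cle t r₁ + 1 := by omega
      rw [if_neg (by rw [h2]; exact (h1.trans h0).ne'), if_neg (by rw [h2]; exact h0.ne'), u2, u2,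
        e3, e4, hz, if_neg one_ne_zero, if_pos rfl, hw, h2]
  rw [sum_congr rfl fun j _ => hterm j, sum3 h1 h0 (fun j => Or.inr (ht j)), hz, ← hk]
  have h3 := drift_at (k := k) h1 h0 hN
  simp only [Nat.cast_zero, zero_mul, zero_add, sub_zero]
  exact h3

theorem u2_drift_in {r₁ r₀ : ℝ} (h1 : 0 < r₁) (h0 : r₁ < r₀) {t : ι → ℝ}
    (ht : ∀ j, t j = 0 ∨ t j = r₁ ∨ t j = r₀) {w : ι → ℝ}
    (hw1 : ∀ j, t j = 0 → w j = r₁⁻¹) (hw2 : ∀ j, t j = r₀ → w j = r₀⁻¹) :
    ∑ j, w j * (u2 (Fintype.card ι) r₁ r₀ (Function.update t j r₁) - u2 (Fintype.card ι) r₁ r₀ t)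
      ≤ 1 := by
  set k := Fintype.card ι with hk
  have hr0 : 0 < r₀ := h1.trans h0
  have hN : cle t r₁ ≤ k := cle_le_card t r₁
  have hw0 : ∀ j, t j = 0 ∨ t j = r₀ → 0 ≤ w j := by
    intro j hj
    rcases hj with h2 | h2
    · rw [hw1 j h2]; exact (inv_pos.2 h1).le
    · rw [hw2 j h2]; exact (inv_pos.2 hr0).le
  -- the counts after the move
  have hc0 : ∀ j, t j = 0 → cle (Function.update t j r₁) 0 + 1 = cle t 0 ∧
      cle (Function.update t j r₁) r₁ = cle t r₁ := by
    intro j h2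
    have e1 := cle_upd t j r₁ 0
    have e2 := cle_upd t j r₁ r₁
    rw [if_pos h2.le, if_neg (not_le.2 h1)] at e1
    rw [if_pos (by rw [h2]; exact h1.le), if_pos (le_refl _)] at e2
    omega
  have hc2 : ∀ j, t j = r₀ → cle (Function.update t j r₁) 0 = cle t 0 ∧
      cle (Function.update t j r₁) r₁ = cle t r₁ + 1 := by
    intro j h2
    have e1 := cle_upd t j r₁ 0
    have e2 := cle_upd t j r₁ r₁
    rw [if_neg (by rw [h2]; exact not_le.2 hr0), if_neg (not_le.2 h1)] at e1
    rw [if_neg (by rw [h2]; exact not_le.2 h0), if_pos (le_refl _)] at e2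
    omega
  have hc1 : ∀ j, t j = r₁ → Function.update t j r₁ = t := by
    intro j h2
    rw [← h2]
    exact Function.update_eq_self j t
  by_cases hone : cle t 0 = 1
  · have hterm : ∀ j, w j * (u2 k r₁ r₀ (Function.update t j r₁) - u2 k r₁ r₀ t)
        = if t j = 0 then r₁⁻¹ * (ww k r₁ r₀ (cle t r₁) - vv k r₁ r₀ (cle t r₁))
          else if t j = r₁ then 0
          else r₀⁻¹ * (vv k r₁ r₀ (cle t r₁ + 1) - vv k r₁ r₀ (cle t r₁)) := by
      intro j
      rcases ht j with h2 | h2 | h2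
      · obtain ⟨e1, e2⟩ := hc0 j h2
        rw [if_pos h2, u2, u2, e2, if_pos (by omega), if_neg (by omega), hw1 j h2]
      · rw [if_neg (by rw [h2]; exact h1.ne'), if_pos h2, hc1 j h2, sub_self, mul_zero]
      · obtain ⟨e1, e2⟩ := hc2 j h2
        rw [if_neg (by rw [h2]; exact hr0.ne'), if_neg (by rw [h2]; exact h0.ne'), u2, u2, e2,
          if_neg (by omega), if_neg (by omega), hw2 j h2]
    rw [sum_congr rfl fun j _ => hterm j, sum3 h1 h0 ht, hone, ← hk]
    have h3 := drift_in (k := k) h1 h0 hN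
    simp only [Nat.cast_one, one_mul, mul_zero, add_zero]
    exact h3.le
  · have hterm : ∀ j, w j * (u2 k r₁ r₀ (Function.update t j r₁) - u2 k r₁ r₀ t) ≤ 0 := by
      intro j
      rcases ht j with h2 | h2 | h2
      · obtain ⟨e1, e2⟩ := hc0 j h2
        rw [u2, u2, e2, if_neg (by omega), if_neg (by omega), sub_self, mul_zero]
      · rw [hc1 j h2, sub_self, mul_zero]
      · obtain ⟨e1, e2⟩ := hc2 j h2
        refine mul_nonpos_of_nonneg_of_nonpos (hw0 j (Or.inr h2)) ?_
        have hlt : cle t r₁ < k := cle_lt_card (j := j) (by rw [h2]; exact h0)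
        rw [u2, u2, e1, e2]
        split_ifs with h3
        · have := ww_anti (k := k) h1 h0 hlt
          linarith
        · have := vv_anti (k := k) h1 h0 (by omega : cle t r₁ ≤ cle t r₁ + 1)
          linarith
    exact (sum_nonpos fun j _ => hterm j).trans zero_le_one

theorem u2_drift_out {r₁ r₀ : ℝ} (h1 : 0 < r₁) (h0 : r₁ < r₀) {t : ι → ℝ}
    (ht : ∀ j, t j = 0 ∨ t j = r₁ ∨ t j = r₀) {w : ι → ℝ}
    (hw : ∀ j, t j = 0 ∨ t j = r₁ → w j = r₀⁻¹) :
    ∑ j, w j * (u2 (Fintype.card ι) r₁ r₀ (Function.update t j r₀) - u2 (Fintype.card ι) r₁ r₀ t)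
      ≤ 1 := by
  set k := Fintype.card ι with hk
  have hr0 : 0 < r₀ := h1.trans h0
  have hN : cle t r₁ ≤ k := cle_le_card t r₁
  have hmono : cle t 0 ≤ cle t r₁ := cle_mono t h1.le
  have hc0 : ∀ j, t j = 0 → cle (Function.update t j r₀) 0 + 1 = cle t 0 ∧
      cle (Function.update t j r₀) r₁ + 1 = cle t r₁ := by
    intro j h2
    have e1 := cle_upd t j r₀ 0
    have e2 := cle_upd t j r₀ r₁
    rw [if_pos h2.le, if_neg (not_le.2 hr0)] at e1
    rw [if_pos (by rw [h2]; exact h1.le), if_neg (not_le.2 h0)] at e2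
    omega
  have hc1 : ∀ j, t j = r₁ → cle (Function.update t j r₀) 0 = cle t 0 ∧
      cle (Function.update t j r₀) r₁ + 1 = cle t r₁ := by
    intro j h2
    have e1 := cle_upd t j r₀ 0
    have e2 := cle_upd t j r₀ r₁
    rw [if_neg (by rw [h2]; exact not_le.2 h1), if_neg (not_le.2 hr0)] at e1
    rw [if_pos h2.le, if_neg (not_le.2 h0)] at e2
    omega
  have hc2 : ∀ j, t j = r₀ → Function.update t j r₀ = t := by
    intro j h2
    rw [← h2]
    exact Function.update_eq_self j t
  rcases Nat.eq_zero_or_pos (cle t r₁) with hN0 | hN0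
  · have hterm : ∀ j, w j * (u2 k r₁ r₀ (Function.update t j r₀) - u2 k r₁ r₀ t) = 0 := by
      intro j
      rcases ht j with h2 | h2 | h2
      · have := pos_of_le (t := t) (τ := r₁) (j := j) (by rw [h2]; exact h1.le)
        omega
      · have := pos_of_le (t := t) (τ := r₁) (j := j) h2.le
        omega
      · rw [hc2 j h2, sub_self, mul_zero]
    rw [sum_congr rfl fun j _ => hterm j, sum_const_zero]
    exact zero_le_one
  obtain ⟨N, hNN⟩ : ∃ N, cle t r₁ = N + 1 := ⟨cle t r₁ - 1, by omega⟩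
  have hNk : N + 1 ≤ k := by omega
  have hv := vv_succ (k := k) (r₁ := r₁) (r₀ := r₀) (N := N) (by omega)
  rcases Nat.eq_zero_or_pos (cle t 0) with hz | hz
  · -- the point is uncovered
    have hterm : ∀ j, w j * (u2 k r₁ r₀ (Function.update t j r₀) - u2 k r₁ r₀ t)
        = if t j = 0 then 0
          else if t j = r₁ then r₀⁻¹ * (ww k r₁ r₀ N - ww k r₁ r₀ (N + 1))
          else 0 := by
      intro j
      rcases ht j with h2 | h2 | h2
      · have := pos_of_le (t := t) (τ := 0) (j := j) h2.le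
        omega
      · obtain ⟨e1, e2⟩ := hc1 j h2
        have e3 : cle (Function.update t j r₀) r₁ = N := by omega
        rw [if_neg (by rw [h2]; exact h1.ne'), if_pos h2, u2, u2, e3, hNN, if_pos (by omega),
          if_pos (by omega), hw j (Or.inr h2)]
      · rw [if_neg (by rw [h2]; exact hr0.ne'), if_neg (by rw [h2]; exact h0.ne'), hc2 j h2,
          sub_self, mul_zero]
    rw [sum_congr rfl fun j _ => hterm j, sum3 h1 h0 ht, hz, hNN]
    have h3 := drift_out (k := k) h1 h0 hNk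
    have h4 : ((0 : ℕ) : ℝ) * 0
        + (((N + 1 : ℕ) : ℝ) - ((0 : ℕ) : ℝ)) * (r₀⁻¹ * (ww k r₁ r₀ N - ww k r₁ r₀ (N + 1)))
        + ((Fintype.card ι : ℝ) - ((N + 1 : ℕ) : ℝ)) * 0
        = r₀⁻¹ * (((N : ℝ) + 1) * (ww k r₁ r₀ N - ww k r₁ r₀ (N + 1))) := by
      push_cast
      ring
    rw [h4, inv_mul_le_iff₀ hr0, mul_one]
    exact h3
  · by_cases hone : cle t 0 = 1
    · have hterm : ∀ j, w j * (u2 k r₁ r₀ (Function.update t j r₀) - u2 k r₁ r₀ t)
          = if t j = 0 then r₀⁻¹ * (ww k r₁ r₀ N - vv k r₁ r₀ (N + 1))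
            else if t j = r₁ then r₀⁻¹ * (vv k r₁ r₀ N - vv k r₁ r₀ (N + 1))
            else 0 := by
        intro j
        rcases ht j with h2 | h2 | h2
        · obtain ⟨e1, e2⟩ := hc0 j h2
          have e3 : cle (Function.update t j r₀) r₁ = N := by omega
          rw [if_pos h2, u2, u2, e3, hNN, if_pos (by omega), if_neg (by omega),
            hw j (Or.inl h2)]
        · obtain ⟨e1, e2⟩ := hc1 j h2
          have e3 : cle (Function.update t j r₀) r₁ = N := by omega
          rw [if_neg (by rw [h2]; exact h1.ne'), if_pos h2, u2, u2, e3, hNN, if_neg (by omega),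
            if_neg (by omega), hw j (Or.inr h2)]
        · rw [if_neg (by rw [h2]; exact hr0.ne'), if_neg (by rw [h2]; exact h0.ne'), hc2 j h2,
            sub_self, mul_zero]
      rw [sum_congr rfl fun j _ => hterm j, sum3 h1 h0 ht, hone, hNN]
      have h4 : ww k r₁ r₀ N - vv k r₁ r₀ (N + 1) = r₀ - (N : ℝ) * yy k r₁ r₀ N := by
        rw [ww, hv]
        ring
      have h5 : vv k r₁ r₀ N - vv k r₁ r₀ (N + 1) = yy k r₁ r₀ N := by
        rw [hv]
        ring
      rw [h4, h5]
      apply le_of_eq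
      push_cast
      field_simp
      ring
    · have hterm : ∀ j, w j * (u2 k r₁ r₀ (Function.update t j r₀) - u2 k r₁ r₀ t)
          = if t j = 0 then r₀⁻¹ * yy k r₁ r₀ N
            else if t j = r₁ then r₀⁻¹ * yy k r₁ r₀ N
            else 0 := by
        intro j
        have h5 : vv k r₁ r₀ N - vv k r₁ r₀ (N + 1) = yy k r₁ r₀ N := by
          rw [hv]
          ring
        rcases ht j with h2 | h2 | h2
        · obtain ⟨e1, e2⟩ := hc0 j h2
          have e3 : cle (Function.update t j r₀) r₁ = N := by omega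
          rw [if_pos h2, u2, u2, e3, hNN, if_neg (by omega), if_neg (by omega),
            hw j (Or.inl h2), h5]
        · obtain ⟨e1, e2⟩ := hc1 j h2
          have e3 : cle (Function.update t j r₀) r₁ = N := by omega
          rw [if_neg (by rw [h2]; exact h1.ne'), if_pos h2, u2, u2, e3, hNN, if_neg (by omega),
            if_neg (by omega), hw j (Or.inr h2), h5]
        · rw [if_neg (by rw [h2]; exact hr0.ne'), if_neg (by rw [h2]; exact h0.ne'), hc2 j h2,
            sub_self, mul_zero]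
      rw [sum_congr rfl fun j _ => hterm j, sum3 h1 h0 ht, hNN]
      have h3 := yy_le (k := k) h1 h0 (c := N) (by omega)
      have h4 : (cle t 0 : ℝ) * (r₀⁻¹ * yy k r₁ r₀ N)
          + (((N + 1 : ℕ) : ℝ) - (cle t 0 : ℝ)) * (r₀⁻¹ * yy k r₁ r₀ N)
          + ((Fintype.card ι : ℝ) - ((N + 1 : ℕ) : ℝ)) * 0
          = r₀⁻¹ * (((N : ℝ) + 1) * yy k r₁ r₀ N) := by
        push_cast
        ring
      rw [h4, inv_mul_le_iff₀ hr0, mul_one]
      exact h3

end Vector

section Space

variable {M : Type*} [MetricSpace M] {ρ : M → ℝ} {r₀ : ℝ} {k : ℕ}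

/-- ultrametric spaces of depth two: the distance of different clusters is `r₀`, the distances
inside of the cluster of `x` are `ρ x` -/
structure IsTwo (M : Type*) [MetricSpace M] (ρ : M → ℝ) (r₀ : ℝ) : Prop where
  pos : ∀ x, 0 < ρ x
  lt : ∀ x, ρ x < r₀
  vals : ∀ x y : M, dist x y = 0 ∨ dist x y = ρ x ∨ dist x y = r₀
  ultra : ∀ x y z : M, dist x z ≤ max (dist x y) (dist y z)

theorem IsTwo.le (h : IsTwo M ρ r₀) (x y : M) : dist x y ≤ r₀ := by
  rcases h.vals x y with h1 | h1 | h1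
  · rw [h1]; exact ((h.pos x).trans (h.lt x)).le
  · rw [h1]; exact (h.lt x).le
  · exact h1.le

/-- one term of the potential -/
noncomputable def term2 (ρ : M → ℝ) (r₀ : ℝ) (x : Fin k → M) (a : M) : ℝ :=
  u2 k (ρ a) r₀ fun j => dist a (x j)

theorem term2_upd (x : Fin k → M) (a r : M) (j : Fin k) :
    term2 ρ r₀ (Function.update x j r) a
      = u2 k (ρ a) r₀ (Function.update (fun i => dist a (x i)) j (dist a r)) := by
  rw [term2]
  congr 1
  funext i
  by_cases h : i = j
  · rw [h, Function.update_self, Function.update_self]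
  · rw [Function.update_of_ne h, Function.update_of_ne h]

theorem term2_drift_self (h : IsTwo M ρ r₀) {x : Fin k → M} {r : M} (hx : ∀ j, x j ≠ r) :
    ∑ j, (dist (x j) r)⁻¹ * (term2 ρ r₀ (Function.update x j r) r - term2 ρ r₀ x r)
      = - (k : ℝ) := by
  have h1 := u2_drift_self (h.pos r) (h.lt r) (t := fun j => dist r (x j))
    (fun j => by
      rcases h.vals r (x j) with h2 | h2
      · exact absurd (dist_eq_zero.1 h2).symm (hx j)
      · exact h2)
    (w := fun j => (dist (x j) r)⁻¹) (fun j => by rw [dist_comm])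
  rw [Fintype.card_fin] at h1
  simp only [term2_upd, dist_self]
  exact h1

theorem term2_drift (h : IsTwo M ρ r₀) {x : Fin k → M} {r : M} (hx : ∀ j, x j ≠ r) (a : M) :
    ∑ j, (dist (x j) r)⁻¹ * (term2 ρ r₀ (Function.update x j r) a - term2 ρ r₀ x a)
      ≤ 1 := by
  have h1 := h.pos a
  have h0 := h.lt a
  rcases h.vals a r with hc | hc | hc
  · have ha : a = r := dist_eq_zero.1 hc
    rw [ha, term2_drift_self h hx]
    have : (0 : ℝ) ≤ k := by positivity
    linarith
  · have hd := u2_drift_in h1 h0 (t := fun j => dist a (x j)) (fun j => h.vals a (x j))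
      (w := fun j => (dist (x j) r)⁻¹)
      (fun j hj => by
        have : a = x j := dist_eq_zero.1 hj
        rw [← this, hc])
      (fun j hj => by
        have h2 := h.ultra a r (x j)
        have hj' : dist a (x j) = r₀ := hj
        rw [hc, hj'] at h2
        have h3 : r₀ ≤ dist (x j) r := by
          rcases le_max_iff.1 h2 with h4 | h4
          · exact absurd h4 (not_le.2 h0)
          · rw [dist_comm]
            exact h4
        rw [le_antisymm (h.le _ _) h3])
    rw [Fintype.card_fin] at hd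
    simp only [term2_upd, hc]
    exact hd
  · have hd := u2_drift_out h1 h0 (t := fun j => dist a (x j)) (fun j => h.vals a (x j))
      (w := fun j => (dist (x j) r)⁻¹)
      (fun j hj => by
        have h2 := h.ultra a (x j) r
        have hj' : dist a (x j) ≤ ρ a := by
          rcases hj with h3 | h3
          · have : dist a (x j) = 0 := h3
            rw [this]
            exact h1.le
          · exact le_of_eq h3
        rw [hc] at h2
        have h3 : r₀ ≤ dist (x j) r := by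
          rcases le_max_iff.1 h2 with h4 | h4
          · exact absurd (h4.trans hj') (not_le.2 h0)
          · exact h4
        rw [le_antisymm (h.le _ _) h3])
    rw [Fintype.card_fin] at hd
    simp only [term2_upd, hc]
    exact hd

theorem cle_le_fin (t : Fin k → ℝ) (τ : ℝ) : cle t τ ≤ k := by
  have := cle_le_card t τ
  rwa [Fintype.card_fin] at this

theorem term2_nonneg (h : IsTwo M ρ r₀) (x : Fin k → M) (a : M) : 0 ≤ term2 ρ r₀ x a := by
  rw [term2, u2]
  split_ifs
  · exact ww_nonneg (h.pos a) (h.lt a) (cle_le_fin _ _)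
  · exact vv_nonneg (h.pos a) (h.lt a) _

theorem term2_le (h : IsTwo M ρ r₀) (hk : 1 ≤ k) (x : Fin k → M) (a : M) :
    term2 ρ r₀ x a ≤ r₀ * (((k : ℝ) + 1) / 2) := by
  rw [term2, u2]
  split_ifs
  · exact ww_le (h.pos a) (h.lt a) hk (cle_le_fin _ _)
  · exact vv_le (h.pos a) (h.lt a) hk _

theorem term2_lip (h : IsTwo M ρ r₀) (hk : 1 ≤ k) (x : Fin k → M) (a b : M) :
    term2 ρ r₀ x a ≤ term2 ρ r₀ x b + ((k : ℝ) + 1) / 2 * dist b a := by
  have h1 := h.pos b
  have h0 := h.lt b
  have hr0 : 0 < r₀ := h1.trans h0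
  rcases h.vals b a with hc | hc | hc
  · rw [dist_eq_zero.1 hc, dist_self, mul_zero, add_zero]
  · have hρ : ρ a = ρ b := by
      rcases h.vals a b with h2 | h2 | h2
      · rw [dist_comm, hc] at h2
        exact absurd h2 h1.ne'
      · rw [← h2, dist_comm, hc]
      · rw [dist_comm, hc] at h2
        exact absurd h2 h0.ne
    have hball : cle (fun j => dist a (x j)) (ρ b) = cle (fun j => dist b (x j)) (ρ b) := by
      rw [cle, cle]
      congr 1
      ext j
      rw [mem_filter, mem_filter]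
      constructor
      · rintro ⟨h2, h3⟩
        exact ⟨h2, (h.ultra b a (x j)).trans (max_le hc.le h3)⟩
      · rintro ⟨h2, h3⟩
        exact ⟨h2, (h.ultra a b (x j)).trans (max_le (by rw [dist_comm]; exact hc.le) h3)⟩
    rw [hc, term2, term2, u2, u2, hρ, hball]
    set N := cle (fun j => dist b (x j)) (ρ b) with hN
    have hNk : N ≤ k := cle_le_fin _ _
    have h2 := ww_sub_vv h1 h0 hNk
    have hY := yd_pos h1 h0 hNk
    have h3 : 0 ≤ r₀ * ρ b * ((k : ℝ) + 1) / yd k (ρ b) r₀ N :=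
      div_nonneg (mul_nonneg (mul_nonneg hr0.le h1.le) (by positivity)) hY.le
    have h4 : 0 ≤ ((k : ℝ) + 1) / 2 * ρ b := mul_nonneg (by positivity) h1.le
    split_ifs with h5 h6
    · linarith
    · have h7 : 1 ≤ N := by
        have := cle_mono (fun j => dist b (x j)) h1.le
        omega
      have h8 : 2 * r₀ ≤ yd k (ρ b) r₀ N := by
        have h9 : (1 : ℝ) ≤ N := by exact_mod_cast h7
        have h10 : (N : ℝ) ≤ k := by exact_mod_cast hNk
        have h11 : 0 ≤ ((k : ℝ) - N) * ρ b := mul_nonneg (by linarith) h1.le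
        rw [yd]
        nlinarith
      have h9 : r₀ * ρ b * ((k : ℝ) + 1) / yd k (ρ b) r₀ N ≤ ((k : ℝ) + 1) / 2 * ρ b := by
        rw [div_le_iff₀ hY]
        have h10 : 0 ≤ ρ b * ((k : ℝ) + 1) := mul_nonneg h1.le (by positivity)
        nlinarith [mul_le_mul_of_nonneg_left h8 h10]
      linarith
    · linarith
    · linarith
  · have h2 := term2_nonneg h x b
    have h3 := term2_le h hk x a
    rw [hc]
    linarith

/-- the exact potential -/
noncomputable def pot2 (ρ : M → ℝ) (r₀ : ℝ) (x z : Fin k → M) : ℝ := ∑ v, term2 ρ r₀ x (z v)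

theorem pot2_nonneg (h : IsTwo M ρ r₀) (x z : Fin k → M) : 0 ≤ pot2 ρ r₀ x z :=
  sum_nonneg fun _ _ => term2_nonneg h _ _

theorem pot2_lip (h : IsTwo M ρ r₀) (hk : 1 ≤ k) (x z z' : Fin k → M) :
    pot2 ρ r₀ x z' ≤ pot2 ρ r₀ x z + ((k : ℝ) + 1) / 2 * ∑ v, dist (z v) (z' v) := by
  rw [pot2, pot2, mul_sum, ← sum_add_distrib]
  exact sum_le_sum fun v _ => term2_lip h hk x (z' v) (z v)

theorem pot2_drift (h : IsTwo M ρ r₀) {x z : Fin k → M} {r : M} (hx : ∀ j, x j ≠ r)
    (hz : ∃ v, z v = r) :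
    ∑ j, (dist (x j) r)⁻¹ * (pot2 ρ r₀ (Function.update x j r) z - pot2 ρ r₀ x z) ≤ -1 := by
  obtain ⟨v₀, hv₀⟩ := hz
  have e1 : ∑ j, (dist (x j) r)⁻¹ * (pot2 ρ r₀ (Function.update x j r) z - pot2 ρ r₀ x z)
      = ∑ v, ∑ j, (dist (x j) r)⁻¹
        * (term2 ρ r₀ (Function.update x j r) (z v) - term2 ρ r₀ x (z v)) := by
    rw [sum_comm]
    refine sum_congr rfl fun j _ => ?_
    rw [pot2, pot2, ← sum_sub_distrib, mul_sum]
  have e2 : ∑ v ∈ univ.erase v₀, ∑ j, (dist (x j) r)⁻¹
        * (term2 ρ r₀ (Function.update x j r) (z v) - term2 ρ r₀ x (z v))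
      ≤ ∑ _v ∈ univ.erase v₀, (1 : ℝ) :=
    sum_le_sum fun v _ => term2_drift h hx (z v)
  have hk : 1 ≤ k := by
    have := v₀.2
    omega
  rw [sum_const, card_erase_of_mem (mem_univ _), card_univ, Fintype.card_fin, nsmul_eq_mul,
    Nat.cast_sub hk, Nat.cast_one, mul_one] at e2
  have e3 := term2_drift_self h hx
  rw [e1, ← add_sum_erase _ _ (mem_univ v₀), hv₀, e3]
  linarith

end Space

end Pool.Agent.Lib.MP_af7143_lc.Hst
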