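import Pool.Agent.Lib.MP_af7143_lc.HstModel
import Pool.Agent.Lib.MP_af7143_lc.HstTwoSpace
import Pool.Agent.Lib.MP_af7143_lc.HstBounded

/-!
# From a potential to the competitive ratio of Harmonic
-/

set_option autoImplicit false

open Finset

namespace Pool.Agent.Lib.MP_af7143_lc.Hst

universe u

variable {k : ℕ} {M : Type u} [MetricSpace M]

/-- one random step of Harmonic, in expectation -/
theorem step {Φ : Config k M → Config k M → ℝ}
    (hdrift : ∀ (x z : Config k M) (r : M), (∀ j, x j ≠ r) → (∃ v, z v = r) →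
      ∑ j, (dist (x j) r)⁻¹ * (Φ (Function.update x j r) z - Φ x z) ≤ -1)
    (hk : 1 ≤ k) (x z : Config k M) (r : M) (hx : ∀ j, x j ≠ r) (hz : ∃ v, z v = r) :
    ∑ i, prob x r i * (dist (x i) r + k * Φ (Function.update x i r) z) ≤ k * Φ x z := by
  have hpos : ∀ i, 0 < (dist (x i) r)⁻¹ := fun i => inv_pos.2 (dist_pos.2 (hx i))
  set Cs := ∑ j, (dist (x j) r)⁻¹ with hCs
  have hCpos : 0 < Cs := Finset.sum_pos (fun i _ => hpos i) ⟨⟨0, hk⟩, Finset.mem_univ _⟩
  have hd := hdrift x z r hx hz
  set D := ∑ j, (dist (x j) r)⁻¹ * (Φ (Function.update x j r) z - Φ x z) with hD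
  have e1 : ∀ i, prob x r i * (dist (x i) r + k * Φ (Function.update x i r) z)
      = 1 / Cs + k / Cs * ((dist (x i) r)⁻¹ * (Φ (Function.update x i r) z - Φ x z))
        + k * Φ x z / Cs * (dist (x i) r)⁻¹ := by
    intro i
    have h1 : dist (x i) r ≠ 0 := (dist_pos.2 (hx i)).ne'
    simp only [prob, ← hCs]
    field_simp
    ring
  rw [Finset.sum_congr rfl fun i _ => e1 i, Finset.sum_add_distrib, Finset.sum_add_distrib,
    ← Finset.mul_sum, ← Finset.mul_sum, ← hD, ← hCs, Finset.sum_const, Finset.card_univ,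
    Fintype.card_fin, nsmul_eq_mul]
  have h2 : (k : ℝ) / Cs * D ≤ (k : ℝ) / Cs * (-1) :=
    mul_le_mul_of_nonneg_left hd (by positivity)
  have h3 : (k : ℝ) * Φ x z / Cs * Cs = k * Φ x z := div_mul_cancel₀ _ hCpos.ne'
  have h4 : (k : ℝ) * (1 / Cs) = (k : ℝ) / Cs := by ring
  linarith

/-- the induction -/
theorem main_ineq {Φ : Config k M → Config k M → ℝ} {K : ℝ}
    (h0 : ∀ x z, 0 ≤ Φ x z)
    (hlip : ∀ x z z', Φ x z' ≤ Φ x z + K * ∑ v, dist (z v) (z' v))
    (hdrift : ∀ (x z : Config k M) (r : M), (∀ j, x j ≠ r) → (∃ v, z v = r) →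
      ∑ j, (dist (x j) r)⁻¹ * (Φ (Function.update x j r) z - Φ x z) ≤ -1)
    (hk : 1 ≤ k) (A : Adversary k M) (n : ℕ) :
    ∀ (x y : Config k M) (p : History k M),
      costH A n ((x, y) :: p) ≤ (k * K) * costA A n ((x, y) :: p) + k * Φ x y := by
  classical
  induction n with
  | zero =>
    intro x y p
    simp only [costH, costA, mul_zero, zero_add]
    exact mul_nonneg (by positivity) (h0 x y)
  | succ n ih =>
    intro x y p
    set h := (x, y) :: p with hh
    set r := A.req h with hr
    set y' := A.next h with hy'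
    have hl := mul_le_mul_of_nonneg_left (hlip x y y') (by positivity : (0 : ℝ) ≤ k)
    by_cases hcov : ∃ i, x i = r
    · have e1 : costH A (n + 1) h = costH A n ((x, y') :: h) := by
        rw [hh, costH, if_pos hcov]
      have e2 : costA A (n + 1) h = ∑ v, dist (y v) (y' v) + costA A n ((x, y') :: h) := by
        rw [hh, costA, if_pos hcov]
      rw [e1, e2]
      have h1 := ih x y' h
      linarith
    · have e1 : costH A (n + 1) h = ∑ i, prob x r i *
          (dist (x i) r + costH A n ((Function.update x i r, y') :: h)) := by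
        rw [hh, costH, if_neg hcov]
      have e2 : costA A (n + 1) h = ∑ v, dist (y v) (y' v)
          + ∑ i, prob x r i * costA A n ((Function.update x i r, y') :: h) := by
        rw [hh, costA, if_neg hcov]
      have hprob : ∀ i, 0 ≤ prob x r i := fun i =>
        div_nonneg (inv_nonneg.2 dist_nonneg) (Finset.sum_nonneg fun j _ => inv_nonneg.2 dist_nonneg)
      have h1 : ∑ i, prob x r i *
          (dist (x i) r + costH A n ((Function.update x i r, y') :: h))
          ≤ ∑ i, (prob x r i * (dist (x i) r + k * Φ (Function.update x i r) y')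
            + (k * K) * (prob x r i * costA A n ((Function.update x i r, y') :: h))) := by
        refine Finset.sum_le_sum fun i _ => ?_
        have h2 := ih (Function.update x i r) y' h
        have h3 := mul_le_mul_of_nonneg_left h2 (hprob i)
        nlinarith
      rw [Finset.sum_add_distrib, ← Finset.mul_sum] at h1
      have h4 := step hdrift hk x y' r (fun j hj => hcov ⟨j, hj⟩) (A.serves h)
      rw [e1, e2]
      linarith

/-- a potential gives a competitive ratio -/
theorem competitive_of_potential {Φ : Config k M → Config k M → ℝ} {K : ℝ}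
    (h0 : ∀ x z, 0 ≤ Φ x z)
    (hlip : ∀ x z z', Φ x z' ≤ Φ x z + K * ∑ v, dist (z v) (z' v))
    (hdrift : ∀ (x z : Config k M) (r : M), (∀ j, x j ≠ r) → (∃ v, z v = r) →
      ∑ j, (dist (x j) r)⁻¹ * (Φ (Function.update x j r) z - Φ x z) ≤ -1)
    (hk : 1 ≤ k) : Competitive k M (k * K) :=
  fun x₀ => ⟨k * Φ x₀ x₀, fun A n => main_ineq h0 hlip hdrift hk A n x₀ x₀ []⟩

/-- separated hierarchical spaces -/
theorem hier (hk : 1 ≤ k) {s : ℝ} (hs : ((k : ℝ) + 1) ^ 3 / 2 + 1 < s) {ρ : M → M → ℝ}
    (h : IsHier s ρ) :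
    Competitive k M ((k : ℝ) * (k + 1) / 2 * (2 * s / (2 * s - 2 - ((k : ℝ) + 1) ^ 3))) := by
  have hk0 : (0 : ℝ) < (k : ℝ) + 1 := by positivity
  have hk3 : 0 < ((k : ℝ) + 1) ^ 3 := by positivity
  have hs1 : 1 < s := by linarith
  have hs2 : 0 < s - 1 := by linarith
  set κ : ℝ := 1 - ((k : ℝ) + 1) ^ 3 / (2 * (s - 1)) with hκ
  have hκ0 : 0 < κ := by
    rw [hκ, sub_pos, div_lt_one (by linarith)]
    linarith
  have hc : 0 ≤ ((k : ℝ) + 1) / κ := by positivity
  have h1 : Competitive k M (k * (((k : ℝ) + 1) / κ * (s / (2 * (s - 1))))) := by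
    refine competitive_of_potential (Φ := fun x z => ((k : ℝ) + 1) / κ * pot ρ x z)
      (fun x z => mul_nonneg hc (pot_nonneg h hs1 x z)) ?_ ?_ hk
    · intro x z z'
      have h2 := mul_le_mul_of_nonneg_left (pot_lip h hs1 x z z') hc
      rw [mul_add, ← mul_assoc] at h2
      exact h2
    · intro x z r hx hz
      have h2 := pot_drift h hs1 hx hz
      have h3 : ∑ j, (dist (x j) r)⁻¹ * (((k : ℝ) + 1) / κ * pot ρ (Function.update x j r) z
            - ((k : ℝ) + 1) / κ * pot ρ x z)
          = (((k : ℝ) + 1) * ∑ j, (dist (x j) r)⁻¹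
            * (pot ρ (Function.update x j r) z - pot ρ x z)) / κ := by
        rw [Finset.mul_sum, Finset.sum_div]
        refine Finset.sum_congr rfl fun j _ => ?_
        ring
      rw [h3, div_le_iff₀ hκ0]
      linarith
  have h2 : (k : ℝ) * (((k : ℝ) + 1) / κ * (s / (2 * (s - 1))))
      = (k : ℝ) * (k + 1) / 2 * (2 * s / (2 * s - 2 - ((k : ℝ) + 1) ^ 3)) := by
    have h3 : κ = (2 * s - 2 - ((k : ℝ) + 1) ^ 3) / (2 * (s - 1)) := by
      rw [hκ]
      field_simp
    have h4 : 0 < 2 * s - 2 - ((k : ℝ) + 1) ^ 3 := by linarith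
    rw [h3]
    field_simp
  rw [← h2]
  exact h1

/-- ultrametric spaces of depth two -/
theorem two (hk : 1 ≤ k) {ρ : M → ℝ} {r₀ : ℝ} (h : IsTwo M ρ r₀) :
    Competitive k M ((k : ℝ) * (k + 1) / 2) := by
  have h1 := competitive_of_potential (Φ := pot2 ρ r₀) (pot2_nonneg h) (pot2_lip h hk)
    (fun x z r hx hz => pot2_drift h hx hz) hk
  rwa [← mul_div_assoc] at h1

/-- metric spaces of small aspect ratio -/
theorem bounded (hk : 1 ≤ k) {c : ℝ} (hc : 0 < c)
    (h : ∀ x y : M, x ≠ y → c ≤ dist x y ∧ dist x y ≤ c * (((k : ℝ) + 1) / 2)) :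
    Competitive k M ((k : ℝ) * (k + 1) / 2) := by
  have h1 := competitive_of_potential (Φ := pot3 c) (pot3_nonneg hc)
    (pot3_lip hc fun x y hxy => (h x y hxy).1)
    (fun x z r hx hz => pot3_drift hc (fun a b => by
      rcases eq_or_ne a b with hab | hab
      · rw [hab, dist_self]
        positivity
      · exact (h a b hab).2) hx hz) hk
  rwa [← mul_div_assoc] at h1

/-- metric spaces with two distances, ordered -/
theorem two_distances (hk : 3 ≤ k) {r₁ r₀ : ℝ} (h1 : 0 < r₁) (h10 : r₁ ≤ r₀)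
    (h : ∀ x y : M, dist x y = 0 ∨ dist x y = r₁ ∨ dist x y = r₀) :
    Competitive k M ((k : ℝ) * (k + 1) / 2) := by
  have hk3 : (3 : ℝ) ≤ k := by exact_mod_cast hk
  rcases le_or_gt r₀ (2 * r₁) with h2 | h2
  · refine bounded (by omega) h1 fun x y hxy => ?_
    have h3 : 2 * r₁ ≤ r₁ * (((k : ℝ) + 1) / 2) := by nlinarith
    rcases h x y with h4 | h4 | h4
    · exact absurd (dist_eq_zero.1 h4) hxy
    · rw [h4]
      exact ⟨le_refl _, by linarith⟩
    · rw [h4]
      exact ⟨h10, by linarith⟩
  · refine two (by omega) (ρ := fun _ => r₁) (r₀ := r₀) ⟨fun _ => h1, fun _ => by linarith, h, ?_⟩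
    intro x y z
    have htri := dist_triangle x y z
    rcases h x y with h3 | h3 | h3
    · rw [dist_eq_zero.1 h3]
      exact le_max_right _ _
    · rcases h y z with h4 | h4 | h4
      · rw [dist_eq_zero.1 h4]
        exact le_max_left _ _
      · rcases h x z with h5 | h5 | h5
        · rw [h5, h3]
          exact le_max_of_le_left h1.le
        · rw [h5, h3]
          exact le_max_left _ _
        · exfalso
          linarith
      · refine le_max_of_le_right ?_
        rw [h4]
        rcases h x z with h5 | h5 | h5 <;> rw [h5] <;> linarith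
    · refine le_max_of_le_left ?_
      rw [h3]
      rcases h x z with h5 | h5 | h5 <;> rw [h5] <;> linarith

/-- metric spaces with at most two different nonzero distances -/
theorem two_distances_any (hk : 3 ≤ k) {r₁ r₂ : ℝ}
    (h : ∀ x y : M, dist x y = 0 ∨ dist x y = r₁ ∨ dist x y = r₂) :
    Competitive k M ((k : ℝ) * (k + 1) / 2) := by
  have hswap : ∀ {a b : ℝ}, (∀ x y : M, dist x y = 0 ∨ dist x y = a ∨ dist x y = b) →
      ∀ x y : M, dist x y = 0 ∨ dist x y = b ∨ dist x y = a :=
    fun h1 x y => (h1 x y).imp_right Or.symm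
  have hpos : ∀ {a b : ℝ}, 0 < a → (∀ x y : M, dist x y = 0 ∨ dist x y = a ∨ dist x y = b) →
      Competitive k M ((k : ℝ) * (k + 1) / 2) := by
    intro a b ha h1
    rcases lt_or_ge 0 b with hb | hb
    · rcases le_total a b with hab | hab
      · exact two_distances hk ha hab h1
      · exact two_distances hk hb hab (hswap h1)
    · refine two_distances hk ha le_rfl fun x y => ?_
      rcases h1 x y with h2 | h2 | h2
      · exact Or.inl h2
      · exact Or.inr (Or.inl h2)
      · refine Or.inl (le_antisymm ?_ dist_nonneg)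
        rw [h2]
        exact hb
  rcases lt_or_ge 0 r₁ with h1 | h1
  · exact hpos h1 h
  · rcases lt_or_ge 0 r₂ with h2 | h2
    · exact hpos h2 (hswap h)
    · refine hpos (a := 1) (b := 1) one_pos fun x y => Or.inl (le_antisymm ?_ dist_nonneg)
      rcases h x y with h3 | h3 | h3
      · exact h3.le
      · rw [h3]
        exact h1
      · rw [h3]
        exact h2

end Pool.Agent.Lib.MP_af7143_lc.Hst
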