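import Mathlib

/-!
# The Harmonic `k`-server algorithm against adaptive online adversaries

The model: configurations, histories, adversaries, expected costs, and competitiveness.
-/

set_option autoImplicit false

open Finset

namespace Pool.Agent.Lib.MP_af7143_lc.Hst

universe u

/-- A configuration of `k` servers in `M`. -/
abbrev Config (k : ℕ) (M : Type u) := Fin k → M

/-- A history, most recent entry first: the pairs (configuration of Harmonic, configuration of the
adversary) after each of the steps made so far; the last entry is the start. -/
abbrev History (k : ℕ) (M : Type u) := List (Config k M × Config k M)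

/-- A (deterministic) adaptive online adversary. From the history it chooses the next request, and
the configuration in which its own servers are after serving that request. It may move any number
of its servers, but one of them must be at the request. -/
structure Adversary (k : ℕ) (M : Type u) where
  /-- the next request -/
  req : History k M → M
  /-- the next configuration of the adversary's servers -/
  next : History k M → Config k M
  /-- the request is served -/
  serves : ∀ h, ∃ v, next h v = req h

variable {k : ℕ} {M : Type u} [MetricSpace M]

/-- The probability with which Harmonic, in configuration `x`, moves server `i` to an uncovered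
request `r`. -/
noncomputable def prob (x : Config k M) (r : M) (i : Fin k) : ℝ :=
  (dist (x i) r)⁻¹ / ∑ j, (dist (x j) r)⁻¹

open Classical in
/-- The expected cost of Harmonic in the next `n` steps after the history `h`. -/
noncomputable def costH (A : Adversary k M) : ℕ → History k M → ℝ
  | 0, _ => 0
  | _ + 1, [] => 0
  | n + 1, (x, y) :: p =>
    if ∃ i, x i = A.req ((x, y) :: p) then
      costH A n ((x, A.next ((x, y) :: p)) :: (x, y) :: p)
    else
      ∑ i, prob x (A.req ((x, y) :: p)) i *
        (dist (x i) (A.req ((x, y) :: p))
          + costH A n ((Function.update x i (A.req ((x, y) :: p)), A.next ((x, y) :: p))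
              :: (x, y) :: p))

open Classical in
/-- The expected cost of the adversary in the next `n` steps after the history `h`. -/
noncomputable def costA (A : Adversary k M) : ℕ → History k M → ℝ
  | 0, _ => 0
  | _ + 1, [] => 0
  | n + 1, (x, y) :: p =>
    ∑ v, dist (y v) (A.next ((x, y) :: p) v) +
    if ∃ i, x i = A.req ((x, y) :: p) then
      costA A n ((x, A.next ((x, y) :: p)) :: (x, y) :: p)
    else
      ∑ i, prob x (A.req ((x, y) :: p)) i *
        costA A n ((Function.update x i (A.req ((x, y) :: p)), A.next ((x, y) :: p))
          :: (x, y) :: p)

/-- Harmonic with `k` servers is `R`-competitive on `M` against adaptive online adversaries. -/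
def Competitive (k : ℕ) (M : Type u) [MetricSpace M] (R : ℝ) : Prop :=
  ∀ x₀ : Config k M, ∃ C : ℝ, ∀ (A : Adversary k M) (n : ℕ),
    costH A n [(x₀, x₀)] ≤ R * costA A n [(x₀, x₀)] + C

end Pool.Agent.Lib.MP_af7143_lc.Hst
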