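import Pool.Agent.Lib.MP_af7143_lc.HstCount

/-!
# The potential of Harmonic on ultrametric spaces with two different distances

An exact potential: the drift condition holds without any loss.
-/

set_option autoImplicit false

open Finset

namespace Pool.Agent.Lib.MP_af7143_lc.Hst

section Numbers

variable (k : ℕ) (r₁ r₀ : ℝ)

/-- the denominator -/
noncomputable def yd (c : ℕ) : ℝ := ((c : ℝ) + 1) * r₀ + ((k : ℝ) - c) * r₁

/-- the loss when a further server is in the cluster -/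
noncomputable def yy (c : ℕ) : ℝ := r₀ * (r₀ - r₁) / yd k r₁ r₀ c

/-- the value if the point is covered and `N` servers are in its cluster -/
noncomputable def vv (N : ℕ) : ℝ := ∑ c ∈ Ico N k, yy k r₁ r₀ c

/-- the value if the point is uncovered and `N` servers are in its cluster -/
noncomputable def ww (N : ℕ) : ℝ := vv k r₁ r₀ N + r₀ - ((N : ℝ) + 1) * yy k r₁ r₀ N

variable {k r₁ r₀}

theorem yd_pos (h1 : 0 < r₁) (h0 : r₁ < r₀) {c : ℕ} (hc : c ≤ k) : 0 < yd k r₁ r₀ c := by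
  have h2 : (c : ℝ) ≤ k := by exact_mod_cast hc
  have h3 : 0 ≤ ((k : ℝ) - c) * r₁ := mul_nonneg (by linarith) h1.le
  have h4 : 0 < ((c : ℝ) + 1) * r₀ := mul_pos (by positivity) (h1.trans h0)
  rw [yd]
  linarith

theorem yy_nonneg (h1 : 0 < r₁) (h0 : r₁ < r₀) {c : ℕ} (hc : c ≤ k) : 0 ≤ yy k r₁ r₀ c :=
  div_nonneg (mul_nonneg (h1.trans h0).le (by linarith)) (yd_pos h1 h0 hc).le

theorem yy_le (h1 : 0 < r₁) (h0 : r₁ < r₀) {c : ℕ} (hc : c ≤ k) :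
    ((c : ℝ) + 1) * yy k r₁ r₀ c ≤ r₀ := by
  have h2 := yd_pos h1 h0 hc
  have h3 : (c : ℝ) ≤ k := by exact_mod_cast hc
  rw [yy, mul_div_assoc', div_le_iff₀ h2, yd]
  have h4 : 0 ≤ ((k : ℝ) - c) * r₁ * r₀ :=
    mul_nonneg (mul_nonneg (by linarith) h1.le) (h1.trans h0).le
  have h5 : 0 ≤ ((c : ℝ) + 1) * (r₀ * r₁) :=
    mul_nonneg (by positivity) (mul_nonneg (h1.trans h0).le h1.le)
  nlinarith

theorem vv_succ {N : ℕ} (hN : N < k) : vv k r₁ r₀ N = yy k r₁ r₀ N + vv k r₁ r₀ (N + 1) := by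
  rw [vv, vv, sum_eq_sum_Ico_succ_bot hN]

theorem vv_nonneg (h1 : 0 < r₁) (h0 : r₁ < r₀) (N : ℕ) : 0 ≤ vv k r₁ r₀ N :=
  sum_nonneg fun _ hc => yy_nonneg h1 h0 (mem_Ico.1 hc).2.le

theorem vv_anti (h1 : 0 < r₁) (h0 : r₁ < r₀) {N N' : ℕ} (hN : N ≤ N') :
    vv k r₁ r₀ N' ≤ vv k r₁ r₀ N := by
  rw [vv, vv]
  refine sum_le_sum_of_subset_of_nonneg (Ico_subset_Ico_left hN) fun _ hc _ => ?_
  exact yy_nonneg h1 h0 (mem_Ico.1 hc).2.le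

/-- the value of covering the point -/
theorem ww_sub_vv (h1 : 0 < r₁) (h0 : r₁ < r₀) {N : ℕ} (hN : N ≤ k) :
    ww k r₁ r₀ N - vv k r₁ r₀ N = r₀ * r₁ * ((k : ℝ) + 1) / yd k r₁ r₀ N := by
  have h2 := yd_pos h1 h0 hN
  rw [ww, yy]
  rw [eq_div_iff h2.ne']
  have h3 : r₀ * (r₀ - r₁) / yd k r₁ r₀ N * yd k r₁ r₀ N = r₀ * (r₀ - r₁) :=
    div_mul_cancel₀ _ h2.ne'
  have h4 : (vv k r₁ r₀ N + r₀ - ((N : ℝ) + 1) * (r₀ * (r₀ - r₁) / yd k r₁ r₀ N)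
        - vv k r₁ r₀ N) * yd k r₁ r₀ N
      = r₀ * yd k r₁ r₀ N
        - ((N : ℝ) + 1) * (r₀ * (r₀ - r₁) / yd k r₁ r₀ N * yd k r₁ r₀ N) := by ring
  rw [h4, h3, yd]
  ring

theorem ww_nonneg (h1 : 0 < r₁) (h0 : r₁ < r₀) {N : ℕ} (hN : N ≤ k) : 0 ≤ ww k r₁ r₀ N := by
  have h2 := ww_sub_vv h1 h0 hN
  have h3 : 0 ≤ r₀ * r₁ * ((k : ℝ) + 1) / yd k r₁ r₀ N :=
    div_nonneg (mul_nonneg (mul_nonneg (h1.trans h0).le h1.le) (by positivity))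
      (yd_pos h1 h0 hN).le
  have h4 := vv_nonneg (k := k) h1 h0 N
  linarith

theorem vv_one_le (h1 : 0 < r₁) (h0 : r₁ < r₀) (hk : 1 ≤ k) :
    vv k r₁ r₀ 1 + r₀ ≤ r₀ * (((k : ℝ) + 1) / 2) := by
  have hr0 : 0 < r₀ := h1.trans h0
  have h2 : vv k r₁ r₀ 1 ≤ r₀ * ∑ c ∈ Ico 1 k, 1 / ((c : ℝ) + 1) := by
    rw [vv, mul_sum]
    refine sum_le_sum fun c hc => ?_
    have h3 := yy_le h1 h0 (mem_Ico.1 hc).2.le
    rw [mul_one_div, le_div_iff₀ (by positivity)]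
    linarith
  have h3 : har k = 1 + ∑ c ∈ Ico 1 k, 1 / ((c : ℝ) + 1) := by
    rw [har, ← Nat.Ico_zero_eq_range, sum_eq_sum_Ico_succ_bot (by omega)]
    simp
  have h4 := har_le k
  have h5 : r₀ * (1 + ∑ c ∈ Ico 1 k, 1 / ((c : ℝ) + 1)) ≤ r₀ * (((k : ℝ) + 1) / 2) :=
    mul_le_mul_of_nonneg_left (by rw [← h3]; exact h4) hr0.le
  linarith

theorem vv_le (h1 : 0 < r₁) (h0 : r₁ < r₀) (hk : 1 ≤ k) (N : ℕ) :
    vv k r₁ r₀ N ≤ r₀ * (((k : ℝ) + 1) / 2) := by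
  have h2 := vv_anti (k := k) h1 h0 (Nat.zero_le N)
  have h3 := vv_succ (k := k) (r₁ := r₁) (r₀ := r₀) (N := 0) (by omega)
  have h4 := yy_le (k := k) h1 h0 (Nat.zero_le k)
  have h5 := vv_one_le h1 h0 hk
  simp only [Nat.cast_zero, zero_add, one_mul] at h3 h4
  linarith

theorem ww_le (h1 : 0 < r₁) (h0 : r₁ < r₀) (hk : 1 ≤ k) {N : ℕ} (hN : N ≤ k) :
    ww k r₁ r₀ N ≤ r₀ * (((k : ℝ) + 1) / 2) := by
  have h5 := vv_one_le h1 h0 hk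
  have h6 := yy_nonneg h1 h0 hN
  rcases hN.lt_or_eq with h2 | h2
  · have h3 := vv_succ (k := k) (r₁ := r₁) (r₀ := r₀) h2
    have h4 := vv_anti (k := k) h1 h0 (by omega : 1 ≤ N + 1)
    have h7 : 0 ≤ (N : ℝ) * yy k r₁ r₀ N := mul_nonneg (by positivity) h6
    rw [ww]
    linarith
  · have h3 : vv k r₁ r₀ N = 0 := by rw [vv, h2, Ico_self, sum_empty]
    have h4 := vv_nonneg (k := k) h1 h0 1
    have h7 : 0 ≤ ((N : ℝ) + 1) * yy k r₁ r₀ N := mul_nonneg (by positivity) h6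
    rw [ww, h3]
    linarith

/-- a request at the uncovered point itself -/
theorem drift_at (h1 : 0 < r₁) (h0 : r₁ < r₀) {N : ℕ} (hN : N ≤ k) :
    (N : ℝ) * (r₁⁻¹ * (vv k r₁ r₀ N - ww k r₁ r₀ N))
      + ((k : ℝ) - N) * (r₀⁻¹ * (vv k r₁ r₀ (N + 1) - ww k r₁ r₀ N)) = - k := by
  have h2 := yd_pos h1 h0 hN
  have h3 := ww_sub_vv h1 h0 hN
  have hr0 : 0 < r₀ := h1.trans h0
  set Y := yd k r₁ r₀ N with hY
  have h4 : vv k r₁ r₀ N - ww k r₁ r₀ N = - (r₀ * r₁ * ((k : ℝ) + 1) / Y) := by linarith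
  rcases hN.lt_or_eq with h5 | h5
  · have h6 := vv_succ (k := k) (r₁ := r₁) (r₀ := r₀) h5
    have h7 : vv k r₁ r₀ (N + 1) - ww k r₁ r₀ N
        = - (r₀ * r₁ * ((k : ℝ) + 1) / Y) - r₀ * (r₀ - r₁) / Y := by
      have : yy k r₁ r₀ N = r₀ * (r₀ - r₁) / Y := rfl
      linarith
    rw [h4, h7]
    have h8 : Y = ((N : ℝ) + 1) * r₀ + ((k : ℝ) - N) * r₁ := rfl
    have h9 : (N : ℝ) * (r₁⁻¹ * - (r₀ * r₁ * ((k : ℝ) + 1) / Y))
        + ((k : ℝ) - N) * (r₀⁻¹ * (- (r₀ * r₁ * ((k : ℝ) + 1) / Y) - r₀ * (r₀ - r₁) / Y))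
        = - ((k : ℝ) * (((N : ℝ) + 1) * r₀ + ((k : ℝ) - N) * r₁)) / Y := by
      field_simp
      ring
    rw [h9, ← h8, neg_div, mul_div_assoc, div_self h2.ne', mul_one]
  · have h6 : (k : ℝ) - N = 0 := by rw [h5]; ring
    rw [h4, h6, zero_mul, add_zero]
    have h8 : Y = ((N : ℝ) + 1) * r₀ := by
      rw [hY, yd, h6]
      ring
    rw [h8, h5]
    field_simp

/-- a request in the cluster of the point, which is covered by one server -/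
theorem drift_in (h1 : 0 < r₁) (h0 : r₁ < r₀) {N : ℕ} (hN : N ≤ k) :
    r₁⁻¹ * (ww k r₁ r₀ N - vv k r₁ r₀ N)
      + ((k : ℝ) - N) * (r₀⁻¹ * (vv k r₁ r₀ (N + 1) - vv k r₁ r₀ N)) = 1 := by
  have h2 := yd_pos h1 h0 hN
  have h3 := ww_sub_vv h1 h0 hN
  have hr0 : 0 < r₀ := h1.trans h0
  set Y := yd k r₁ r₀ N with hY
  rw [h3]
  rcases hN.lt_or_eq with h5 | h5
  · have h6 := vv_succ (k := k) (r₁ := r₁) (r₀ := r₀) h5
    have h7 : vv k r₁ r₀ (N + 1) - vv k r₁ r₀ N = - (r₀ * (r₀ - r₁) / Y) := by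
      have : yy k r₁ r₀ N = r₀ * (r₀ - r₁) / Y := rfl
      linarith
    rw [h7]
    have h8 : Y = ((N : ℝ) + 1) * r₀ + ((k : ℝ) - N) * r₁ := rfl
    have h9 : r₁⁻¹ * (r₀ * r₁ * ((k : ℝ) + 1) / Y)
        + ((k : ℝ) - N) * (r₀⁻¹ * - (r₀ * (r₀ - r₁) / Y))
        = (((N : ℝ) + 1) * r₀ + ((k : ℝ) - N) * r₁) / Y := by
      field_simp
      ring
    rw [h9, ← h8, div_self h2.ne']
  · have h6 : (k : ℝ) - N = 0 := by rw [h5]; ring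
    rw [h6, zero_mul, add_zero]
    have h8 : Y = ((N : ℝ) + 1) * r₀ := by
      rw [hY, yd, h6]
      ring
    rw [h8, h5]
    field_simp

theorem ww_anti (h1 : 0 < r₁) (h0 : r₁ < r₀) {N : ℕ} (hN : N < k) :
    ww k r₁ r₀ (N + 1) ≤ ww k r₁ r₀ N := by
  have h2 := yd_pos h1 h0 hN.le
  have h3 := yd_pos (k := k) h1 h0 (c := N + 1) (by omega)
  have h4 := vv_succ (k := k) (r₁ := r₁) (r₀ := r₀) hN
  have hq : 0 ≤ r₀ * (r₀ - r₁) := mul_nonneg (h1.trans h0).le (by linarith)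
  have h5 : (N : ℝ) * yy k r₁ r₀ N ≤ ((N : ℝ) + 2) * yy k r₁ r₀ (N + 1) := by
    rw [yy, yy, mul_div_assoc', mul_div_assoc', div_le_div_iff₀ h2 h3]
    have h6 : yd k r₁ r₀ (N + 1) = yd k r₁ r₀ N + (r₀ - r₁) := by
      rw [yd, yd]
      push_cast
      ring
    rw [h6]
    have h7 : ((N : ℝ) + 1) * r₀ ≤ yd k r₁ r₀ N := by
      have h8 : (N : ℝ) ≤ k := by exact_mod_cast hN.le
      have h9 : 0 ≤ ((k : ℝ) - N) * r₁ := mul_nonneg (by linarith) h1.le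
      rw [yd]
      linarith
    have h8 : (N : ℝ) * (r₀ - r₁) ≤ 2 * yd k r₁ r₀ N := by
      have h9 : 0 ≤ (N : ℝ) * r₁ := mul_nonneg (by positivity) h1.le
      have h10 : 0 ≤ (N : ℝ) * r₀ := mul_nonneg (by positivity) (h1.trans h0).le
      nlinarith
    nlinarith [mul_le_mul_of_nonneg_left h8 hq]
  rw [ww, ww]
  push_cast
  linarith

/-- a request outside the cluster, the point is uncovered -/
theorem drift_out (h1 : 0 < r₁) (h0 : r₁ < r₀) {N : ℕ} (hN : N + 1 ≤ k) :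
    ((N : ℝ) + 1) * (ww k r₁ r₀ N - ww k r₁ r₀ (N + 1)) ≤ r₀ := by
  have h2 := yd_pos (k := k) h1 h0 (c := N) (by omega)
  have h3 := yd_pos h1 h0 hN
  have h4 := vv_succ (k := k) (r₁ := r₁) (r₀ := r₀) (N := N) (by omega)
  have hr0 : 0 < r₀ := h1.trans h0
  have h5 : ww k r₁ r₀ N - ww k r₁ r₀ (N + 1)
      = ((N : ℝ) + 2) * yy k r₁ r₀ (N + 1) - (N : ℝ) * yy k r₁ r₀ N := by
    rw [ww, ww, h4]
    push_cast
    ring
  have h6 : yd k r₁ r₀ N = yd k r₁ r₀ (N + 1) - (r₀ - r₁) := by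
    rw [yd, yd]
    push_cast
    ring
  set Y := yd k r₁ r₀ (N + 1) with hY
  have h7 : ((N : ℝ) + 2) * r₀ ≤ Y := by
    have h8 : ((N : ℝ) + 1) ≤ k := by exact_mod_cast hN
    have h9 : 0 ≤ ((k : ℝ) - ((N : ℝ) + 1)) * r₁ := mul_nonneg (by linarith) h1.le
    rw [hY, yd]
    push_cast
    linarith
  rw [h5, yy, yy, h6, ← hY]
  rw [h6] at h2
  have h8 : ((N : ℝ) + 1) * (((N : ℝ) + 2) * (r₀ * (r₀ - r₁) / Y)
        - (N : ℝ) * (r₀ * (r₀ - r₁) / (Y - (r₀ - r₁))))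
      = r₀ * ((((N : ℝ) + 1) * (r₀ - r₁) * (2 * Y - ((N : ℝ) + 2) * (r₀ - r₁)))
        / (Y * (Y - (r₀ - r₁)))) := by
    field_simp
    ring
  rw [h8]
  have h9 : ((N : ℝ) + 1) * (r₀ - r₁) * (2 * Y - ((N : ℝ) + 2) * (r₀ - r₁))
      ≤ Y * (Y - (r₀ - r₁)) := by
    have h10 : 0 ≤ Y - ((N : ℝ) + 2) * (r₀ - r₁) := by
      have : 0 ≤ ((N : ℝ) + 2) * r₁ := mul_nonneg (by positivity) h1.le
      nlinarith
    have h11 : 0 ≤ Y - ((N : ℝ) + 1) * (r₀ - r₁) := by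
      have : 0 ≤ r₀ - r₁ := by linarith
      nlinarith
    nlinarith [mul_nonneg h10 h11]
  have h10 : (((N : ℝ) + 1) * (r₀ - r₁) * (2 * Y - ((N : ℝ) + 2) * (r₀ - r₁)))
        / (Y * (Y - (r₀ - r₁))) ≤ 1 := by
    rw [div_le_one (mul_pos h3 h2)]
    exact h9
  calc r₀ * _ ≤ r₀ * 1 := mul_le_mul_of_nonneg_left h10 hr0.le
    _ = r₀ := mul_one _

end Numbers

end Pool.Agent.Lib.MP_af7143_lc.Hst
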