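import Pool.Agent.Lib.MP_af7143_lc.Flow

/-! Change of the potential `FF` when one site moves. -/

set_option autoImplicit false

open Finset

namespace Pool.Agent.Lib.MP_af7143_lc

variable {V : Type*} [Fintype V] [DecidableEq V] {N : Type*} [MetricSpace N]

omit [DecidableEq V] in
theorem green_const [Nonempty V] {z : V → N} (hz : Function.Injective z) (c : ℝ) :
    green z (fun _ => c) = fun _ => c / Fintype.card V := by
  have hc : (Fintype.card V : ℝ) ≠ 0 := by exact_mod_cast Fintype.card_ne_zero
  apply lapJ_injective hz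
  rw [lapJ_green hz]
  funext u
  rw [lapJ_apply]
  simp [Lap]
  field_simp

/-- the centred unit source. -/
noncomputable def cs (v : V) : V → ℝ :=
  Pi.single (M := fun _ => ℝ) v 1 - fun _ => 1 / (Fintype.card V : ℝ)

theorem sum_cs (v : V) : ∑ u, cs v u = 0 := by
  have : Nonempty V := ⟨v⟩
  have hc : (Fintype.card V : ℝ) ≠ 0 := by exact_mod_cast Fintype.card_ne_zero
  simp [cs, Finset.sum_sub_distrib, hc]

theorem diag_eq {z : V → N} (hz : Function.Injective z) (v : V) :
    green z (Pi.single v 1) v = En z (cs v) + 1 / (Fintype.card V : ℝ) ^ 2 := by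
  have : Nonempty V := ⟨v⟩
  have hc : (Fintype.card V : ℝ) ≠ 0 := by exact_mod_cast Fintype.card_ne_zero
  set k : ℝ := (Fintype.card V : ℝ) with hk
  have h1 : green z (cs v) = green z (Pi.single v 1) - fun _ => (1 / k) / k := by
    rw [cs, map_sub, green_const hz]
  have h2 : ∑ u, green z (Pi.single v 1) u = 1 / k := by
    have := sum_green hz (Pi.single (M := fun _ => ℝ) v 1)
    rw [← hk] at this
    have h3 : ∑ u, Pi.single (M := fun _ => ℝ) v 1 u = (1:ℝ) := by simp
    rw [h3] at this
    field_simp
    linarith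
  have h4 : En z (cs v) = ∑ u, (Pi.single (M := fun _ => ℝ) v 1 u - 1 / k)
      * (green z (Pi.single v 1) u - (1 / k) / k) := by
    rw [En, h1]; rfl
  rw [h4]
  simp only [sub_mul, Finset.sum_sub_distrib]
  have h5 : ∑ u, Pi.single (M := fun _ => ℝ) v 1 u * (green z (Pi.single v 1) u - (1 / k) / k)
      = green z (Pi.single v 1) v - (1 / k) / k := by
    simp [Pi.single_apply]
  have h6 : ∑ u : V, 1 / k * (green z (Pi.single v 1) u - (1 / k) / k)
      = 1 / k * (1 / k) - 1 / k * (k * ((1 / k) / k)) := by
    rw [← Finset.mul_sum, Finset.sum_sub_distrib, h2, Finset.sum_const, Finset.card_univ,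
      nsmul_eq_mul, ← hk]
    ring
  rw [h5, h6]
  field_simp
  ring

theorem sum_max_cs_le (v : V) : ∑ u, max (cs v u) 0 ≤ 1 := by
  have : Nonempty V := ⟨v⟩
  have hc : (0:ℝ) < (Fintype.card V : ℝ) := by exact_mod_cast Fintype.card_pos
  have h : ∀ u, max (cs v u) 0 ≤ Pi.single (M := fun _ => ℝ) v 1 u := by
    intro u
    have h1 : (0:ℝ) ≤ 1 / (Fintype.card V : ℝ) := by positivity
    by_cases hu : u = v
    · subst hu
      have : cs u u = 1 - 1 / (Fintype.card V : ℝ) := by simp [cs]
      rw [this, Pi.single_eq_same]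
      exact max_le (by linarith) (by norm_num)
    · have : cs v u = 0 - 1 / (Fintype.card V : ℝ) := by simp [cs, Pi.single_eq_of_ne hu]
      rw [this, Pi.single_eq_of_ne hu]
      exact max_le (by linarith) le_rfl
  calc ∑ u, max (cs v u) 0 ≤ ∑ u, Pi.single (M := fun _ => ℝ) v 1 u :=
        Finset.sum_le_sum fun u _ => h u
    _ = 1 := by simp

theorem En_cs_update_le {z : V → N} (hz : Function.Injective z) (p : V) (w : N)
    (hz' : Function.Injective (Function.update z p w)) (v : V) :
    En (Function.update z p w) (cs v) ≤ En z (cs v) + 2 * dist (z p) w := by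
  have h := En_update_le hz p w hz' (sum_cs v)
  have h1 := sum_max_cs_le v
  have h2 : (0:ℝ) ≤ ∑ u, max (cs v u) 0 := Finset.sum_nonneg fun u _ => le_max_right _ _
  have h3 : max (cs v p) 0 ≤ ∑ u, max (cs v u) 0 :=
    Finset.single_le_sum (f := fun u => max (cs v u) 0) (fun u _ => le_max_right _ _)
      (Finset.mem_univ p)
  have h4 : (0:ℝ) ≤ max (cs v p) 0 := le_max_right _ _
  have h5 : (∑ u, max (cs v u) 0) ^ 2 + (∑ u, max (cs v u) 0 - max (cs v p) 0) ^ 2 ≤ 2 := by
    nlinarith
  have h6 := mul_le_mul_of_nonneg_left h5 (dist_nonneg (x := z p) (y := w))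
  linarith

theorem abs_diag_update_le {z : V → N} (hz : Function.Injective z) (p : V) (w : N)
    (hz' : Function.Injective (Function.update z p w)) (v : V) :
    |green (Function.update z p w) (Pi.single v 1) v - green z (Pi.single v 1) v|
      ≤ 2 * dist (z p) w := by
  rw [diag_eq hz', diag_eq hz]
  have h1 := En_cs_update_le hz p w hz' v
  have hback : Function.update (Function.update z p w) p (z p) = z := by simp
  have h2 := En_cs_update_le hz' p (z p) (by rw [hback]; exact hz) v
  rw [hback, Function.update_self, dist_comm w (z p)] at h2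
  rw [abs_le]; constructor <;> linarith

/-- change of `FF` when site `p` moves. -/
theorem FF_update_le {z : V → N} (hz : Function.Injective z) (p : V) (w : N)
    (hz' : Function.Injective (Function.update z p w)) (n : V → ℝ)
    (hn : ∑ v, n v = Fintype.card V) :
    FF (Function.update z p w) n ≤ FF z n + dist (z p) w *
      ((∑ v, max (n v - 1) 0) ^ 2 + (∑ v, max (n v - 1) 0 - max (n p - 1) 0) ^ 2
        + 4 * ∑ v, max (n v - 1) 0) := by
  have hq : ∑ v, (n v - 1) = 0 := by
    rw [Finset.sum_sub_distrib, hn]; simp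
  have h1 := En_update_le hz p w hz' hq
  have h2 : ∀ v, (n v - 1) * green (Function.update z p w) (Pi.single v 1) v
      ≤ (n v - 1) * green z (Pi.single v 1) v + 2 * dist (z p) w * |n v - 1| := by
    intro v
    have h3 := abs_diag_update_le hz p w hz' v
    have h4 : (n v - 1) * (green (Function.update z p w) (Pi.single v 1) v
        - green z (Pi.single v 1) v) ≤ |n v - 1| * (2 * dist (z p) w) := by
      refine (le_abs_self _).trans ?_
      rw [abs_mul]
      exact mul_le_mul_of_nonneg_left h3 (abs_nonneg _)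
    nlinarith
  have h5 := Finset.sum_le_sum fun v (_ : v ∈ (Finset.univ : Finset V)) => h2 v
  rw [Finset.sum_add_distrib, ← Finset.mul_sum] at h5
  have h6 : ∑ v, |n v - 1| = 2 * ∑ v, max (n v - 1) 0 := by
    have : ∀ v, |n v - 1| = 2 * max (n v - 1) 0 - (n v - 1) := by
      intro v
      rcases le_total 0 (n v - 1) with h | h
      · rw [abs_of_nonneg h, max_eq_left h]; ring
      · rw [abs_of_nonpos h, max_eq_right h]; ring
    rw [Finset.sum_congr rfl fun v _ => this v, Finset.sum_sub_distrib, hq, ← Finset.mul_sum]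
    ring
  rw [h6] at h5
  have e1 : FF (Function.update z p w) n = En (Function.update z p w) (fun v => n v - 1)
      + ∑ v, (n v - 1) * green (Function.update z p w) (Pi.single v 1) v := rfl
  have e2 : FF z n = En z (fun v => n v - 1)
      + ∑ v, (n v - 1) * green z (Pi.single v 1) v := rfl
  rw [e1, e2]
  linarith

end Pool.Agent.Lib.MP_af7143_lc
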